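import Pool.Agent.Lib.MP_a2c890_nt.Q2.Sig

set_option autoImplicit false
set_option linter.unusedSectionVars false

namespace Pool.Agent.Lib.MP_a2c890_nt.Q2

open T Finset

variable {F : Type*} [NormedField F] [IsUltrametricDist F] [IsAlgClosed F]
variable {l c : F} {s : ℝ} {Q : ℕ}

/-- `k` separated points of the disc number `j` with small boxes of level at most `n` -/
def CntP (l c : F) (s : ℝ) (j k n : ℕ) : Prop :=
  ∃ T : Finset F, k ≤ T.card ∧
    (∀ x ∈ T, ‖x - cen l j‖ ≤ ‖c‖ ∧ ∃ m ≤ n, 0 < rr l c s m x ∧ rr l c s m x ≤ ‖c‖) ∧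
    ∀ x ∈ T, ∀ y ∈ T, x ≠ y → ‖c‖ ≤ ‖x - y‖

theorem CntP.mono {j k k' n n' : ℕ} (h : CntP l c s j k n) (hk : k' ≤ k) (hn : n ≤ n') :
    CntP l c s j k' n' := by
  obtain ⟨T, a, b, d⟩ := h
  refine ⟨T, hk.trans a, fun x hx => ⟨(b x hx).1, ?_⟩, d⟩
  obtain ⟨m, hm, e⟩ := (b x hx).2
  exact ⟨m, hm.trans hn, e⟩

theorem CntP.ret {j k n : ℕ} (h : CntP l c s 0 k n) (hj : ‖cen l j‖ ≤ ‖c‖) :
    CntP l c s j k n := by
  obtain ⟨T, a, b, d⟩ := h
  refine ⟨T, a, fun x hx => ⟨usub_le ?_ hj, (b x hx).2⟩, d⟩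
  simpa [cen_zero] using (b x hx).1

theorem Cy.cnt_lift (C : Cy l c s Q) {j k n : ℕ} (hj : ‖c‖ < ‖cen l j‖)
    (h : CntP l c s (j + 1) k n) : CntP l c s j k (n + 1) := by
  classical
  obtain ⟨T, a, b, d⟩ := h
  have key : ∀ y ∈ T, ∃ x, fm l c x = y ∧ ‖c‖ < ‖x‖ := fun y hy => by
    obtain ⟨x, -, -, e, h | h⟩ := C.kids_cases y
    · have e1 := cen_sub C.hl j 0 1
      rw [zero_add, cen_one, cen_zero, sub_zero] at e1
      have := utri_le (a := cen l (j + 1)) (by rw [norm_sub_rev]; exact (b y hy).1) h.1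
      exact absurd (e1 ▸ this) (not_le.mpr hj)
    · exact ⟨_, e, h.2⟩
  choose! κ k1 k2 using key
  have inj : Set.InjOn κ T := fun y hy z hz e => by rw [← k1 y hy, e, k1 z hz]
  refine ⟨T.image κ, by rwa [card_image_of_injOn inj], fun x hx => ?_, fun x hx z hz e => ?_⟩
  · obtain ⟨y, hy, rfl⟩ := mem_image.1 hx
    obtain ⟨b1, m, hm, b2, b3⟩ := b y hy
    rw [← k1 y hy] at b1 b2 b3
    exact ⟨C.back (k2 y hy) b1, m + 1, by omega,
      C.rr_small (norm_pos_iff.mp (C.cpos.trans (k2 y hy))) b2 b3⟩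
  · obtain ⟨y, hy, rfl⟩ := mem_image.1 hx
    obtain ⟨w, hw, rfl⟩ := mem_image.1 hz
    by_contra k
    refine absurd (d y hy w hw fun u => e (by rw [u])) (not_le.mpr ?_)
    have a1 := fm_big C.hl C.c0 (k2 y hy)
    have a2 := fm_big C.hl C.c0 (k2 w hw)
    rw [k1 y hy] at a1
    rw [k1 w hw, norm_sub_rev] at a2
    refine utri_lt (utri_lt a1 ?_) a2
    rw [add_sub_add_right_eq_sub, ← mul_sub, norm_mul, C.hl, one_mul]
    exact not_le.mp k

theorem Cy.cnt_lifts (C : Cy l c s Q) {k n : ℕ} (i : ℕ)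
    (hj : ∀ j, 0 < j → j ≤ i → ‖c‖ < ‖cen l j‖) (h : CntP l c s (i + 1) k n) :
    CntP l c s 1 k (n + i) := by
  induction i generalizing n with
  | zero => exact h
  | succ i ih =>
    exact (ih (fun j a b => hj j a (by omega)) (C.cnt_lift (hj _ i.succ_pos le_rfl) h)).mono le_rfl
      (by omega)

theorem Cy.cnt_double (C : Cy l c s Q) {k n : ℕ} (h : CntP l c s 1 k n) :
    CntP l c s 0 (k + (k - 2) + 1) (n + 1) := by
  classical
  obtain ⟨T, a, b, d⟩ := h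
  rw [cen_one] at b
  have c0 := C.cpos
  choose κ k0 k1 k2 _ using C.kids_cases
  obtain ⟨x0, z0, z1, z2⟩ : ∃ x, x ≠ 0 ∧ fm l c x = 0 ∧ ‖x‖ < ‖c‖ := by
    obtain ⟨x, a1, a2, -, h | h⟩ := C.kids_cases 0
    · exact absurd h.1 (C.far_of_le (by simp))
    · exact ⟨x, a1, a2, h.1⟩
  let G := T.filter fun y => ‖c‖ ≤ ‖y - (1 + 2 * l * c)‖ ∧ ‖c‖ ≤ ‖y - (1 - 2 * l * c)‖
  have one : ∀ v : F, (T.filter fun y => ‖y - v‖ < ‖c‖).card ≤ 1 := fun v =>
    card_le_one.2 fun y hy w hw => by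
      by_contra e
      exact absurd (d y (mem_filter.1 hy).1 w (mem_filter.1 hw).1 e) (not_le.mpr
        (utri_lt (mem_filter.1 hy).2 (by rw [norm_sub_rev]; exact (mem_filter.1 hw).2)))
  have cG : T.card ≤ G.card + 2 := by
    have : T ⊆ G ∪ ((T.filter fun y => ‖y - (1 + 2 * l * c)‖ < ‖c‖) ∪
        T.filter fun y => ‖y - (1 - 2 * l * c)‖ < ‖c‖) := fun y hy => by
      simp only [G, mem_union, mem_filter, hy, true_and]
      by_contra e
      push Not at e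
      exact absurd (e.1 e.2.1) (not_lt.mpr e.2.2)
    have a1 := (card_le_card this).trans (card_union_le _ _)
    have a2 := card_union_le (T.filter fun y => ‖y - (1 + 2 * l * c)‖ < ‖c‖)
      (T.filter fun y => ‖y - (1 - 2 * l * c)‖ < ‖c‖)
    have a3 := one (1 + 2 * l * c)
    have a4 := one (1 - 2 * l * c)
    omega
  have hG : ∀ x, x ≠ 0 → fm l c x ∈ G → ‖c‖ ≤ del c x := fun x hx h => by
    refine le_of_sq_le_sq ?_ (del_nonneg c x)
    rw [del_sq C.hl hx, sq]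
    exact mul_le_mul (mem_filter.1 h).2.1 (mem_filter.1 h).2.2 c0.le (norm_nonneg _)
  let A := T.image κ
  let B := G.image fun y => sib c (κ y)
  have mA : ∀ x ∈ A, x ≠ 0 ∧ fm l c x ∈ T ∧ κ (fm l c x) = x := fun x hx => by
    obtain ⟨y, hy, rfl⟩ := mem_image.1 hx
    exact ⟨k0 y, by rwa [k1], by rw [k1]⟩
  have mB : ∀ x ∈ B, x ≠ 0 ∧ fm l c x ∈ G ∧ sib c (κ (fm l c x)) = x := fun x hx => by
    obtain ⟨y, hy, rfl⟩ := mem_image.1 hx
    exact ⟨sib_ne C.c0 (k0 y), by rwa [k2], by rw [k2]⟩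
  have mU : ∀ x ∈ A ∪ B, x ≠ 0 ∧ fm l c x ∈ T ∧ ‖x‖ = ‖c‖ := fun x hx => by
    have : x ≠ 0 ∧ fm l c x ∈ T := by
      rcases mem_union.1 hx with h | h
      · exact ⟨(mA x h).1, (mA x h).2.1⟩
      · exact ⟨(mB x h).1, (mem_filter.1 (mB x h).2.1).1⟩
    exact ⟨this.1, this.2, norm_of_fm_one C.hl C.c0 this.1 (b _ this.2).1⟩
  have dj : Disjoint A B := disjoint_left.2 fun x h1 h2 => by
    have e := (mB x h2).2.2
    rw [(mA x h1).2.2] at e
    have := hG x (mB x h2).1 (mB x h2).2.1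
    rw [del, e, sub_self, norm_zero] at this
    exact absurd c0 (not_lt.mpr this)
  have n0 : x0 ∉ A ∪ B := fun h => z2.ne (mU x0 h).2.2
  have sp : ∀ x ∈ A ∪ B, ∀ z ∈ A ∪ B, x ≠ z → ‖c‖ ≤ ‖x - z‖ := fun x hx z hz e => by
    obtain ⟨a1, a2, a3⟩ := mU x hx
    obtain ⟨b1, b2, b3⟩ := mU z hz
    by_cases u : fm l c x = fm l c z
    · have g : fm l c z ∈ G := by
        rcases mem_union.1 hx with h | h
        · rcases mem_union.1 hz with h' | h'
          · exact absurd (by rw [← (mA x h).2.2, u, (mA z h').2.2]) e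
          · exact (mB z h').2.1
        · exact u ▸ (mB x h).2.1
      have := hG z b1 g
      rwa [del, ← (eq_or_sib C.hl a1 b1 u).resolve_left e, norm_sub_rev] at this
    · have ke := key (c := c) C.hl a1 b1
      have s1 : ‖x - sib c z‖ ≤ ‖c‖ := usub_le a3.le (norm_sib_c C.c0 b3).le
      have s2 := d _ a2 _ b2 u
      rw [a3] at ke
      refine le_of_mul_le_mul_right ?_ c0
      calc ‖c‖ * ‖c‖ ≤ ‖fm l c x - fm l c z‖ * ‖c‖ := by gcongr
        _ = _ := ke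
        _ ≤ _ := by gcongr
  have far : ∀ x ∈ A ∪ B, ‖c‖ ≤ ‖x - x0‖ := fun x hx => by
    have e := (mU x hx).2.2
    rw [sub_eq_add_neg, uadd_eq (by rwa [norm_neg, e]), e]
  refine ⟨insert x0 (A ∪ B), ?_, fun x hx => ?_, fun x hx z hz e => ?_⟩
  · rw [card_insert_of_notMem n0, card_union_of_disjoint dj,
      card_image_of_injective _ (Function.LeftInverse.injective k1),
      card_image_of_injective _ (Function.LeftInverse.injective k2)]
    omega
  · rw [cen_zero, sub_zero]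
    rcases mem_insert.1 hx with rfl | hx
    · exact ⟨z2.le, 1, by omega, C.rr_visit z0 z2 ⟨0, by simp [z1, cen_zero]⟩⟩
    · obtain ⟨a1, a2, a3⟩ := mU x hx
      obtain ⟨-, m, hm, b2, b3⟩ := b _ a2
      exact ⟨a3.le, m + 1, by omega, C.rr_small a1 b2 b3⟩
  · rcases mem_insert.1 hx with h1 | h1 <;> rcases mem_insert.1 hz with h2 | h2
    · exact absurd (h1.trans h2.symm) e
    · rw [norm_sub_rev, h1]; exact far z h2
    · rw [h2]; exact far x h1
    · exact sp x h1 z h2 e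

theorem Cy.cnt_round (C : Cy l c s Q) {k n : ℕ} (h : CntP l c s 0 k n) :
    CntP l c s 0 (k + (k - 2) + 1) (n + Q) := by
  classical
  have ex : ∃ i, ‖cen l (i + 1)‖ ≤ ‖c‖ :=
    ⟨Q - 1, by rw [Nat.sub_add_cancel C.Q0]; exact C.per⟩
  have le : Nat.find ex ≤ Q - 1 :=
    Nat.find_min' ex (by rw [Nat.sub_add_cancel C.Q0]; exact C.per)
  refine (C.cnt_double (C.cnt_lifts (Nat.find ex) (fun j a b => ?_)
    (h.ret (Nat.find_spec ex)))).mono le_rfl (by have := C.Q0; omega)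
  have := Nat.find_min ex (show j - 1 < Nat.find ex by omega)
  rwa [Nat.sub_add_cancel a, not_le] at this

theorem Cy.cnt_all (C : Cy l c s Q) (t : ℕ) : CntP l c s 0 (2 ^ t + 1) (Q * (t + 2)) := by
  induction t with
  | zero =>
    have h : CntP l c s 0 0 0 := ⟨∅, le_rfl, by simp, by simp⟩
    exact (C.cnt_round (C.cnt_round h)).mono le_rfl (by omega)
  | succ t ih =>
    refine (C.cnt_round ih).mono ?_ (le_of_eq (by ring))
    have := Nat.one_le_two_pow (n := t)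
    omega

/-- stable boxes give many stable residue classes -/
theorem Cy.cnt (C : Cy l c s Q) {σ : F →+* F} (I : Iso l c σ) {r N : ℕ}
    (few : ∀ X : Finset F, (∀ x ∈ X, ‖x‖ ≤ 1) → (∀ x ∈ X, ∀ y ∈ X, x ≠ y → 1 ≤ ‖x - y‖) →
      (∀ x ∈ X, ‖σ x - x‖ < 1) → X.card ≤ 2 ^ r) (h : SA l c s σ N) : N ≤ Q * (r + 2) := by
  classical
  by_contra hN
  obtain ⟨T, a, b, d⟩ := C.cnt_all r
  have c0 := C.cpos
  have := few (T.image (· / c)) (fun x hx => ?_) (fun x hx y hy e => ?_) fun x hx => ?_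
  · rw [card_image_of_injective _ fun a b e => (div_left_inj' C.c0).1 e] at this
    omega
  · obtain ⟨y, hy, rfl⟩ := mem_image.1 hx
    rw [norm_div, div_le_one c0]
    simpa [cen_zero] using (b y hy).1
  · obtain ⟨z, hz, rfl⟩ := mem_image.1 hx
    obtain ⟨w, hw, rfl⟩ := mem_image.1 hy
    rw [← sub_div, norm_div, one_le_div c0]
    exact d z hz w hw fun u => e (by rw [u])
  · obtain ⟨y, hy, rfl⟩ := mem_image.1 hx
    obtain ⟨-, m, hm, b2, b3⟩ := b y hy
    rw [map_div₀, I.fc, ← sub_div, norm_div, div_lt_one c0]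
    exact (h m (by omega) y b2).trans_le b3

end Pool.Agent.Lib.MP_a2c890_nt.Q2
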