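import Pool.Agent.Lib.MP_a2c890_nt.R.Frob

set_option autoImplicit false
set_option linter.unusedSectionVars false

namespace Pool.Agent.Lib.MP_a2c890_nt.Q2

open T R Finset

variable {p : ℕ} [Fact p.Prime]

theorem frb_nhds (ρ : Gl p) (x : PadicAlgCl p) : ∀ᶠ τ in nhds ρ, τ x = ρ x := by
  have h := ((stabilizer_isOpen_of_isIntegral (K := ℚ_[p]) x).preimage
    (continuous_const_mul ρ⁻¹)).mem_nhds (x := ρ) (by simp)
  filter_upwards [h] with τ e
  have e' : ρ⁻¹ (τ x) = x := e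
  rw [← AlgEquiv.apply_symm_apply ρ (τ x)]
  exact congrArg ρ e'

/-- one Galois element all of whose powers fix few residue classes -/
theorem exists_frob (E : Finset (PadicAlgCl p)) : ∃ (σ : Gl p) (q : ℕ), (∀ e ∈ E, σ e = e) ∧
    ∀ n, 0 < n → ∀ X : Finset (PadicAlgCl p), (∀ x ∈ X, ‖x‖ ≤ 1) →
      (∀ x ∈ X, ∀ y ∈ X, x ≠ y → 1 ≤ ‖x - y‖) → (∀ x ∈ X, ‖(σ ^ n) x - x‖ < 1) →
        X.card ≤ q ^ n := by
  classical
  obtain ⟨q, hq⟩ := frob E
  choose s s1 s2 using fun Y : Finset (PadicAlgCl p) =>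
    hq (Y.filter fun x => ‖x‖ ≤ 1) fun x hx => (mem_filter.1 hx).2
  let U : Ultrafilter (Finset (PadicAlgCl p)) := Ultrafilter.of Filter.atTop
  obtain ⟨σ, -, hσ⟩ := isCompact_univ.ultrafilter_le_nhds (U.map s) (by simp)
  have ht : Filter.Tendsto s U (nhds σ) := hσ
  refine ⟨σ, q, fun e he => ?_, fun n hn X h1 h2 h3 => ?_⟩
  · obtain ⟨Y, hY⟩ := (ht.eventually (frb_nhds σ e)).exists
    rw [← hY, s1 Y e he]
  · have a : ∀ᶠ Y in (U : Filter _), ∀ x ∈ X, (s Y ^ n) x = (σ ^ n) x :=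
      (Filter.eventually_all_finset X).2 fun x _ => (ht.pow n).eventually (frb_nhds (σ ^ n) x)
    have b : ∀ᶠ Y in (U : Filter _), X ≤ Y :=
      (Ultrafilter.of_le Filter.atTop) (Filter.eventually_ge_atTop X)
    obtain ⟨Y, a, b⟩ := (a.and b).exists
    exact s2 Y n hn X (fun x hx => mem_filter.2 ⟨b hx, h1 x hx⟩) h2 fun x hx => a x hx ▸ h3 x hx

end Pool.Agent.Lib.MP_a2c890_nt.Q2
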