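import Pool.Agent.Lib.MP_a2c890_nt.Q2.Und

set_option autoImplicit false
set_option linter.unusedSectionVars false

namespace Pool.Agent.Lib.MP_a2c890_nt.Q2

theorem kap_le_one : kap ≤ 1 := kap_lt.le.trans (by norm_num)

theorem kap_two (n : ℕ) : kap ^ (2 * n) = (1 / 2) ^ n := by rw [pow_mul, sq, kap_sq]

theorem kap_anti {m n : ℕ} (h : m ≤ n) : kap ^ n ≤ kap ^ m :=
  pow_le_pow_of_le_one kap_pos.le kap_le_one h

theorem kap_six (u : ℕ) : kap ^ (u / 6) ≤ 2 * (19 / 20) ^ u := by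
  have h1 : kap ^ (u / 6) ≤ (19 / 20) ^ (6 * (u / 6)) := by
    rw [pow_mul]
    exact pow_le_pow_left₀ kap_pos.le (kap_lt.le.trans (by norm_num)) _
  have h2 : (19 / 20 : ℝ) ^ (6 * (u / 6) + 5) ≤ (19 / 20) ^ u :=
    pow_le_pow_of_le_one (by norm_num) (by norm_num) (by omega)
  rw [pow_add] at h2
  have h3 : (0 : ℝ) ≤ (19 / 20) ^ (6 * (u / 6)) := by positivity
  norm_num at h2
  linarith

variable {N : ℕ → ℕ} {K : ℕ}

theorem win_step (h1 : ∀ a, N a + 2 ≤ N (a + 1)) (a j : ℕ) : N a + 2 * j ≤ N (a + j) := by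
  induction j with
  | zero => exact le_rfl
  | succ j ih => have := h1 (a + j); rw [← add_assoc]; omega

theorem win_small (h1 : ∀ a, N a + 2 ≤ N (a + 1)) (h2 : ∀ a, N a ≤ K * 2 ^ a) {ε : ℝ} (e0 : 0 < ε) :
    ∃ a1, ∀ a, a1 ≤ a → N (a + 1) * kap ^ N a ≤ ε := by
  obtain ⟨t, ht⟩ := exists_pow_lt_of_lt_one (show 0 < ε / (2 * K + 1) by positivity)
    (show (1 / 2 : ℝ) < 1 by norm_num)
  rw [lt_div_iff₀ (by positivity)] at ht
  by_cases c : ∃ a1, 2 * (a1 + t) ≤ N a1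
  · obtain ⟨a1, c⟩ := c
    refine ⟨a1, fun a ha => ?_⟩
    obtain ⟨j, rfl⟩ := Nat.exists_eq_add_of_le ha
    have e1 := kap_anti (show 2 * (a1 + j + t) ≤ N (a1 + j) by have := win_step h1 a1 j; omega)
    have e2 : (N (a1 + j + 1) : ℝ) ≤ K * 2 ^ (a1 + j + 1) := by exact_mod_cast h2 _
    refine (mul_le_mul e2 e1 (pow_pos kap_pos _).le (by positivity)).trans ?_
    have e3 : (K : ℝ) * 2 ^ (a1 + j + 1) * (1 / 2) ^ (a1 + j + t) = (1 / 2) ^ t * (2 * K) := by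
      rw [pow_add _ _ t, pow_succ, one_div_pow]; field_simp
    rw [kap_two, e3]
    linarith [pow_pos (show (0 : ℝ) < 1 / 2 by norm_num) t]
  · obtain ⟨a1, h⟩ := exists_pow_lt_of_lt_one (show 0 < ε / (4 * (t + 1)) by positivity)
      (show (3 / 4 : ℝ) < 1 by norm_num)
    rw [lt_div_iff₀ (by positivity)] at h
    refine ⟨a1, fun a ha => ?_⟩
    have e1 := kap_anti (show 2 * a ≤ N a by have := win_step h1 0 a; rw [zero_add] at this; omega)
    have e2 : (N (a + 1) : ℝ) ≤ 2 * (a + 1 + t) := by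
      exact_mod_cast (not_le.1 fun e => c ⟨a + 1, e⟩).le
    have e3 := one_add_mul_le_pow (show (-2 : ℝ) ≤ 1 / 2 by norm_num) a
    have e4 : (2 : ℝ) * (a + 1 + t) ≤ 4 * (t + 1) * (1 + 1 / 2) ^ a := by
      nlinarith [Nat.cast_nonneg (α := ℝ) a, Nat.cast_nonneg (α := ℝ) t]
    refine (mul_le_mul (e2.trans e4) e1 (pow_pos kap_pos _).le (by positivity)).trans ?_
    rw [kap_two, mul_assoc, ← mul_pow, mul_comm]
    refine le_trans (mul_le_mul_of_nonneg_right ?_ (by positivity)) h.le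
    norm_num
    exact pow_le_pow_of_le_one (by norm_num) (by norm_num) ha

/-- every large number meets a window -/
theorem window (h1 : ∀ a, N a + 2 ≤ N (a + 1)) (h2 : ∀ a, N a ≤ K * 2 ^ a) {η : ℝ} (η0 : 0 < η)
    (N0 : ℕ) : ∃ U0 : ℕ, ∀ U : ℕ, U0 ≤ U → ∃ a, N0 ≤ N a ∧ kap ^ N a * U ≤ η ∧ (N a : ℝ) ≤ η * U := by
  obtain ⟨a1, h⟩ := win_small h1 h2 (mul_pos η0 η0)
  obtain ⟨U0, hU⟩ := exists_nat_gt (η / kap ^ (N0 + N a1))
  rw [div_lt_iff₀ (pow_pos kap_pos _)] at hU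
  refine ⟨U0, fun U u => ?_⟩
  have U0' : (0 : ℝ) ≤ U := Nat.cast_nonneg U
  have ex : ∃ a, kap ^ N a * U ≤ η := by
    obtain ⟨t, ht⟩ := exists_pow_lt_of_lt_one (show 0 < η / (U + 1) by positivity)
      (show (1 / 2 : ℝ) < 1 by norm_num)
    rw [lt_div_iff₀ (by positivity)] at ht
    have e1 := kap_anti (show 2 * t ≤ N t by have := win_step h1 0 t; rw [zero_add] at this; omega)
    rw [kap_two] at e1
    exact ⟨t, by
      linarith [mul_le_mul_of_nonneg_right e1 U0', pow_pos (show (0 : ℝ) < 1 / 2 by norm_num) t]⟩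
  have sp := Nat.find_spec ex
  have big : N0 + N a1 < N (Nat.find ex) := not_le.1 fun e => by
    have := mul_le_mul (kap_anti e) (Nat.cast_le.2 u : (U0 : ℝ) ≤ U) (Nat.cast_nonneg _)
      (pow_pos kap_pos _).le
    linarith
  have lt : a1 < Nat.find ex := not_le.1 fun e => by
    have := win_step h1 (Nat.find ex) (a1 - Nat.find ex)
    rw [Nat.add_sub_cancel' e] at this
    omega
  refine ⟨_, by omega, sp, ?_⟩
  obtain ⟨a, ea⟩ : ∃ a, Nat.find ex = a + 1 := ⟨Nat.find ex - 1, by omega⟩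
  have m := not_le.1 (Nat.find_min ex (show a < Nat.find ex by omega))
  rw [ea]
  refine le_of_mul_le_mul_right ?_ η0
  have e1 := mul_le_mul_of_nonneg_left m.le (Nat.cast_nonneg (α := ℝ) (N (a + 1)))
  have e2 := mul_le_mul_of_nonneg_right (h a (by omega)) U0'
  linarith

end Pool.Agent.Lib.MP_a2c890_nt.Q2
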