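import Pool.Agent.Lib.MP_a2c890_nt.Q2.Clu
import Pool.Agent.Lib.MP_a2c890_nt.Q2.Wn
import Pool.Agent.Lib.MP_a2c890_nt.Q2.Cnt
import Pool.Agent.Lib.MP_a2c890_nt.Q2.Frb

set_option autoImplicit false
set_option linter.unusedSectionVars false

namespace Pool.Agent.Lib.MP_a2c890_nt.Q2

open T R Finset

section

variable {F : Type*} [NormedField F] [IsUltrametricDist F] [IsAlgClosed F]
variable {l c : F} {s : ℝ} {Q : ℕ} {σ : F →+* F}

/-- determined and not on the boundary -/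
def Gn (l c : F) (s : ℝ) (σ : F →+* F) (L : ℕ) (y : F) : Prop :=
  ¬ Und l c s L y ∧ ¬ Bd l c s σ L y

theorem not_und {k : ℕ} {y : F} : ¬ Und l c s k y ↔ ∃ m ≤ k, Det l c s m y := by
  simp only [Und, not_forall, not_not, exists_prop]

theorem not_gn {L : ℕ} {y : F} (h : ¬ Gn l c s σ L y) : Bd l c s σ L y ∨ Und l c s L y := by
  by_contra k
  exact h ⟨fun a => k (Or.inr a), fun a => k (Or.inl a)⟩

theorem Gn.gd {L : ℕ} {y : F} (h : Gn l c s σ L y) : Gd l c s σ L y := by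
  obtain ⟨m, a, d⟩ := not_und.1 h.1
  exact ⟨m, a, d, fun b => h.2 ⟨m, a, b⟩⟩

theorem SA.mono {N N' : ℕ} (h : SA l c s σ N) (k : N' ≤ N) : SA l c s σ N' :=
  fun m hm => h m (hm.trans_le k)

theorem Cy.sat_det (C : Cy l c s Q) (j : ℕ) : Sat l c s j fun y => ¬ Und l c s j y := fun _ h => by
  obtain ⟨m, a, d⟩ := not_und.1 h
  exact ⟨m, a, d.1, d.2.1, fun _ hz => not_und.2 ⟨m, a, C.det_congr d hz⟩⟩

theorem Cy.sat_gn (C : Cy l c s Q) (I : Iso l c σ) (L : ℕ) : Sat l c s L (Gn l c s σ L) :=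
  fun y h => by
  obtain ⟨m, a, d⟩ := not_und.1 h.1
  refine ⟨m, a, d.1, d.2.1, fun z hz => ⟨not_und.2 ⟨m, a, C.det_congr d hz⟩, ?_⟩⟩
  rintro ⟨m', a', b⟩
  rcases le_total m m' with o | o
  · exact h.2 ⟨m, a, C.bm_congr I (C.bm_down I o b (C.det_congr d hz)) (C.rr_symm hz)⟩
  · exact h.2 ⟨m', a', C.bm_congr I b (C.rr_nest' o b.1.1 (C.rr_symm hz))⟩

theorem Cy.avg_not (C : Cy l c s Q) (n : ℕ) (P : F → Prop) (w : F) :
    avg l c n (fun x => ind (¬ P x)) w = 1 - avg l c n (fun x => ind (P x)) w := by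
  rw [← avg_const (l := l) (c := c) n 1 w, ← avg_sub]
  refine C.avg_congr fun x _ => ?_
  by_cases h : P x
  · rw [ind_pos h, ind_neg (not_not.2 h), sub_self]
  · rw [ind_neg h, ind_pos h, sub_zero]

theorem Cy.M1 (C : Cy l c s Q) : (1 : ℝ) ≤ Q * 2 ^ (Q + 1) :=
  one_le_mul_of_one_le_of_one_le (Nat.one_le_cast.2 C.Q0) (one_le_pow₀ one_le_two)

/-- the mass of the boundary event -/
theorem Cy.mass (C : Cy l c s Q) (I : Iso l c σ) {N : ℕ} (h : SA l c s σ (N + 2))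
    (h' : ¬ SA l c s σ (N + 3)) {L : ℕ} (hL : N + 1 ≤ L) : ∃ a : ℝ,
      Cl l c (Q * 2 ^ (Q + 1)) a (Q + 1 + L) (Bd l c s σ L) ∧ (1 / 2) ^ (N + 1) ≤ a ∧
      a ≤ Q * 2 ^ (Q + 1) * (10 * kap ^ N) ∧
      ∀ i y, L ≤ i → avg l c i (fun x => ind (Bd l c s σ L x)) y ≤ a := by
  obtain ⟨a, a0, q1, q2, q3⟩ := C.comp (Bd l c s σ L) L
  have M0 := zero_le_one.trans C.M1
  have z : Inn l c (cen l 0) := ⟨0, by rw [sub_self, norm_zero]; exact norm_nonneg _⟩
  obtain ⟨y, hy⟩ := C.exists_bm I (N := N + 1) h h'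
  refine ⟨a, ⟨a0, C.M1, fun i y hy => ?_, fun i w hi => ?_⟩, q3 _ y hL ?_, ?_, fun i y hi => ?_⟩
  · refine (C.avg_mono (g := fun x => ind (SatAt l c s (Bd l c s σ L) (min i L) x) +
      ind (Und l c s i x)) fun x _ => ?_).trans ?_
    · by_cases b : Bd l c s σ L x
      · rcases C.bd_or I (i := i) b with o | o
        · exact le_add_of_le_of_nonneg (ind_mono fun _ => o) (ind_nonneg _)
        · exact le_add_of_nonneg_of_le (ind_nonneg _) (ind_mono fun _ => o)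
      · rw [ind_neg b]; exact add_nonneg (ind_nonneg _) (ind_nonneg _)
    · rw [avg_add]
      exact add_le_add (q1 _ _ _ (min_le_right _ _) (min_le_left _ _)) (C.und_mass hy le_rfl)
  · have := q2 (i - (Q + 1 + L)) w
    rw [show i - (Q + 1 + L) + (Q + 1) + L = i by omega] at this
    exact this.trans (mul_le_mul_of_nonneg_left (C.avg_mono fun x _ => ind_mono fun e => e.self) M0)
  · exact (C.sat_bd I (N + 1) y ⟨_, le_rfl, hy⟩).mono le_rfl fun z ⟨m, a, b⟩ => ⟨m, a.trans hL, b⟩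
  · exact (q2 0 _).trans (mul_le_mul_of_nonneg_left ((C.avg_mono fun x _ => ind_mono fun e =>
      C.und_of_bd I h e.self).trans (C.und_mass z (by omega))) M0)
  · exact (C.avg_mono fun x _ => ind_mono (C.sat_bd I L x)).trans (q1 _ _ _ le_rfl hi)

end

variable {S : Sys 2} {A A' lam μ : ℝ} {u0 : ℕ} {E E' : S.Ω → Prop}

theorem Lo.compl (h : Lo S A lam u0 E (1 - μ)) : Up S A lam u0 (fun z => ¬ E z) μ :=
  fun m k x w a b d e => by
  have h1 := h m k x w a b d e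
  have h2 : (S.av x fun z => ind (¬ E z) * w (S.f^[k] z)) =
      S.av (S.f^[k] x) w - S.av x fun z => ind (E z) * w (S.f^[k] z) := by
    rw [← Sys.av_comp, ← Sys.av_sub]
    refine Sys.av_congr fun z _ => ?_
    by_cases g : E z
    · rw [ind_pos g, ind_neg (not_not.2 g)]; ring
    · rw [ind_neg g, ind_pos g]; ring
  linarith

theorem Lo.abs {m : ℕ} (h : Lo S A lam u0 E μ) {x : S.Ω} (hx : S.lev m x) (hu : u0 ≤ S.lr x m) :
    μ - A * lam ^ S.lr x m ≤ S.av x fun z => ind (E z) := by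
  have := h m m x (fun _ => 1) hx le_rfl hu fun _ => ⟨zero_le_one, le_rfl⟩
  simpa only [mul_one, Sys.av_one] using this

variable {p : ℕ} [Fact p.Prime] {l c : PadicAlgCl p} {s : ℝ} {Q : ℕ} {φ : S.Ω → PadicAlgCl p}

theorem Aff.iter (H : Aff S l c φ) {m j : ℕ} {z : S.Ω} (hz : S.lev m z) (hj : j ≤ m) :
    φ (S.f^[j] z) = (fm l c)^[j] (φ z) := by
  induction j with
  | zero => rfl
  | succ j ih =>
    have := Sys.lev_iter hz (show j ≤ m by omega)
    rw [show m - j = (m - j - 1) + 1 by omega] at this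
    rw [Function.iterate_succ_apply', Function.iterate_succ_apply', H.conj _ _ this, ih (by omega)]

theorem Aff.ne (H : Aff S l c φ) {m : ℕ} {z : S.Ω} (hz : S.lev (m + 1) z) : φ z ≠ 0 :=
  (H.pre _ _ hz).2 0 (Nat.succ_pos m)

/-- the window data of one Galois element -/
theorem Cy.wq (C : Cy l c s Q) (H : Aff S l c φ) (hE : EQ S l c s φ A (19 / 20))
    {σ : PadicAlgCl p →+* PadicAlgCl p} (I : Iso l c σ) {n0 N : ℕ}
    (g0 : ∀ z, S.lev n0 z → σ (φ z) = φ z) (g1 : ∀ m z, S.lev m z → ∃ z' ∈ S.orb z, σ (φ z) = φ z')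
    (h : SA l c s σ (N + 2)) (h' : ¬ SA l c s σ (N + 3)) (hN : Q + 2 ≤ N) : ∃ a B Bad Fx,
      WQ S (A + 20) (19 / 20) (1 / (1080 * (Q * 2 ^ (Q + 1)) ^ 2)) 24 n0 (N + 2) a
        (Q * 2 ^ (Q + 1) * (10 * kap ^ N)) B Bad Fx := by
  obtain ⟨L, eL⟩ : ∃ L, L = 4 * (N + 2) := ⟨_, rfl⟩
  obtain ⟨a, cl, a1, a2, up⟩ := C.mass I h h' (L := L) (by omega)
  have M1 := C.M1
  have a3 : (1 / 2 : ℝ) ^ (N + 2) ≤ a :=
    (pow_le_pow_of_le_one (by norm_num) (by norm_num) (Nat.le_succ _)).trans a1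
  have k1 : kap ^ L = ((1 / 2) ^ (N + 2)) ^ 2 := by
    rw [eL, show 4 * (N + 2) = 2 * ((N + 2) * 2) by ring, kap_two, pow_mul]
  have k2 : kap ^ L ≤ a ^ 2 := k1.trans_le (pow_le_pow_left₀ (by positivity) a3 2)
  have k3 : 10 * kap ^ L ≤ a := by
    have e : (1 / 2 : ℝ) ^ (N + 2) ≤ (1 / 2) ^ 4 :=
      pow_le_pow_of_le_one (by norm_num) (by norm_num) (by omega)
    have : (0 : ℝ) ≤ (1 / 2) ^ (N + 2) := by positivity
    rw [k1]; nlinarith
  have l0 : ∀ u : ℕ, (0 : ℝ) ≤ (19 / 20) ^ u := fun u => by positivity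
  have υ1 : 1 / (1080 * ((Q : ℝ) * 2 ^ (Q + 1)) ^ 2) * (27 * (Q * 2 ^ (Q + 1))) ≤ 1 := by
    rw [one_div, inv_mul_le_iff₀ (by positivity)]; nlinarith
  have υ0 : 0 ≤ 1 / (1080 * ((Q : ℝ) * 2 ^ (Q + 1)) ^ 2) := by positivity
  refine ⟨a, fun z => Bd l c s σ L (φ z), fun z => ¬ Gn l c s σ L (φ z), fun z => σ (φ z) = φ z,
    by omega, a3, a2, fun m k x w b1 b2 _ b4 => ?_, fun m k x w b1 b2 b3 b4 => ?_,
    fun W m x b0 b1 b2 b3 => ?_, fun W m J x b0 b1 b2 b3 => ?_, fun z b g => g.2 b, g0,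
    fun m z b1 b2 b3 => ?_, fun m z b1 b2 b3 => ?_, fun m z b1 b2 b3 => ?_⟩
  · have e1 := (hE (min N (S.lr x k / 6)) (6 * min N (S.lr x k / 6)) _
      (1 - 10 * kap ^ min N (S.lr x k / 6)) le_rfl (C.sat_det _) fun n w hn hw => by
        rw [C.avg_not]; exact sub_le_sub_left (C.und_mass hw (by omega)) 1).compl m k x w b1 b2
        (by omega) b4
    have e2 : (S.av x fun z => ind (¬ Gn l c s σ L (φ z)) * w (S.f^[k] z)) ≤ _ :=
      (Sys.av_mono fun z _ => mul_le_mul_of_nonneg_right (ind_mono fun g => not_not.2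
        (Und.mono ((not_gn g).elim (C.und_of_bd I h) fun u => u.mono (by omega))
          (min_le_left _ _))) (b4 _).1).trans e1
    have e3 : kap ^ min N (S.lr x k / 6) ≤ kap ^ N + 2 * (19 / 20) ^ S.lr x k := by
      have := kap_six (S.lr x k)
      rcases min_choice N (S.lr x k / 6) with o | o <;> rw [o] <;>
        linarith [l0 (S.lr x k), pow_pos kap_pos N]
    have w0 : 0 ≤ S.av (S.f^[k] x) w := Sys.av_nonneg fun y => (b4 y).1
    have w1 : S.av (S.f^[k] x) w ≤ 1 := Sys.av_le_one fun y => (b4 y).2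
    have e4 := mul_le_mul_of_nonneg_right e3 w0
    have e5 := mul_le_mul_of_nonneg_left w1 (l0 (S.lr x k))
    have e6 := mul_le_mul_of_nonneg_right M1 (mul_nonneg (pow_pos kap_pos N).le w0)
    linarith
  · have e1 := (hE L (24 * (N + 2)) _ (1 - 2 * a) (by omega) (C.sat_gn I L) fun n w hn hw => by
      have e := C.avg_not n (Gn l c s σ L) w
      have e' : avg l c n (fun x => ind (¬ Gn l c s σ L x)) w ≤ _ :=
        C.avg_mono (g := fun x => ind (Bd l c s σ L x) + ind (Und l c s L x)) fun x _ => by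
          by_cases g : Gn l c s σ L x
          · rw [ind_neg (not_not.2 g)]; exact add_nonneg (ind_nonneg _) (ind_nonneg _)
          · rcases not_gn g with o | o
            · exact le_add_of_le_of_nonneg (ind_mono fun _ => o) (ind_nonneg _)
            · exact le_add_of_nonneg_of_le (ind_nonneg _) (ind_mono fun _ => o)
      rw [avg_add] at e'
      linarith [up n w (by omega), C.und_mass hw (show L ≤ n by omega)]).compl m k x w b1 b2 b3 b4
    linarith [l0 (S.lr x k)]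
  · have e1 := (hE (L + W) (24 * (N + 2 + W)) _ _ (by omega)
      (C.sat_fh (C.sat_bd I L) (C.sat_gn I L) W) fun n w hn _ =>
        C.first_hit cl (C.sat_bd I L) (C.sat_gn I L) (fun _ => not_gn) up k2 b0 b1 (by omega) w).abs
        b2 b3
    have hm := Sys.lr_le x m
    refine le_trans (by linarith [l0 (S.lr x m)]) (e1.trans (Sys.av_mono fun z hz =>
      ind_mono fun g => ⟨g.1, fun j c1 c2 => not_not.2 ?_⟩))
    obtain ⟨y, d1, d2⟩ := g.2 j (mem_Icc.2 ⟨c1, c2⟩)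
    rw [H.iter (Sys.lev_orb b2 hz) (by omega), d2.1]
    exact d1
  · have cJ : (J.card : ℝ) * a ≤ 1 :=
      (mul_le_mul_of_nonneg_right (Nat.cast_le.2 (card_le_of_lt J id (Set.injOn_id _) b1)) cl.a0).trans
        (b0.trans (le_trans (le_mul_of_one_le_right υ0 (by linarith)) υ1))
    have e1 := (hE (L + W) (24 * (N + 2 + W))
      (fun x => ∃ i, i ∈ J ∧ ∃ y, Bd l c s σ L y ∧ Pre l c i y x)
      (1 / (1080 * (Q * 2 ^ (Q + 1)) ^ 2) * J.card * a) (by omega)
      (Sat.ex fun i hi => (C.sat_pull (C.sat_bd I L) i).mono (Nat.add_le_add_left (b1 i hi).le _))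
      fun n w hn hw => by
        have e := C.cluster cl hw (n := n) (fun i hi => by have := b1 i hi; omega) cJ
        have e' := C.avg_mono (n := n) (y := w)
          (h := fun x => ind (∃ i ∈ J, Bd l c s σ L ((fm l c)^[i] x)))
          (g := fun x => ind (∃ i, i ∈ J ∧ ∃ y, Bd l c s σ L y ∧ Pre l c i y x)) fun x hx =>
            ind_mono fun ⟨i, d1, d2⟩ => ⟨i, d1, _, d2, rfl, fun j hj =>
              hx.2 j (by have := b1 i d1; omega)⟩
        have p0 : 0 ≤ avg l c n (fun x => ind (∃ i ∈ J, Bd l c s σ L ((fm l c)^[i] x))) w :=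
          C.le_avg fun _ _ => ind_nonneg _
        rw [mul_assoc]
        refine (mul_le_mul_of_nonneg_left e υ0).trans (le_trans ?_ e')
        rw [← mul_assoc]
        exact mul_le_of_le_one_left p0 υ1).abs b2 b3
    have hm := Sys.lr_le x m
    refine le_trans (by linarith [l0 (S.lr x m)]) (e1.trans (Sys.av_mono fun z hz =>
      ind_mono fun ⟨i, c1, y, d1, d2⟩ => ⟨i, c1, ?_⟩))
    have := b1 i c1
    rw [H.iter (Sys.lev_orb b2 hz) (by omega), d2.1]
    exact d1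
  · obtain ⟨z', c1, c2⟩ := g1 _ z b1
    have c3 := Sys.lev_orb b1 c1
    rw [c2, Sys.eq_of_rel_one b3 c1 (H.inj m _ _ c3 b1 ?_)]
    rw [H.conj _ _ c3, ← c2, ← I.fm, ← H.conj _ _ b1, b2]
  · rw [H.conj _ _ b1] at b2 b3
    exact C.gd_fix I (H.ne b1) (not_not.1 b3).gd b2
  · rw [H.conj _ _ b1] at b3
    exact C.bd_move I (H.ne b1) b3 b2

/-- windows exist -/
theorem Cy.hasWQ (C : Cy l c s Q) (H : Aff S l c φ) (hE : EQ S l c s φ A (19 / 20)) (n0 : ℕ) :
    HasWQ S (A + 20) (19 / 20) (1 / (1080 * (Q * 2 ^ (Q + 1)) ^ 2)) 24 n0 := by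
  classical
  obtain ⟨E0, gal⟩ := H.gal
  obtain ⟨σ, q, fx, few⟩ := exists_frob
    (insert l (insert c (E0 ∪ (Sys.pre_fin n0 S.b).toFinset.image φ)))
  have pw : ∀ (n : ℕ) e, σ e = e → (σ ^ n) e = e := fun n e he => by
    induction n with
    | zero => rfl
    | succ n ih => rw [pow_succ, AlgEquiv.mul_apply, he, ih]
  let τ : ℕ → PadicAlgCl p →+* PadicAlgCl p := fun a => (σ ^ 2 ^ a : Gl p)
  have I : ∀ a, Iso l c (τ a) := fun a => ⟨norm_gal _, pw _ _ (fx _ (mem_insert_self _ _)),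
    pw _ _ (fx _ (mem_insert_of_mem (mem_insert_self _ _)))⟩
  have sq : ∀ a, τ (a + 1) = τ a * τ a := fun a => RingHom.ext fun x => by
    simp only [τ, pow_succ, pow_mul, pow_zero, one_mul]; rfl
  have bd : ∀ a N, SA l c s (τ a) N → N ≤ Q * (q + 2) * 2 ^ a := fun a N h => by
    refine (C.cnt (I a) (r := q * 2 ^ a) (fun X a1 a2 a3 => (few _ (by positivity) X a1 a2 a3).trans
      ?_) h).trans ?_
    · rw [pow_mul]; exact Nat.pow_le_pow_left Nat.lt_two_pow_self.le _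
    · rw [mul_assoc, add_mul]
      exact Nat.mul_le_mul_left _ (Nat.add_le_add_left (Nat.le_mul_of_pos_right _ (by positivity)) _)
  have ex : ∀ a, ∃ N, ¬ SA l c s (τ a) (N + 1) := fun a =>
    ⟨_, fun h => absurd (bd a _ h) (Nat.not_succ_le_self _)⟩
  have sa : ∀ a, SA l c s (τ a) (Nat.find (ex a)) := fun a => by
    rcases e : Nat.find (ex a) with _ | n
    · exact fun m hm => absurd hm (Nat.not_lt_zero m)
    · exact not_not.1 (Nat.find_min (ex a) (show n < Nat.find (ex a) by omega))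
  have le : ∀ a N, SA l c s (τ a) N → N ≤ Nat.find (ex a) := fun a N h =>
    not_lt.1 fun e => Nat.find_spec (ex a) (h.mono e)
  intro η η0
  have M1 := C.M1
  obtain ⟨U0, hU⟩ := window (N := fun a => Nat.find (ex a)) (fun a => le _ _ (by
    rw [sq]; exact C.sa_sq (I a) (le a 1 (C.sa_one (I a))) (sa a))) (fun a => bd a _ (sa a))
    (show 0 < η / (20 * (Q * 2 ^ (Q + 1))) by positivity) (Q + 4)
  refine ⟨U0, fun U u => ?_⟩
  obtain ⟨a, a1, a2, a3⟩ := hU U u
  have s1 := sa a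
  have s2 := Nat.find_spec (ex a)
  obtain ⟨N, eN⟩ : ∃ N, Nat.find (ex a) = N + 2 := ⟨Nat.find (ex a) - 2, by omega⟩
  rw [eN] at a1 a2 a3 s1 s2
  obtain ⟨b, B, Bad, Fx, W⟩ := C.wq H hE (I a) (n0 := n0) (fun z hz => pw _ _ (fx _
    (mem_insert_of_mem (mem_insert_of_mem (mem_union_right _ (mem_image_of_mem _
      ((Sys.pre_fin n0 S.b).mem_toFinset.2 hz))))))) (gal (σ ^ 2 ^ a) fun e he => pw _ _ (fx _
    (mem_insert_of_mem (mem_insert_of_mem (mem_union_left _ he))))) s1 s2 (by omega)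
  refine ⟨_, _, _, _, _, _, W, ?_, a3.trans (mul_le_mul_of_nonneg_right
    (div_le_self η0.le (by linarith)) (Nat.cast_nonneg U))⟩
  rw [le_div_iff₀ (by positivity), pow_add, pow_two, kap_sq] at a2
  linarith

end Pool.Agent.Lib.MP_a2c890_nt.Q2
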