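import Pool.Agent.Lib.MP_a2c890_nt.Q2.Pull

set_option autoImplicit false
set_option linter.unusedSectionVars false

namespace Pool.Agent.Lib.MP_a2c890_nt.Q2

open T

variable {F : Type*} [NormedField F] [IsUltrametricDist F]

/-- centres of the cycle of discs -/
def cen (l : F) (j : ℕ) : F := (fun z => l * z + 1)^[j] 0

/-- in a closed disc of the cycle -/
def Inn (l c x : F) : Prop := ∃ j, ‖x - cen l j‖ ≤ ‖c‖

/-- in an enlarged open disc -/
def Out (l : F) (s : ℝ) (x : F) : Prop := ∃ j, ‖x - cen l j‖ < s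

/-- not in a collar -/
def Off (l c : F) (s : ℝ) (x : F) : Prop := Out l s x → Inn l c x

/-- the local data -/
structure Cy (l c : F) (s : ℝ) (Q : ℕ) : Prop where
  hl : ‖l‖ = 1
  c0 : c ≠ 0
  two : ‖(2 : F)‖ = 1
  lt : ‖c‖ < s
  le1 : s ≤ 1
  sep : ∀ j, ‖cen l j‖ ≤ ‖c‖ ∨ s ≤ ‖cen l j‖
  Q0 : 0 < Q
  per : ‖cen l Q‖ ≤ ‖c‖

/-- the critical orbits miss the collars -/
def CvOff (l c : F) (s : ℝ) : Prop :=
  ∀ v, (v = 1 + 2 * l * c ∨ v = 1 - 2 * l * c) → ∀ i, Off l c s ((fm l c)^[i] v)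

open Classical in
/-- radius of the box of level `m` -/
noncomputable def rr (l c : F) (s : ℝ) : ℕ → F → ℝ
  | 0, x => if Out l s x then s else 0
  | m + 1, x => pull c x (rr l c s m (fm l c x))

/-- relative size of the gap -/
noncomputable def gp (θ : ℝ) : ℕ → ℝ
  | 0 => θ
  | m + 1 => √(gp θ m)

theorem gp_bd {θ : ℝ} (h0 : 0 < θ) (h1 : θ < 1) (m : ℕ) :
    0 < gp θ m ∧ gp θ m < 1 ∧ Real.log (gp θ m) = Real.log θ / 2 ^ m := by
  induction m with
  | zero => simp [gp, h0, h1]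
  | succ m ih =>
    refine ⟨Real.sqrt_pos.mpr ih.1, ?_, ?_⟩
    · rw [gp, Real.sqrt_lt' one_pos, one_pow]; exact ih.2.1
    · rw [gp, Real.log_sqrt ih.1.le, ih.2.2, pow_succ, div_div]

theorem gp_le {θ : ℝ} (h0 : 0 < θ) (h1 : θ < 1) (m : ℕ) : gp θ m ≤ gp θ (m + 1) := by
  obtain ⟨a, b, -⟩ := gp_bd h0 h1 m
  rw [gp]; exact Real.le_sqrt_of_sq_le (by nlinarith)

variable {l c x z : F} {s t : ℝ} {Q : ℕ}

theorem cen_zero (l : F) : cen l 0 = 0 := rfl
theorem cen_succ (l : F) (j : ℕ) : cen l (j + 1) = l * cen l j + 1 :=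
  Function.iterate_succ_apply' _ _ _
theorem cen_one (l : F) : cen l 1 = 1 := by rw [cen_succ, cen_zero, mul_zero, zero_add]

theorem cen_le (hl : ‖l‖ = 1) (j : ℕ) : ‖cen l j‖ ≤ 1 := by
  induction j with
  | zero => simp [cen_zero]
  | succ j ih => rw [cen_succ]; exact uadd_le (by rwa [norm_mul, hl, one_mul]) (by simp)

theorem cen_sub (hl : ‖l‖ = 1) (i j k : ℕ) :
    ‖cen l (i + k) - cen l (j + k)‖ = ‖cen l i - cen l j‖ := by
  induction k with
  | zero => rfl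
  | succ k ih =>
    rw [← add_assoc, ← add_assoc, cen_succ, cen_succ, add_sub_add_right_eq_sub, ← mul_sub, norm_mul,
      hl, one_mul, ih]

theorem norm_sib_lt (hc : c ≠ 0) (h : ‖c‖ < ‖x‖) : ‖sib c x‖ < ‖c‖ := by
  have c0 := norm_pos_iff.mpr hc
  have := norm_mul_sib (c := c) (norm_pos_iff.mp (c0.trans h))
  by_contra k
  nlinarith [not_lt.mp k]

theorem lt_norm_sib (hx : x ≠ 0) (h : ‖x‖ < ‖c‖) : ‖c‖ < ‖sib c x‖ := by
  have x0 := norm_pos_iff.mpr hx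
  have := norm_mul_sib (c := c) hx
  by_contra k
  nlinarith [not_lt.mp k, norm_nonneg (sib c x)]

theorem c_le_max (hx : x ≠ 0) : ‖c‖ ≤ max ‖x‖ ‖sib c x‖ := by
  rcases lt_or_ge ‖x‖ ‖c‖ with h | h
  · exact le_max_of_le_right (lt_norm_sib hx h).le
  · exact le_max_of_le_left h

theorem fm_big (hl : ‖l‖ = 1) (hc : c ≠ 0) (h : ‖c‖ < ‖x‖) : ‖fm l c x - (l * x + 1)‖ < ‖c‖ := by
  rw [show fm l c x - (l * x + 1) = l * sib c x by unfold fm; ring, norm_mul, hl, one_mul]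
  exact norm_sib_lt hc h

theorem aff_sub (hl : ‖l‖ = 1) (x : F) (j : ℕ) : ‖l * x + 1 - cen l (j + 1)‖ = ‖x - cen l j‖ := by
  rw [cen_succ, add_sub_add_right_eq_sub, ← mul_sub, norm_mul, hl, one_mul]

theorem fm_one_eq (hl : ‖l‖ = 1) (h : ‖x‖ ≠ ‖sib c x‖) : ‖fm l c x - 1‖ = max ‖x‖ ‖sib c x‖ := by
  rw [fm_sub_one hl, IsUltrametricDist.norm_add_eq_max_of_norm_ne_norm h]

theorem fm_one_le (hl : ‖l‖ = 1) (hc : c ≠ 0) (h : ‖x‖ = ‖c‖) : ‖fm l c x - 1‖ ≤ ‖c‖ := by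
  rw [fm_sub_one hl]; exact uadd_le h.le (norm_sib_c hc h).le

theorem norm_of_fm_one (hl : ‖l‖ = 1) (hc : c ≠ 0) (hx : x ≠ 0) (h : ‖fm l c x - 1‖ ≤ ‖c‖) :
    ‖x‖ = ‖c‖ := by
  rcases lt_trichotomy ‖x‖ ‖c‖ with k | k | k
  · have := lt_norm_sib hx k
    rw [fm_one_eq hl (k.trans this).ne] at h
    exact absurd ((le_max_right _ _).trans h) (not_le.mpr this)
  · exact k
  · rw [fm_one_eq hl ((norm_sib_lt hc k).trans k).ne'] at h
    exact absurd ((le_max_left _ _).trans h) (not_le.mpr k)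

theorem pull_le_max (hc : c ≠ 0) (ht : 0 ≤ t) : pull c x t ≤ max t ‖c‖ := by
  rcases le_or_gt ‖x‖ ‖c‖ with h | h
  · exact le_max_of_le_right ((pull_le ht).trans h)
  rcases (pull_nonneg c x ht).eq_or_lt with e | e
  · rw [← e]; positivity
  obtain ⟨h0, hx, ha⟩ := (pull_pos_iff ht).mp e
  have n := (norm_sib_lt hc h).trans h
  have d : del c x = ‖x‖ := by rw [del_eq n.ne', max_eq_left n.le]
  have u : t * ‖x‖ ≤ del c x ^ 2 := by by_contra u; exact n.ne' (ram_norm ha u)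
  rw [pull_unram ha u, d, mul_div_cancel_right₀ _ (norm_ne_zero_iff.mpr hx)]
  exact le_max_left _ _

namespace Cy

variable (C : Cy l c s Q)
include C

theorem cpos : 0 < ‖c‖ := norm_pos_iff.mpr C.c0
theorem spos : 0 < s := C.cpos.trans C.lt
theorem c1 : ‖c‖ < 1 := C.lt.trans_le C.le1
theorem th0 : 0 < ‖c‖ / s := div_pos C.cpos C.spos
theorem th1 : ‖c‖ / s < 1 := (div_lt_one C.spos).mpr C.lt

theorem sep2 (i j : ℕ) : ‖cen l i - cen l j‖ ≤ ‖c‖ ∨ s ≤ ‖cen l i - cen l j‖ := by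
  wlog h : j ≤ i generalizing i j
  · rw [norm_sub_rev]; exact this j i (not_le.mp h).le
  obtain ⟨k, rfl⟩ := Nat.exists_eq_add_of_le' h
  have := cen_sub C.hl k 0 j
  rw [zero_add, cen_zero, sub_zero] at this
  rw [this]; exact C.sep k

theorem shift (j : ℕ) : ‖cen l (Q + j) - cen l j‖ ≤ ‖c‖ := by
  have := cen_sub C.hl Q 0 j
  rw [zero_add, cen_zero, sub_zero] at this
  rw [this]; exact C.per

theorem cen_mod (j : ℕ) : ‖cen l j - cen l (j % Q)‖ ≤ ‖c‖ := by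
  induction j using Nat.strong_induction_on with
  | _ j ih =>
    rcases lt_or_ge j Q with h | h
    · rw [Nat.mod_eq_of_lt h, sub_self, norm_zero]; exact norm_nonneg _
    · obtain ⟨k, rfl⟩ := Nat.exists_eq_add_of_le h
      rw [Nat.add_mod_left]
      exact utri_le (C.shift k) (ih k (by have := C.Q0; omega))

theorem back (h : ‖c‖ < ‖x‖) {j : ℕ} (k : ‖fm l c x - cen l (j + 1)‖ ≤ ‖c‖) :
    ‖x - cen l j‖ ≤ ‖c‖ := by
  rw [← aff_sub C.hl]
  exact utri_le (by rw [norm_sub_rev]; exact (fm_big C.hl C.c0 h).le) k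

theorem forth (h : ‖c‖ < ‖x‖) {j : ℕ} (k : ‖x - cen l j‖ ≤ ‖c‖) :
    ‖fm l c x - cen l (j + 1)‖ ≤ ‖c‖ :=
  utri_le (fm_big C.hl C.c0 h).le (by rwa [aff_sub C.hl])

theorem inn_of_fm (h : Inn l c (fm l c x)) : Inn l c x := by
  rcases le_or_gt ‖x‖ ‖c‖ with k | k
  · exact ⟨0, by rwa [cen_zero, sub_zero]⟩
  obtain ⟨j, hj⟩ := h
  obtain ⟨i, hi⟩ : ∃ i, Q + j = i + 1 := ⟨Q + j - 1, by have := C.Q0; omega⟩
  exact ⟨i, C.back k (hi ▸ utri_le hj (by rw [norm_sub_rev]; exact C.shift j))⟩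

theorem inn_out (h : Inn l c x) : Out l s x := h.imp fun _ h => h.trans_lt C.lt

theorem inn_le (h : Inn l c x) : ‖x‖ ≤ 1 := by
  obtain ⟨j, hj⟩ := h
  rw [← sub_add_cancel x (cen l j)]; exact uadd_le (hj.trans C.c1.le) (cen_le C.hl j)

/-- a point of a collar goes to a collar, at the same distance -/
theorem collar (h : ¬ Inn l c x) (j : ℕ) :
    ‖fm l c x - cen l (j + 1)‖ = ‖x - cen l j‖ ∧ ¬ Inn l c (fm l c x) := by
  have h0 : ‖c‖ < ‖x‖ := not_le.mp fun k => h ⟨0, by rwa [cen_zero, sub_zero]⟩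
  have hj : ‖c‖ < ‖x - cen l j‖ := not_le.mp fun k => h ⟨j, k⟩
  refine ⟨?_, fun k => h (C.inn_of_fm k)⟩
  rw [← aff_sub C.hl x j] at hj ⊢
  exact utri_eq ((fm_big C.hl C.c0 h0).trans hj)

theorem off_of_fm (h : Off l c s (fm l c x)) : Off l c s x := fun ⟨j, hj⟩ => by
  by_contra k
  obtain ⟨a, b⟩ := C.collar k j
  exact b (h ⟨j + 1, a ▸ hj⟩)

theorem off_of_iter {i : ℕ} (h : Off l c s ((fm l c)^[i] x)) : Off l c s x := by
  induction i generalizing x with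
  | zero => exact h
  | succ i ih => exact C.off_of_fm (ih h)

theorem inn_of_iter {i : ℕ} (h : Inn l c ((fm l c)^[i] x)) : Inn l c x := by
  induction i generalizing x with
  | zero => exact h
  | succ i ih => exact C.inn_of_fm (ih h)

theorem rr_nonneg (m : ℕ) (x : F) : 0 ≤ rr l c s m x := by
  induction m generalizing x with
  | zero => unfold rr; split_ifs; exacts [C.spos.le, le_rfl]
  | succ m ih => exact pull_nonneg c x (ih _)

theorem rr_zero (h : 0 < rr l c s 0 x) : Out l s x ∧ rr l c s 0 x = s := by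
  unfold rr at *; split_ifs at * with k; exacts [⟨k, rfl⟩, absurd h (lt_irrefl _)]

theorem rr_out (h : Out l s x) : rr l c s 0 x = s := if_pos h

theorem rr_le (m : ℕ) (x : F) : rr l c s m x ≤ s := by
  induction m generalizing x with
  | zero => unfold rr; split_ifs; exacts [le_rfl, C.spos.le]
  | succ m ih => exact (pull_le_max C.c0 (C.rr_nonneg _ _)).trans (max_le (ih _) C.lt.le)

theorem rr_pos {m : ℕ} (h : 0 < rr l c s (m + 1) x) : 0 < rr l c s m (fm l c x) ∧ x ≠ 0 ∧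
    rr l c s m (fm l c x) ≤ max ‖x‖ ‖sib c x‖ := (pull_pos_iff (C.rr_nonneg _ _)).mp h

theorem rr_map {m : ℕ} (h : ‖z - x‖ < rr l c s (m + 1) x) :
    ‖fm l c z - fm l c x‖ < rr l c s m (fm l c x) := pull_map C.hl (C.rr_nonneg _ _) h

theorem rr_norm {m : ℕ} (h : ‖z - x‖ < rr l c s (m + 1) x) : ‖z‖ = ‖x‖ ∧ z ≠ 0 :=
  pull_norm (C.rr_nonneg _ _) h

theorem rr_congr {m : ℕ} (h : ‖z - x‖ < rr l c s m x) : rr l c s m z = rr l c s m x := by
  induction m generalizing z x with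
  | zero =>
    obtain ⟨⟨j, hj⟩, e⟩ := C.rr_zero ((norm_nonneg _).trans_lt h)
    rw [e] at h ⊢
    exact C.rr_out ⟨j, utri_lt h hj⟩
  | succ m ih => rw [rr, rr, ih (C.rr_map h)]; exact (pull_congr C.c0 (C.rr_nonneg _ _) h).1

theorem rr_symm {m : ℕ} (h : ‖z - x‖ < rr l c s m x) : ‖x - z‖ < rr l c s m z := by
  rwa [C.rr_congr h, norm_sub_rev]

theorem rr_trans {m : ℕ} {w : F} (h : ‖z - x‖ < rr l c s m x) (h' : ‖w - z‖ < rr l c s m z) :
    ‖w - x‖ < rr l c s m x := utri_lt (C.rr_congr h ▸ h') h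

theorem rr_iter {m : ℕ} (i : ℕ) (h : ‖z - x‖ < rr l c s (m + i) x) :
    ‖(fm l c)^[i] z - (fm l c)^[i] x‖ < rr l c s m ((fm l c)^[i] x) := by
  induction i generalizing z x with
  | zero => exact h
  | succ i ih => exact ih (C.rr_map h)

theorem rr_sib {m : ℕ} (h : ‖z - x‖ < rr l c s (m + 1) x) :
    ‖sib c z - sib c x‖ < rr l c s (m + 1) (sib c x) := by
  rw [rr, fm_sib C.c0 (C.rr_pos ((norm_nonneg _).trans_lt h)).2.1]
  exact pull_sib C.c0 (C.rr_nonneg _ _) h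

theorem rr_sib_pos {m : ℕ} (h : 0 < rr l c s (m + 1) x) : 0 < rr l c s (m + 1) (sib c x) :=
  (norm_nonneg _).trans_lt (C.rr_sib (z := x) (by rwa [sub_self, norm_zero]))

theorem rr_surj {m : ℕ} (hp : 0 < rr l c s (m + 1) x) (hz : z ≠ 0)
    (h : ‖fm l c z - fm l c x‖ < rr l c s m (fm l c x)) :
    ‖z - x‖ < rr l c s (m + 1) x ∨ ‖sib c z - x‖ < rr l c s (m + 1) x :=
  pull_surj C.hl C.c0 hp (C.rr_nonneg _ _) hz h

theorem rr_nest {m k : ℕ} (h : 0 < rr l c s m x) (h' : 0 < rr l c s (m + k) x) :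
    rr l c s (m + k) x ≤ rr l c s m x := by
  induction m generalizing x with
  | zero => rw [(C.rr_zero h).2]; exact C.rr_le _ _
  | succ m ih =>
    rw [add_right_comm] at h' ⊢
    exact pull_mono (C.rr_nonneg _ _) (ih (C.rr_pos h).1 (C.rr_pos h').1) h

theorem rr_nest' {m m' : ℕ} (hm : m ≤ m') (h : 0 < rr l c s m x) (h' : ‖z - x‖ < rr l c s m' x) :
    ‖z - x‖ < rr l c s m x := by
  obtain ⟨k, rfl⟩ := Nat.exists_eq_add_of_le hm
  exact h'.trans_le (C.rr_nest h ((norm_nonneg _).trans_lt h'))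

theorem rr_small {m : ℕ} (hx : x ≠ 0) (h : 0 < rr l c s m (fm l c x))
    (h' : rr l c s m (fm l c x) ≤ ‖c‖) : 0 < rr l c s (m + 1) x ∧ rr l c s (m + 1) x ≤ ‖c‖ :=
  ⟨(pull_pos_iff h.le).mpr ⟨h, hx, h'.trans (c_le_max hx)⟩,
    (pull_le_max C.c0 h.le).trans (max_le h' le_rfl)⟩

theorem far_one {y : F} (h : Inn l c y) (k : ‖c‖ < ‖y - 1‖) : s ≤ ‖y - 1‖ := by
  obtain ⟨j, hj⟩ := h
  rw [← cen_one l] at k ⊢
  rcases C.sep2 j 1 with e | e
  · exact absurd (utri_le hj e) (not_le.mpr k)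
  · rwa [utri_eq ((hj.trans_lt C.lt).trans_le e)]

theorem rr_visit (hx : x ≠ 0) (h : ‖x‖ < ‖c‖) (hi : Inn l c (fm l c x)) :
    0 < rr l c s 1 x ∧ rr l c s 1 x ≤ ‖c‖ := by
  have n := lt_norm_sib hx h
  have e := fm_one_eq C.hl (h.trans n).ne
  refine ⟨(pull_pos_iff (C.rr_nonneg _ _)).mpr ?_, (pull_le (C.rr_nonneg _ _)).trans h.le⟩
  rw [C.rr_out (C.inn_out hi), ← e]
  exact ⟨C.spos, hx, C.far_one hi (e ▸ lt_max_of_lt_right n)⟩

theorem norm_bd {R : ℝ} (hR : 1 ≤ R) (hx : x ≠ 0) (h : ‖fm l c x‖ ≤ R) :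
    max ‖x‖ ‖sib c x‖ ≤ R ∧ ‖c‖ ^ 2 ≤ ‖x‖ * R := by
  have : max ‖x‖ ‖sib c x‖ ≤ R := by
    by_cases e : ‖x‖ = ‖sib c x‖
    · rw [← e, max_self, norm_eq_c hx e]; exact C.c1.le.trans hR
    · rw [← fm_one_eq C.hl e]; exact usub_le h (by simpa using hR)
  refine ⟨this, ?_⟩
  rw [← norm_mul_sib hx]
  exact mul_le_mul_of_nonneg_left ((le_max_right _ _).trans this) (norm_nonneg _)

theorem rr_low {m : ℕ} (h : 0 < rr l c s m x) : ‖c‖ ^ (2 * m + 1) ≤ rr l c s m x ∧ ‖x‖ ≤ 1 := by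
  induction m generalizing x with
  | zero =>
    obtain ⟨⟨j, hj⟩, e⟩ := C.rr_zero h
    refine ⟨by rw [e]; simpa using C.lt.le, ?_⟩
    rw [← sub_add_cancel x (cen l j)]; exact uadd_le (hj.le.trans C.le1) (cen_le C.hl j)
  | succ m ih =>
    obtain ⟨h0, hx, ha⟩ := C.rr_pos h
    obtain ⟨a, b⟩ := ih h0
    obtain ⟨m1, m2⟩ := C.norm_bd le_rfl hx b
    have x1 := (le_max_left _ _).trans m1
    refine ⟨?_, x1⟩
    set t := rr l c s m (fm l c x)
    have p : 0 < t * ‖x‖ := mul_pos h0 (norm_pos_iff.mpr hx)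
    have k : ‖c‖ ^ (2 * (m + 1) + 1) ≤ t * ‖x‖ := by
      rw [show 2 * (m + 1) + 1 = 2 * m + 1 + 2 by ring, pow_add]
      exact mul_le_mul a (by rwa [mul_one] at m2) (by positivity) h0.le
    refine k.trans ?_
    rw [rr]
    by_cases u : t * ‖x‖ ≤ del c x ^ 2
    · rw [pull_unram ha u, le_div_iff₀ (unram_del h0 hx ha u).1]
      exact mul_le_of_le_one_right p.le ((del_le c x).trans m1)
    · rw [pull_ram ha u]
      exact Real.le_sqrt_of_sq_le (by nlinarith [mul_le_one₀ (ha.trans m1) (norm_nonneg x) x1])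

theorem gap (cv : CvOff l c s) {m : ℕ} (hx : Off l c s ((fm l c)^[m] x)) (hz : Off l c s ((fm l c)^[m] z))
    (h : ‖z - x‖ < rr l c s m x) : ‖z - x‖ ≤ gp (‖c‖ / s) m * rr l c s m x := by
  induction m generalizing z x with
  | zero =>
    obtain ⟨o, e⟩ := C.rr_zero ((norm_nonneg _).trans_lt h)
    obtain ⟨i, hi⟩ := hx o
    rw [e] at h ⊢
    have h1 : ‖z - cen l i‖ < s := utri_lt h (hi.trans_lt C.lt)
    obtain ⟨j, hj⟩ := hz ⟨i, h1⟩
    rw [gp, div_mul_cancel₀ _ C.spos.ne']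
    rcases C.sep2 j i with k | k
    · exact utri_le (utri_le hj k) (by rwa [norm_sub_rev])
    · exact absurd (utri_lt (by rw [norm_sub_rev]; exact hj.trans_lt C.lt) h1) (not_lt.mpr k)
  | succ m ih =>
    obtain ⟨h0, x0, ha⟩ := C.rr_pos ((norm_nonneg _).trans_lt h)
    obtain ⟨e, z0⟩ := C.rr_norm h
    have k := ih hx hz (C.rr_map h)
    obtain ⟨g0, g1, -⟩ := gp_bd C.th0 C.th1 m
    have xp := norm_pos_iff.mpr x0
    rw [rr] at h ⊢
    set t := rr l c s m (fm l c x)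
    by_cases u : t * ‖x‖ ≤ del c x ^ 2
    · have d0 := (unram_del h0 x0 ha u).1
      refine le_trans ?_ (mul_le_mul_of_nonneg_right (gp_le C.th0 C.th1 m) (pull_nonneg c x h0.le))
      rw [pull_unram ha u, ← mul_div_assoc, le_div_iff₀ d0,
        ← unram_dist C.hl z0 x0 (h.trans_le (unram_le h0 x0 ha u)), e, ← mul_assoc]
      exact mul_le_mul_of_nonneg_right k xp.le
    · rw [pull_ram ha u, gp, ← Real.sqrt_mul g0.le, ← mul_assoc]
      refine Real.le_sqrt_of_sq_le ?_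
      rcases le_or_gt ‖z - x‖ (del c x) with o | o
      · obtain ⟨n, v, hv, v1, v2⟩ := ram_cv C.hl C.two x0 ha u
        refine (pow_le_pow_left₀ (norm_nonneg _) o 2).trans ?_
        rw [v2, n]
        exact mul_le_mul_of_nonneg_right (ih hx (cv v hv m) v1) (norm_nonneg _)
      · have k2 := key (c := c) C.hl z0 x0
        have : ‖z - sib c x‖ = ‖z - x‖ := by
          rw [norm_sub_rev, norm_sub_rev z x]
          exact utri_eq (by rw [norm_sub_rev, norm_sub_rev x z]; exact o)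
        rw [this, ← sq, e] at k2
        rw [← k2]
        exact mul_le_mul_of_nonneg_right k xp.le

end Cy

end Pool.Agent.Lib.MP_a2c890_nt.Q2
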