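import Pool.Agent.Lib.MP_a2c890_nt.R.Liou
import Pool.Agent.Lib.MP_a2c890_nt.R.Chord

set_option autoImplicit false
set_option linter.unusedSectionVars false

namespace Pool.Agent.Lib.MP_a2c890_nt.Q2

open T R Finset MvPolynomial

variable {p : ℕ} [Fact p.Prime]

theorem brg_en {α : Type} (X : Finset α) (v : α → Vc p) {A : Vc p → Vc p} {Δ : PadicAlgCl p}
    (Δ0 : Δ ≠ 0) (hd : ∀ v w, dt (A v) (A w) = Δ * dt v w)
    (h : ∀ a ∈ X, ∀ b ∈ X, a ≠ b → dt (v a) (v b) ≠ 0) :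
    en X (fun a => A (v a)) = en X v + X.card * ((X.card - 1) * Real.log ‖Δ‖) := by
  classical
  rw [en, en, ← nsmul_eq_mul, ← sum_const, ← sum_add_distrib]
  refine sum_congr rfl fun a ha => ?_
  have c2 : (X.card : ℝ) - 1 = ((X.erase a).card : ℝ) := by
    rw [card_erase_of_mem ha, Nat.cast_sub (card_pos.mpr ⟨a, ha⟩), Nat.cast_one]
  rw [c2, ← nsmul_eq_mul, ← sum_const, ← sum_add_distrib]
  refine sum_congr rfl fun b hb => ?_
  obtain ⟨c1, c3⟩ := mem_erase.mp hb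
  rw [hd, norm_mul, Real.log_mul (norm_ne_zero_iff.mpr Δ0)
    (norm_ne_zero_iff.mpr (h a ha b c3 c1.symm)), add_comm]

theorem brg_conj {d : ℕ} {S : Sys d} {Φ Ψ A Ai : Vc p → Vc p} {pos : S.Ω → Vc p}
    {Δ : PadicAlgCl p} {α ρ0 : ℝ} (Fm : Frm d Ψ ρ0) (Δ0 : Δ ≠ 0) (hA : ∀ v, Φ (A v) = A (Ψ v))
    (h1 : ∀ v, A (Ai v) = v) (h2 : ∀ v, Ai (A v) = v) (A0 : A 0 = 0)
    (hd : ∀ v w, dt (A v) (A w) = Δ * dt v w) (α0 : 0 ≤ α) (hα : ∀ v, ‖A v‖ ≤ α * ‖v‖)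
    (inj : ∀ x y, dt (pos x) (pos y) = 0 → x = y) (h : GLoc S Φ fun x => A (pos x)) :
    GLoc S Ψ pos := by
  obtain ⟨b0, b00, h⟩ := h
  have it : ∀ m v, Φ^[m] (A v) = A (Ψ^[m] v) := fun m v => by
    induction m with
    | zero => rfl
    | succ m ih => rw [Function.iterate_succ_apply', Function.iterate_succ_apply', ih, hA]
  have b1 : Ai b0 ≠ 0 := fun e => b00 (by rw [← h1 b0, e, A0])
  refine ⟨Ai b0, b1, fun B => ?_⟩
  obtain ⟨C, C0, h⟩ := h (α * B)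
  refine ⟨C, C0, fun ν M M0 hM => ?_⟩
  obtain ⟨e, g1, g2⟩ := h ν M M0 hM
  refine ⟨e - M * ((M - 1) * Real.log ‖Δ‖), fun m l x hx hm hl => ?_, fun β X v hX hv hne => ?_⟩
  · obtain ⟨lift, l1, l2⟩ := g1 m l x hx hm hl
    have l3 : ∀ z ∈ S.orb x, dt (Ai (lift z)) (pos z) = 0 ∧ Ψ^[m] (Ai (lift z)) = Ai b0 :=
      fun z hz => ⟨(mul_eq_zero.mp ((hd _ _).symm.trans (by rw [h1]; exact (l1 z hz).1))).resolve_left
        Δ0, by rw [← (l1 z hz).2, ← h2 (Ψ^[m] _), ← it, h1]⟩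
    have l0 : ∀ z ∈ S.orb x, Ai (lift z) ≠ 0 := fun z hz h => b1 (by
      rw [← (l3 z hz).2, h, Fm.iter_zero])
    refine ⟨fun z => Ai (lift z), l3, ?_⟩
    rw [sum_congr rfl (g := fun y => en (S.fib x l y) (fun z => Ai (lift z)) +
      M * ((M - 1) * Real.log ‖Δ‖)) fun y hy => by
        have := brg_en (S.fib x l y) (fun z => Ai (lift z)) Δ0 hd fun a ha b hb hab h => hab (by
          have a1 := (Sys.mem_fib.mp ha).1
          have b1 := (Sys.mem_fib.mp hb).1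
          refine inj _ _ (dt_trans (l0 b b1) (dt_trans (l0 a a1) ?_ ?_) ?_)
          · rw [dt_swap, (l3 a a1).1, neg_zero]
          · rw [dt_swap, h, neg_zero]
          · rw [dt_swap, (l3 b b1).1, neg_zero])
        simpa only [h1, Sys.card_fib hy, hl] using this, sum_add_distrib, sum_const,
      nsmul_eq_mul] at l2
    linarith
  · have := g2 β X (fun a => A (v a)) hX (fun a ha j hj => by
      rw [it]; exact (hα _).trans (mul_le_mul_of_nonneg_left (hv a ha j hj) α0))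
      fun a ha b hb hab => by rw [hd]; exact mul_ne_zero Δ0 (hne a ha b hb hab)
    rw [brg_en X v Δ0 hd hne, hX] at this
    linarith

theorem brg_mv (a b c e : PadicAlgCl p) : ∃ α : ℝ, 1 ≤ α ∧ ∀ v : Vc p, ‖mv a b c e v‖ ≤ α * ‖v‖ := by
  have k : ∀ (x : PadicAlgCl p) (α : ℝ) (v : Vc p) (i : Fin 2), ‖x‖ ≤ α → ‖x * v i‖ ≤ α * ‖v‖ :=
    fun x α v i h => by
      rw [norm_mul]
      exact mul_le_mul h (norm_le_pi_norm v i) (norm_nonneg _) ((norm_nonneg _).trans h)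
  refine ⟨1 + ‖a‖ + ‖b‖ + ‖c‖ + ‖e‖, ?_, fun v => nv_le (add_le (k _ _ v 0 ?_) (k _ _ v 1 ?_))
    (add_le (k _ _ v 0 ?_) (k _ _ v 1 ?_))⟩ <;>
  linarith [norm_nonneg a, norm_nonneg b, norm_nonneg c, norm_nonneg e]

variable {K : Type} [Field K] [NumberField K] {d : ℕ} {F G : MvPolynomial (Fin 2) K}
  {β : Fin 2 → K}

theorem brg_gal (D : Glb K d F G β) [Algebra K (PadicAlgCl p)]
    (τ : AlgebraicClosure K →ₐ[K] PadicAlgCl p) : ∃ E : Finset (PadicAlgCl p), ∀ σ : Gl p,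
      (∀ e ∈ E, σ e = e) → ∀ z, ∃ z' ∈ D.sys.orb z, σ ∘ τ ∘ lf z = τ ∘ lf z' := by
  classical
  obtain ⟨s, hs⟩ := Module.Finite.fg_top (R := ℚ) (M := K)
  refine ⟨s.image (algebraMap K _), fun σ hσ z => ?_⟩
  have fx : ∀ x : K, σ (algebraMap K _ x) = algebraMap K _ x := fun x => by
    have hx : x ∈ Submodule.span ℚ (s : Set K) := hs ▸ Submodule.mem_top
    induction hx using Submodule.span_induction with
    | mem y hy => exact hσ _ (mem_image_of_mem _ hy)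
    | zero => simp
    | add y z _ _ hy hz => rw [map_add, map_add, hy, hz]
    | smul q y _ hy => rw [Rat.smul_def, map_mul, map_ratCast, map_mul, map_ratCast, hy]
  let σ' : PadicAlgCl p →ₐ[K] PadicAlgCl p := ⟨(σ : PadicAlgCl p →+* PadicAlgCl p), fx⟩
  let _ := (τ : AlgebraicClosure K →+* PadicAlgCl p).toAlgebra
  have : IsScalarTower K (AlgebraicClosure K) (PadicAlgCl p) :=
    IsScalarTower.of_algebraMap_eq fun x => (τ.commutes x).symm
  refine ⟨σ'.restrictNormal' (AlgebraicClosure K) • z, Sys.mem_orb.mpr ⟨_, rfl⟩, ?_⟩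
  rw [lf_smul]
  exact funext fun i => (σ'.restrictNormal_commutes (AlgebraicClosure K) (lf z i)).symm

theorem brg_lnk (D : Glb K d F G β)
    [Algebra K (PadicAlgCl p)] {a b c e : PadicAlgCl p} (hdet : a * e - b * c ≠ 0)
    {Ψ : Vc p → Vc p} (hΨ : ∀ v, ev F G (mv a b c e v) = mv a b c e (Ψ v))
    (lip : ∀ v w, ‖v‖ ≤ 1 → ‖w‖ ≤ 1 → ‖Ψ v‖ ≤ 1 ∧ ‖Ψ v - Ψ w‖ ≤ ‖v - w‖) :
    ∃ (ρ0 : ℝ) (pos : D.sys.Ω → Vc p), Frm d Ψ ρ0 ∧ Lnk D.sys Ψ pos := by
  classical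
  let τ : AlgebraicClosure K →ₐ[K] PadicAlgCl p := IsAlgClosed.lift
  set Δ := a * e - b * c with hΔ
  let Ai : Vc p → Vc p := mv (e / Δ) (-b / Δ) (-c / Δ) (a / Δ)
  have h1 : ∀ v, mv a b c e (Ai v) = v := fun v => by
    ext i; fin_cases i <;> simp [mv, Ai] <;> field_simp <;> simp only [hΔ] <;> ring
  have h2 : ∀ v, Ai (mv a b c e v) = v := fun v => by
    ext i; fin_cases i <;> simp [mv, Ai] <;> field_simp <;> simp only [hΔ] <;> ring
  have sm : ∀ (x : PadicAlgCl p) v, mv a b c e (x • v) = x • mv a b c e v := fun x v => by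
    ext i; fin_cases i <;> simp [mv] <;> ring
  have A0 : mv a b c e 0 = 0 := by ext i; fin_cases i <;> simp [mv]
  have ainj : Function.Injective (mv a b c e) := Function.LeftInverse.injective h2
  obtain ⟨α, α1, hα⟩ := brg_mv a b c e
  obtain ⟨α', α2, hα'⟩ := brg_mv (e / Δ) (-b / Δ) (-c / Δ) (a / Δ)
  obtain ⟨ρ, ρ0, hρ⟩ := D.low (p := p)
  have Fm : Frm d Ψ (ρ / (α * α' ^ d)) := ⟨D.d2, fun x v => ainj (by
    rw [← hΨ, sm, sm, ev_smul D.hF D.hG, hΨ]), lip, by positivity, fun v => by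
      have a1 := hα' (mv a b c e v)
      rw [show mv (e / Δ) (-b / Δ) (-c / Δ) (a / Δ) (mv a b c e v) = v from h2 v] at a1
      have a2 := (hρ (mv a b c e v)).trans (hΨ v ▸ hα _)
      rw [div_mul_eq_mul_div, div_le_iff₀ (by positivity)]
      calc ρ * ‖v‖ ^ d ≤ ρ * (α' * ‖mv a b c e v‖) ^ d := by gcongr
        _ = α' ^ d * (ρ * ‖mv a b c e v‖ ^ d) := by ring
        _ ≤ α' ^ d * (α * ‖Ψ v‖) := by gcongr
        _ = _ := by ring⟩
  have dz : ∀ v w, dt (mv a b c e v) (mv a b c e w) = 0 → dt v w = 0 := fun v w h =>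
    (mul_eq_zero.mp ((dt_mv a b c e v w).symm.trans h)).resolve_left hdet
  have dz' : ∀ v w, dt v w = 0 → dt (mv a b c e v) (mv a b c e w) = 0 := fun v w h => by
    rw [dt_mv, h, mul_zero]
  have inj : ∀ x y : D.sys.Ω, dt (Ai (τ ∘ lf x)) (Ai (τ ∘ lf y)) = 0 → x = y := fun x y h => by
    have := dz' _ _ h
    rwa [h1, h1, dt_map, map_eq_zero, dt_lf] at this
  refine ⟨_, fun x => Ai (τ ∘ lf x), Fm, fun x h => ?_, inj,
    fun x => dz _ _ ?_, ?_, brg_conj Fm hdet hΨ h1 h2 A0 (dt_mv a b c e) (by linarith) hα inj ?_⟩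
  · have := h1 (τ ∘ lf x)
    rw [h, A0] at this
    exact lf_ne x (funext fun i => (map_eq_zero τ).mp (congrFun this i).symm)
  · rw [← hΨ, h1, h1, ← ev_map, dt_map, dt_swap, dt_pr, neg_zero, map_zero]
  · obtain ⟨E, hE⟩ := brg_gal D τ
    refine ⟨E ∪ {e / Δ, -b / Δ, -c / Δ, a / Δ}, fun σ hσ z => ?_⟩
    obtain ⟨z', a1, a2⟩ := hE σ (fun x hx => hσ x (mem_union_left _ hx)) z
    refine ⟨z', a1, ?_⟩
    have : σ ∘ Ai (τ ∘ lf z) = Ai (σ ∘ τ ∘ lf z) := by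
      have b1 := hσ (e / Δ) (by simp)
      have b2 := hσ (-b / Δ) (by simp)
      have b3 := hσ (-c / Δ) (by simp)
      have b4 := hσ (a / Δ) (by simp)
      ext i
      fin_cases i
      · exact (map_add σ _ _).trans (by rw [map_mul, map_mul, b1, b2]; rfl)
      · exact (map_add σ _ _).trans (by rw [map_mul, map_mul, b3, b4]; rfl)
    rw [this, a2, dt_self]
  · simpa only [h1] using D.gloc τ

end Pool.Agent.Lib.MP_a2c890_nt.Q2
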