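import Pool.Agent.Lib.MP_a2c890_nt.Q2.Int
import Pool.Agent.Lib.MP_a2c890_nt.R.Liou
import Pool.Agent.Lib.MP_a2c890_nt.Q2.BrgA

set_option autoImplicit false
set_option linter.unusedSectionVars false

namespace Pool.Agent.Lib.MP_a2c890_nt.Q2

open T R Finset MvPolynomial

variable {K : Type} [Field K] [NumberField K] {F G : MvPolynomial (Fin 2) K} {β : Fin 2 → K}
  {p : ℕ} [Fact p.Prime]

section

variable {l c : PadicAlgCl p}

theorem brg_psi (t : PadicAlgCl p) {x : PadicAlgCl p} (hx : x ≠ 0) :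
    Psi l c (t • ![x, 1]) = (t ^ 2 * x) • ![fm l c x, 1] := by
  ext i
  fin_cases i
  · simp [Psi, fm, sib]; field_simp; ring
  · simp [Psi]; ring

theorem brg_it {m : ℕ} {y : PadicAlgCl p} : ∀ {x t : PadicAlgCl p}, Pre l c m y x → t ≠ 0 →
    ∃ u : PadicAlgCl p, u ≠ 0 ∧ (Psi l c)^[m] (t • ![x, 1]) = u • ![y, 1] ∧
      Real.log ‖u‖ = 2 ^ m * (Real.log ‖t‖ + La l c m x) := by
  induction m with
  | zero => exact fun {x t} h ht => ⟨t, ht, by rw [← h.1]; rfl, by simp [La]⟩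
  | succ m ih =>
    intro x t h ht
    obtain ⟨x0, h⟩ := pre_succ.mp h
    obtain ⟨u, u0, a1, a2⟩ := ih h (mul_ne_zero (pow_ne_zero 2 ht) x0)
    refine ⟨u, u0, by rw [Function.iterate_succ_apply, brg_psi t x0, a1], ?_⟩
    rw [a2, La, norm_mul, norm_pow, Real.log_mul (pow_ne_zero _ (norm_ne_zero_iff.mpr ht))
      (norm_ne_zero_iff.mpr x0), Real.log_pow]
    push_cast
    ring

theorem brg_la (n k : ℕ) : ∀ x : PadicAlgCl p,
    La l c (k + n) x = La l c n x + La l c k ((fm l c)^[n] x) / 2 ^ n := by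
  induction n with
  | zero => intro x; simp [La]
  | succ n ih =>
    intro x
    rw [← add_assoc, La, La, ih, Function.iterate_succ_apply]
    ring

theorem brg_bd {s : ℝ} {Q : ℕ} (C : Cy l c s Q) {R : ℝ} (hR : 1 ≤ R) : ∃ B : ℝ, 0 ≤ B ∧
    ∀ (k : ℕ) (y w : PadicAlgCl p), ‖y‖ ≤ R → Pre l c k y w → ‖w‖ ≤ R ∧ |La l c k w| ≤ B := by
  have c0 := C.cpos
  refine ⟨|Real.log (‖c‖ ^ 2 / R)| + |Real.log R|, by positivity, fun k y => ?_⟩
  induction k with
  | zero =>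
    exact fun w hy h => ⟨(congrArg norm h.1).trans_le hy, by simp only [La, abs_zero]; positivity⟩
  | succ k ih =>
    intro w hy h
    obtain ⟨w0, h⟩ := pre_succ.mp h
    obtain ⟨a1, a2⟩ := ih _ hy h
    obtain ⟨b1, b2⟩ := C.norm_bd hR w0 a1
    have b3 := (le_max_left _ _).trans b1
    refine ⟨b3, ?_⟩
    have b4 := Real.log_le_log (norm_pos_iff.mpr w0) b3
    have b5 := Real.log_le_log (by positivity) ((div_le_iff₀ (one_pos.trans_le hR)).mpr b2)
    rw [La, abs_le] at *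
    constructor <;> linarith [a2.1, a2.2, le_abs_self (Real.log R), abs_nonneg (Real.log R),
      neg_abs_le (Real.log (‖c‖ ^ 2 / R)), abs_nonneg (Real.log (‖c‖ ^ 2 / R))]

theorem brg_ea {α : Type} (X : Finset α) (ν : ℕ) (x t : α → PadicAlgCl p) (v : α → Vc p) {δ : ℝ}
    (δ0 : 0 ≤ δ) (hv : ∀ a ∈ X, v a = t a • ![x a, 1]) (ht : ∀ a ∈ X, t a ≠ 0)
    (hx : ∀ a ∈ X, ∀ b ∈ X, x a = x b → a = b)
    (h : ∀ a ∈ X, |Real.log ‖t a‖ + La l c ν (x a)| ≤ δ) :
    |en X v - ea l c ν X x| ≤ X.card * (X.card * (2 * δ)) := by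
  classical
  rw [en, ea, ← sum_sub_distrib, ← nsmul_eq_mul, ← sum_const]
  refine (abs_sum_le_sum_abs _ _).trans (sum_le_sum fun a ha => ?_)
  rw [← sum_sub_distrib]
  refine (abs_sum_le_sum_abs _ _).trans ((sum_le_card_nsmul _ _ (2 * δ) fun b hb => ?_).trans ?_)
  · obtain ⟨b1, b2⟩ := mem_erase.mp hb
    rw [hv a ha, hv b b2, dt_smul, show dt (![x a, 1] : Vc p) ![x b, 1] = x a - x b by simp [dt],
      norm_mul, norm_mul, Real.log_mul (mul_ne_zero (norm_ne_zero_iff.mpr (ht a ha))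
        (norm_ne_zero_iff.mpr (ht b b2))) (norm_ne_zero_iff.mpr
          (sub_ne_zero.mpr fun e => b1 (hx a ha b b2 e).symm)),
      Real.log_mul (norm_ne_zero_iff.mpr (ht a ha)) (norm_ne_zero_iff.mpr (ht b b2))]
    have a1 := abs_le.mp (h a ha)
    have a2 := abs_le.mp (h b b2)
    exact abs_le.mpr ⟨by linarith, by linarith⟩
  · rw [nsmul_eq_mul]
    exact mul_le_mul_of_nonneg_right (Nat.cast_le.mpr card_erase_le) (by positivity)

theorem brg_aff {s ρ0 : ℝ} {Q : ℕ} (C : Cy l c s Q) (Fm : Frm 2 (Psi l c) ρ0) {S : Sys 2}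
    {pos : S.Ω → Vc p} (L : Lnk S (Psi l c) pos) (hb : S.f S.b ≠ S.b) :
    Aff S l c fun z => pos z 0 / pos z 1 := by
  have n1 : ∀ m z, S.lev m z → pos z 1 ≠ 0 := fun m z hz h => by
    have e : S.f z = z := L.inj _ _ (dt_trans (Fm.ne (L.ne z))
      (by rw [dt_swap, L.conj, neg_zero]) (by simp [dt, Psi, h]))
    have e2 : z = S.b := (Function.iterate_fixed e m).symm.trans hz
    exact hb (e2 ▸ e)
  have n0 : ∀ m z, S.lev (m + 1) z → pos z 0 ≠ 0 := fun m z hz h => by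
    obtain ⟨u, hu⟩ := exists_smul (Fm.ne (L.ne z))
      (show dt (pos (S.f z)) (Psi l c (pos z)) = 0 by rw [dt_swap, L.conj, neg_zero])
    exact n1 m (S.f z) hz (by rw [hu]; simp [Psi, h])
  have cj : ∀ m z, S.lev (m + 1) z →
      pos (S.f z) 0 / pos (S.f z) 1 = fm l c (pos z 0 / pos z 1) := fun m z hz => by
    have a1 := n1 m (S.f z) hz
    have a2 := n1 _ z hz
    have a3 := n0 m z hz
    have a4 := L.conj z
    simp only [dt, Psi, Matrix.cons_val_zero, Matrix.cons_val_one] at a4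
    unfold fm sib
    field_simp
    linear_combination -a4
  have pre : ∀ m z, S.lev m z → Pre l c m (pos S.b 0 / pos S.b 1) (pos z 0 / pos z 1) :=
    fun m => by
      induction m with
      | zero => exact fun z (hz : z = S.b) => hz ▸ pre_zero
      | succ m ih =>
        exact fun z hz => pre_succ.mpr ⟨div_ne_zero (n0 m z hz) (n1 _ z hz),
          cj m z hz ▸ ih (S.f z) hz⟩
  have inj : ∀ m z z', S.lev m z → S.lev m z' →
      pos z 0 / pos z 1 = pos z' 0 / pos z' 1 → z = z' := fun m z z' h h' e => L.inj _ _ (by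
    rw [div_eq_div_iff (n1 m z h) (n1 m z' h')] at e
    rw [dt, e, mul_comm, sub_self])
  refine ⟨pre, cj, inj, ?_, ?_⟩
  · obtain ⟨E, hE⟩ := L.gal
    refine ⟨E, fun σ hσ m z hz => ?_⟩
    obtain ⟨z', a1, a2⟩ := hE σ hσ z
    refine ⟨z', a1, ?_⟩
    rw [map_div₀, div_eq_div_iff ((_root_.map_ne_zero σ).mpr (n1 m z hz))
      (n1 m z' (Sys.lev_orb hz a1)), mul_comm (pos z' 0)]
    exact sub_eq_zero.mp a2
  obtain ⟨b0, b00, h⟩ := L.gl
  obtain ⟨R, R1, R2⟩ : ∃ R : ℝ, 1 ≤ R ∧ ‖pos S.b 0 / pos S.b 1‖ ≤ R :=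
    ⟨_, le_max_left _ _, le_max_right _ _⟩
  obtain ⟨B, B0, hB⟩ := brg_bd C R1
  obtain ⟨C0, C1, h⟩ := h (Real.exp B * R)
  refine ⟨C0 + 2 * (|Real.log ‖b0 1‖| + B), by positivity, fun ν M M0 hM => ?_⟩
  obtain ⟨e, g1, g2⟩ := h ν M M0 hM
  have p2 : (0 : ℝ) < 2 ^ ν := by positivity
  have hM' : (M : ℝ) ≤ 2 ^ ν := by exact_mod_cast hM
  have A0 : 0 ≤ |Real.log ‖b0 1‖| + B := by positivity
  have mν : (0 : ℝ) ≤ M * ν := by positivity
  have m0 : (0 : ℝ) ≤ M := by positivity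
  refine ⟨e, fun m k x hx hm hk => ?_, fun X hX hp => ?_⟩
  · obtain ⟨lift, l1, l2⟩ := g1 m k x hx hm hk
    obtain ⟨j, rfl⟩ := Nat.exists_eq_add_of_le' hm
    have key : ∀ z ∈ S.orb x, lift z = lift z 1 • ![pos z 0 / pos z 1, 1] ∧ lift z 1 ≠ 0 ∧
        |Real.log ‖lift z 1‖ + La l c ν (pos z 0 / pos z 1)| ≤
          (|Real.log ‖b0 1‖| + B) / 2 ^ ν := fun z hz => by
      have lv := Sys.lev_orb hx hz
      have a1 : lift z = lift z 1 • ![pos z 0 / pos z 1, 1] := by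
        have e1 := (l1 z hz).1
        have e2 := n1 _ z lv
        ext i
        fin_cases i
        · simp only [dt, Fin.zero_eta, Pi.smul_apply, Matrix.cons_val_zero, smul_eq_mul] at e1 ⊢
          field_simp
          linear_combination e1
        · simp
      have a2 : lift z 1 ≠ 0 := fun e => b00 (by
        rw [← (l1 z hz).2, a1, e, zero_smul, Fm.iter_zero])
      refine ⟨a1, a2, ?_⟩
      obtain ⟨u, -, a3, a4⟩ := brg_it (pre _ z lv) a2
      rw [← a1, (l1 z hz).2] at a3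
      rw [← show b0 1 = u by rw [a3]; simp, brg_la] at a4
      have a5 := abs_le.mp (hB j _ _ R2 (pre _ z lv).split.1).2
      have a6 : |Real.log ‖b0 1‖ / 2 ^ j| ≤ |Real.log ‖b0 1‖| := by
        rw [abs_div]
        exact div_le_self (abs_nonneg _) ((one_le_pow₀ one_le_two).trans (le_abs_self _))
      have a7 : Real.log ‖lift z 1‖ + La l c ν (pos z 0 / pos z 1) = (Real.log ‖b0 1‖ / 2 ^ j -
          La l c j ((fm l c)^[ν] (pos z 0 / pos z 1))) / 2 ^ ν := by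
        rw [a4]; field_simp; ring
      rw [a7, abs_div, abs_of_pos p2]
      have a8 := abs_le.mp a6
      exact div_le_div_of_nonneg_right (abs_le.mpr ⟨by linarith, by linarith⟩) p2.le
    have := sum_le_sum (s := S.orb (S.f^[k] x)) (f := fun y => en (S.fib x k y) lift)
      (g := fun y => ea l c ν (S.fib x k y) (fun z => pos z 0 / pos z 1) +
        2 * (|Real.log ‖b0 1‖| + B) * M) fun y hy => by
      have mo : ∀ {z}, z ∈ S.fib x k y → z ∈ S.orb x := fun h => (Sys.mem_fib.mp h).1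
      have a1 := (abs_le.mp (brg_ea (S.fib x k y) ν (fun z => pos z 0 / pos z 1)
        (fun z => lift z 1) lift (div_nonneg A0 p2.le) (fun z hz => (key z (mo hz)).1)
        (fun z hz => (key z (mo hz)).2.1) (fun z hz z' hz' => inj _ z z' (Sys.lev_orb hx (mo hz))
          (Sys.lev_orb hx (mo hz'))) fun z hz => (key z (mo hz)).2.2)).2
      rw [Sys.card_fib hy, hk] at a1
      have a2 : M * (2 * ((|Real.log ‖b0 1‖| + B) / 2 ^ ν)) ≤ 2 * (|Real.log ‖b0 1‖| + B) := by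
        rw [← mul_div_assoc, ← mul_div_assoc, div_le_iff₀ p2, mul_comm]
        exact mul_le_mul_of_nonneg_left hM' (by positivity)
      have a3 := mul_le_mul_of_nonneg_left a2 m0
      linarith
    rw [sum_add_distrib, sum_const, nsmul_eq_mul] at this
    have a4 : 0 ≤ ((S.orb (S.f^[k] x)).card : ℝ) * ((|Real.log ‖b0 1‖| + B) * (M * ν)) := by
      positivity
    linarith
  · have ex : ∀ x ∈ X, ∃ t : PadicAlgCl p, t ≠ 0 ∧ Real.log ‖t‖ + La l c ν x = 0 := fun x hx => by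
      obtain ⟨w, -, hw⟩ := hp x hx
      obtain ⟨u, u0, -, a1⟩ := brg_it hw one_ne_zero
      obtain ⟨t, ht⟩ := IsAlgClosed.exists_pow_nat_eq u⁻¹ (n := 2 ^ ν) (by positivity)
      refine ⟨t, fun e => inv_ne_zero u0 (by rw [← ht, e, zero_pow (by positivity)]), ?_⟩
      have a2 := congrArg (fun z => Real.log ‖z‖) ht
      simp only [norm_pow, norm_inv, Real.log_pow, Real.log_inv, a1, norm_one, Real.log_one,
        zero_add] at a2
      push_cast at a2
      exact (mul_eq_zero.mp (by linarith : (2 : ℝ) ^ ν * _ = 0)).resolve_left p2.ne'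
    choose! t t0 t1 using ex
    have a1 := g2 _ X (fun x => t x • ![x, 1]) hX (fun x hx j hj => by
      obtain ⟨w, w1, hw⟩ := hp x hx
      obtain ⟨i, rfl⟩ := Nat.exists_eq_add_of_le' hj.le
      obtain ⟨u, u0, a2, a3⟩ := brg_it hw.split.2 (t0 x hx)
      obtain ⟨a4, a5⟩ := hB i _ _ (w1.trans R1) hw.split.1
      have a6 := t1 x hx
      rw [brg_la] at a6
      have a7 : Real.log ‖u‖ = -La l c i ((fm l c)^[j] x) := by
        rw [a3, eq_neg_of_add_eq_zero_left ((add_assoc _ _ _).trans a6)]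
        field_simp
      rw [a2, norm_smul]
      refine mul_le_mul ((Real.log_le_iff_le_exp (norm_pos_iff.mpr u0)).mp ?_)
        (nv_le a4 (by simpa using R1)) (norm_nonneg _) (Real.exp_pos _).le
      rw [a7]
      exact (neg_le_abs _).trans a5) fun x hx y hy hxy => by
        rw [dt_smul]
        exact mul_ne_zero (mul_ne_zero (t0 x hx) (t0 y hy)) (by simpa [dt, sub_eq_zero] using hxy)
    have a2 := (abs_le.mp (brg_ea (l := l) (c := c) X ν id t (fun x => t x • ![x, 1]) le_rfl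
      (fun _ _ => rfl) t0 (fun _ _ _ _ h => h) fun x hx => (abs_eq_zero.mpr (t1 x hx)).le)).1
    have a3 : 0 ≤ (|Real.log ‖b0 1‖| + B) * (M * (ν + 1)) := by positivity
    linarith

end

/-- the affine local reading of the global system -/
theorem aff_of (D : Glb K 2 F G β) [Algebra K (PadicAlgCl p)] {a b e d l c : PadicAlgCl p} {s : ℝ}
    {Q : ℕ} (C : Cy l c s Q) (hdet : a * d - b * e ≠ 0)
    (hΨ : ∀ v, ev F G (mv a b e d v) = mv a b e d (Psi l c v))
    (hw : ∀ P, 0 < P → dt ((ev F G)^[P] β) β ≠ 0) : ∃ φ, Aff D.sys l c φ := by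
  obtain ⟨ρ0, pos, Fm, L⟩ := brg_lnk D hdet hΨ fun v w hv hw => by
    have l1 := Lip.const (E := PadicAlgCl p) C.hl.le
    have a2 := (Lip.co 0).mul (Lip.co 1) v w hv hw
    have a1 := (((l1.mul ((Lip.co 0).pow 2)).add ((Lip.co 0).mul (Lip.co 1))).add
      ((l1.mul ((Lip.const C.c1.le).pow 2)).mul ((Lip.co 1).pow 2))) v w hv hw
    exact ⟨nv_le a1.1 a2.1, nv_le (a1.2.trans_eq (one_mul _)) (a2.2.trans_eq (one_mul _))⟩
  refine ⟨_, brg_aff C Fm L fun h => hw 1 one_pos ?_⟩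
  have a1 := (D.lev_iff (n := 1) (x := D.sys.b)).mp h
  obtain ⟨u, hu⟩ := exists_smul D.β1 (dt_pr (algebraMap K (AlgebraicClosure K) ∘ β))
  have u0 : u ≠ 0 := left_ne_zero_of_smul (hu ▸ lf_ne _)
  have a2 := dt_smul (u ^ 2 ^ 1) 1 ((ev F G)^[1] (algebraMap K (AlgebraicClosure K) ∘ β))
    (algebraMap K (AlgebraicClosure K) ∘ β)
  rw [one_smul, ← ev_iter_smul D.hF D.hG, ← hu, a1, mul_one] at a2
  have a3 := (mul_eq_zero.mp a2.symm).resolve_left (pow_ne_zero _ u0)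
  have a4 := ev_iter_map (F := F) (G := G) (Algebra.ofId K (AlgebraicClosure K)) 1 β
  rw [show ⇑(Algebra.ofId K (AlgebraicClosure K)) = algebraMap K _ from rfl] at a4
  rwa [← a4, dt_map, map_eq_zero] at a3

/-- from orbits of points to vectors -/
theorem top {d : ℕ} (D : Glb K d F G β) {N : ℕ} (h : ∀ n : ℕ, ∃ Y : Finset D.sys.Ω, Y.card ≤ N ∧
      ∀ x, D.sys.lev n x → ∃ s ∈ Y, x ∈ D.sys.orb s) (n : ℕ) :
    ∃ S : Finset (Fin 2 → AlgebraicClosure K), S.card ≤ N ∧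
      ∀ v : Fin 2 → AlgebraicClosure K, v ≠ 0 →
        dt ((ev F G)^[n] v) (algebraMap K (AlgebraicClosure K) ∘ β) = 0 →
        ∃ s ∈ S, ∃ σ : AlgebraicClosure K ≃ₐ[K] AlgebraicClosure K,
          ∃ c : AlgebraicClosure K, c ≠ 0 ∧ v = c • fun i => σ (s i) := by
  classical
  obtain ⟨Y, h1, h2⟩ := h n
  refine ⟨Y.image lf, card_image_le.trans h1, fun v hv h => ?_⟩
  obtain ⟨u, hu⟩ := exists_smul (lf_ne (pr v)) (show dt v (lf (pr v)) = 0 by
    rw [dt_swap, dt_pr, neg_zero])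
  have u0 : u ≠ 0 := left_ne_zero_of_smul (hu ▸ hv)
  obtain ⟨y, a1, a2⟩ := h2 (pr v) (D.lev_iff.mpr (by
    have := dt_smul (u ^ d ^ n) 1 ((ev F G)^[n] (lf (pr v)))
      (algebraMap K (AlgebraicClosure K) ∘ β)
    rw [one_smul, ← ev_iter_smul D.hF D.hG, ← hu, h, mul_one] at this
    exact (mul_eq_zero.mp this.symm).resolve_left (pow_ne_zero _ u0)))
  obtain ⟨σ, hσ⟩ := Sys.mem_orb.mp a2
  refine ⟨_, mem_image_of_mem _ a1, σ, u, u0, hu.trans ?_⟩
  rw [← hσ, lf_smul]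
  rfl

end Pool.Agent.Lib.MP_a2c890_nt.Q2
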