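import Pool.Agent.Lib.MP_a2c890_nt.Q2.Main

set_option autoImplicit false
set_option linter.unusedSectionVars false

namespace Pool.Agent.Lib.MP_a2c890_nt.Q2

open T Finset

variable {F : Type*} [NormedField F] [IsUltrametricDist F] [IsAlgClosed F]

/-- two sided control of the averages of an event -/
structure Cl (l c : F) (A a : ℝ) (n1 : ℕ) (B : F → Prop) : Prop where
  a0 : 0 ≤ a
  A1 : 1 ≤ A
  up : ∀ i y, Inn l c y → avg l c i (fun x => ind (B x)) y ≤ a + 10 * kap ^ i
  lo : ∀ i w, n1 ≤ i → a ≤ A * avg l c i (fun x => ind (B x)) w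

/-- the event holds here and at no higher position -/
def Top (f : F → F) (B : F → Prop) (I : Finset ℕ) (t : ℕ) (y : F) : Prop :=
  B y ∧ ∀ i ∈ I, t < i → ¬ B (f^[i - t] y)

/-- first hit -/
def Fh (l c : F) (B G : F → Prop) (W : ℕ) (x : F) : Prop :=
  B x ∧ ∀ j ∈ Icc 1 W, ∃ y, G y ∧ Pre l c j y x

variable {l c : F} {s A a : ℝ} {Q n1 : ℕ} {B G : F → Prop}

theorem top_iff {f : F → F} {I : Finset ℕ} {t : ℕ} {x : F} :
    Top f B I t (f^[t] x) ↔ B (f^[t] x) ∧ ∀ i ∈ I, t < i → ¬ B (f^[i] x) :=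
  and_congr_right fun _ => forall₃_congr fun i _ h => by
    rw [← Function.iterate_add_apply, Nat.sub_add_cancel h.le]

theorem top_point (f : F → F) (I : Finset ℕ) (x : F) : ∑ i ∈ I, ind (B (f^[i] x)) ≤
    ∑ t ∈ I, (ind (Top f B I t (f^[t] x)) +
      ∑ i ∈ I.filter (· < t), ind (Top f B I t (f^[t] x)) * ind (B (f^[i] x))) := by
  classical
  have n0 : ∀ t ∈ I, 0 ≤ ind (Top f B I t (f^[t] x)) +
      ∑ i ∈ I.filter (· < t), ind (Top f B I t (f^[t] x)) * ind (B (f^[i] x)) := fun t _ =>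
    add_nonneg (ind_nonneg _) (sum_nonneg fun _ _ => mul_nonneg (ind_nonneg _) (ind_nonneg _))
  rcases (I.filter fun i => B (f^[i] x)).eq_empty_or_nonempty with e | e
  · rw [sum_eq_zero fun i hi => ind_neg (filter_eq_empty_iff.1 e hi)]
    exact sum_nonneg n0
  obtain ⟨t, h1, h2⟩ := exists_max_image _ id e
  obtain ⟨h3, h4⟩ := mem_filter.1 h1
  have h5 : ∀ i ∈ I, t < i → ¬ B (f^[i] x) := fun i a b d =>
    absurd (h2 i (mem_filter.2 ⟨a, d⟩)) (not_le.2 b)
  refine le_trans ?_ (single_le_sum n0 h3)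
  rw [ind_pos (top_iff.2 ⟨h4, h5⟩), ← sum_filter_add_sum_filter_not I (· < t), add_comm]
  simp only [one_mul]
  refine add_le_add_left ?_ _
  rw [sum_eq_single t (fun i a b => ind_neg (h5 i (mem_filter.1 a).1 (lt_of_le_of_ne
    (not_lt.1 (mem_filter.1 a).2) b.symm))) fun a => absurd (mem_filter.2 ⟨h3, lt_irrefl t⟩) a]
  exact ind_le_one _

theorem top_once (f : F → F) (I : Finset ℕ) (x : F) :
    ∑ t ∈ I, ind (Top f B I t (f^[t] x)) ≤ ind (∃ i ∈ I, B (f^[i] x)) := by
  by_cases h : ∃ t ∈ I, Top f B I t (f^[t] x)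
  · obtain ⟨t, h1, h2⟩ := h
    rw [sum_eq_single t (fun i a b => ind_neg fun d => ?_) fun a => absurd h1 a]
    · exact ind_mono fun _ => ⟨t, h1, h2.1⟩
    · rcases lt_or_gt_of_ne b with e | e
      · exact (top_iff.1 d).2 t h1 e h2.1
      · exact (top_iff.1 h2).2 i a e d.1
  · rw [sum_eq_zero fun t a => ind_neg fun d => h ⟨t, a, d⟩]
    exact ind_nonneg _

namespace Cy

variable (C : Cy l c s Q)
include C

theorem avg_it {n k : ℕ} (hk : k ≤ n) (h : F → ℝ) (w : F) :
    avg l c n (fun x => h ((fm l c)^[k] x)) w = avg l c (n - k) h w := by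
  conv_lhs => rw [← Nat.sub_add_cancel hk]
  exact C.avg_comp _ _ _ _

theorem avg_pair (H : Cl l c A a n1 B) {n t i : ℕ} (hi : i ≤ t) (ht : t ≤ n) {w : F}
    (hw : Inn l c w) (P : F → Prop) :
    avg l c n (fun x => ind (P ((fm l c)^[t] x)) * ind (B ((fm l c)^[i] x))) w ≤
      (a + 10 * kap ^ (t - i)) * avg l c n (fun x => ind (P ((fm l c)^[t] x))) w := by
  rw [C.avg_it ht fun x => ind (P x), ← avg_mul]
  conv_lhs => rw [← Nat.sub_add_cancel ht, avg_avg]
  refine C.avg_mono fun y hy => ?_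
  rw [C.avg_comp_mul t (fun x => ind (P x)), C.avg_it hi fun x => ind (B x), mul_comm]
  exact mul_le_mul_of_nonneg_right (H.up _ _ (C.pre_inn hw hy)) (ind_nonneg _)

theorem top_sum (H : Cl l c A a n1 B) {I : Finset ℕ} {n : ℕ} {w : F} (hw : Inn l c w)
    (hn : ∀ i ∈ I, i + n1 ≤ n) (h1 : I.card * a ≤ 1) : I.card * a ≤
      27 * A * ∑ t ∈ I, avg l c n (fun x => ind (Top (fm l c) B I t ((fm l c)^[t] x))) w := by
  have A0 := zero_le_one.trans H.A1
  have e1 : I.card * a ≤ A * avg l c n (fun x => ∑ i ∈ I, ind (B ((fm l c)^[i] x))) w := by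
    rw [avg_sum, mul_sum, ← nsmul_eq_mul]
    refine card_nsmul_le_sum _ _ _ fun i hi => ?_
    have := hn i hi
    rw [C.avg_it (by omega) fun x => ind (B x)]
    exact H.lo _ _ (by omega)
  refine e1.trans ?_
  rw [mul_comm 27, mul_assoc]
  refine mul_le_mul_of_nonneg_left ((C.avg_mono fun x _ => top_point _ I x).trans ?_) A0
  rw [avg_sum, mul_sum]
  refine sum_le_sum fun t ht => ?_
  have := hn t ht
  rw [avg_add, avg_sum]
  have p0 : 0 ≤ avg l c n (fun x => ind (Top (fm l c) B I t ((fm l c)^[t] x))) w :=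
    C.le_avg fun _ _ => ind_nonneg _
  have e2 := sum_le_sum fun i (hi : i ∈ I.filter (· < t)) =>
    C.avg_pair H (mem_filter.1 hi).2.le (show t ≤ n by omega) hw (Top (fm l c) B I t)
  rw [← sum_mul, sum_add_distrib, sum_const, nsmul_eq_mul, ← mul_sum] at e2
  have e3 := geom_le (I.filter (· < t)) (fun i => t - i) (fun i hi j hj e => by
    have := (mem_filter.1 hi).2
    have := (mem_filter.1 hj).2
    simp only at e
    omega) (u := 1) (fun i hi => by have := (mem_filter.1 hi).2; omega) kap_pos.le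
      (kap_lt.trans (by norm_num))
  have e4 : kap ^ 1 / (1 - kap) ≤ 5 / 2 := by
    rw [div_le_iff₀ (by linarith [kap_lt])]; linarith [kap_lt]
  have e5 : ((I.filter (· < t)).card : ℝ) * a ≤ 1 :=
    (mul_le_mul_of_nonneg_right (Nat.cast_le.2 (card_filter_le _ _)) H.a0).trans h1
  have e6 := mul_le_mul_of_nonneg_right (show ((I.filter (· < t)).card : ℝ) * a +
    10 * ∑ i ∈ I.filter (· < t), kap ^ (t - i) ≤ 26 by linarith) p0
  linarith

/-- cluster bound -/
theorem cluster (H : Cl l c A a n1 B) {I : Finset ℕ} {n : ℕ} {w : F} (hw : Inn l c w)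
    (hn : ∀ i ∈ I, i + n1 ≤ n) (h1 : I.card * a ≤ 1) :
    I.card * a ≤ 27 * A * avg l c n (fun x => ind (∃ i ∈ I, B ((fm l c)^[i] x))) w := by
  refine (C.top_sum H hw hn h1).trans (mul_le_mul_of_nonneg_left ?_ (by linarith [H.A1]))
  rw [← avg_sum]
  exact C.avg_mono fun x _ => top_once _ I x

theorem sat_fh {L : ℕ} (sB : Sat l c s L B) (sG : Sat l c s L G) (W : ℕ) :
    Sat l c s (L + W) (Fh l c B G W) :=
  C.sat_all (sB.mono (Nat.le_add_right _ _)) _ fun j hj =>
    (C.sat_pull sG j).mono (Nat.add_le_add_left (mem_Icc.1 hj).2 _)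

/-- first hit bound -/
theorem first_hit (H : Cl l c (Q * 2 ^ (Q + 1)) a n1 B) {L W : ℕ} (sB : Sat l c s L B)
    (sG : Sat l c s L G) (bg : ∀ y, ¬ G y → B y ∨ Und l c s L y)
    (up : ∀ i y, L ≤ i → avg l c i (fun x => ind (B x)) y ≤ a) (hL : kap ^ L ≤ a ^ 2) (W0 : 0 < W)
    (hW : W * a ≤ 1 / (1080 * (Q * 2 ^ (Q + 1)) ^ 2)) {n : ℕ} (hn : Q + 1 + (L + W) ≤ n) (w : F) :
    1 / (1080 * (Q * 2 ^ (Q + 1)) ^ 2) * a ≤ avg l c n (fun x => ind (Fh l c B G W x)) w := by
  obtain ⟨q, q0, q1, q2, -⟩ := C.comp (Fh l c B G W) (L + W)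
  obtain ⟨M, eM⟩ : ∃ M : ℕ, (Q : ℝ) * 2 ^ (Q + 1) = M := ⟨Q * 2 ^ (Q + 1), by push_cast; rfl⟩
  rw [eM] at H hW q2 ⊢
  have M1 := H.A1
  have a0 := H.a0
  have W1 : (1 : ℝ) ≤ W := Nat.one_le_cast.2 W0
  rw [le_div_iff₀ (by positivity)] at hW
  have m0 : 0 ≤ W * a * M := by positivity
  have m1 : W * a * M ≤ 1 / 1080 := by nlinarith
  obtain ⟨T, eT⟩ : ∃ T, T = 108 * M * W := ⟨_, rfl⟩
  have eT' : (T : ℝ) = 108 * M * W := by rw [eT]; push_cast; rfl
  have z : Inn l c (cen l 0) := ⟨0, by rw [sub_self, norm_zero]; exact norm_nonneg _⟩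
  have e1 := C.top_sum H (I := range T) (n := T + n1 + L + W) z
    (fun i hi => by have := mem_range.1 hi; omega) (by rw [card_range, eT']; linarith)
  rw [card_range, ← sum_filter_add_sum_filter_not (range T) fun t => t + W < T] at e1
  have k0 : 0 ≤ kap ^ L := (pow_pos kap_pos L).le
  have e2 := sum_le_card_nsmul ((range T).filter fun t => t + W < T) (fun t => avg l c
      (T + n1 + L + W) (fun x => ind (Top (fm l c) B (range T) t ((fm l c)^[t] x))) (cen l 0))
      (q + W * (10 * kap ^ L)) fun t ht => by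
    have ht' := (mem_filter.1 ht).2
    refine (C.avg_mono (g := fun x => ind (SatAt l c s (Fh l c B G W) (L + W) ((fm l c)^[t] x)) +
      ∑ j ∈ Icc 1 W, ind (Und l c s L ((fm l c)^[t + j] x))) fun x hx => ?_).trans ?_
    · by_cases u : ∃ j ∈ Icc 1 W, Und l c s L ((fm l c)^[t + j] x)
      · exact le_add_of_nonneg_of_le (ind_nonneg _) (ind_ex_le _ _ (fun _ _ => ind_nonneg _)
          fun _ => u.imp fun j hj => ⟨hj.1, (ind_pos hj.2).ge⟩)
      refine le_add_of_le_of_nonneg (ind_mono fun h => C.sat_fh sB sG W _ ⟨h.1, fun j hj => ?_⟩)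
        (sum_nonneg fun _ _ => ind_nonneg _)
      have := mem_Icc.1 hj
      refine ⟨(fm l c)^[t + j] x, by_contra fun g => (bg _ g).elim ((top_iff.1 h).2 _
        (mem_range.2 (by omega)) (by omega)) fun d => u ⟨j, hj, d⟩, ?_, fun i hi => ?_⟩
      · rw [← Function.iterate_add_apply, add_comm]
      · rw [← Function.iterate_add_apply]; exact hx.2 _ (by omega)
    · rw [avg_add, avg_sum, C.avg_it (by omega) fun x => ind (SatAt l c s (Fh l c B G W) (L + W) x)]
      refine add_le_add (q1 _ _ _ le_rfl (by omega)) ((sum_le_card_nsmul _ _ (10 * kap ^ L)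
        fun j hj => ?_).trans_eq (by rw [Nat.card_Icc, nsmul_eq_mul, Nat.add_sub_cancel]))
      have := mem_Icc.1 hj
      rw [C.avg_it (by omega) fun x => ind (Und l c s L x)]
      exact C.und_mass z (by omega)
  have e3 := sum_le_card_nsmul ((range T).filter fun t => ¬ t + W < T) (fun t => avg l c
      (T + n1 + L + W) (fun x => ind (Top (fm l c) B (range T) t ((fm l c)^[t] x))) (cen l 0))
      a fun t ht => by
    have := mem_range.1 (mem_filter.1 ht).1
    refine (C.avg_mono fun x _ => ind_mono fun h => h.1).trans ?_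
    rw [C.avg_it (by omega) fun x => ind (B x)]
    exact up _ _ (by omega)
  rw [nsmul_eq_mul] at e2 e3
  have c2 : (((range T).filter fun t => t + W < T).card : ℝ) ≤ T :=
    Nat.cast_le.2 ((card_filter_le _ _).trans_eq (card_range T))
  have c3 : (((range T).filter fun t => ¬ t + W < T).card : ℝ) ≤ W :=
    Nat.cast_le.2 (card_le_of_lt _ (fun t => T - 1 - t) (fun i hi j hj e => by
      have := mem_range.1 (mem_filter.1 hi).1
      have := mem_range.1 (mem_filter.1 hj).1
      simp only at e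
      omega) fun t ht => by
        have := mem_range.1 (mem_filter.1 ht).1
        have := (mem_filter.1 ht).2
        omega)
  have e4 := e1.trans (mul_le_mul_of_nonneg_left (add_le_add
    (e2.trans (mul_le_mul_of_nonneg_right c2 (by positivity)))
    (e3.trans (mul_le_mul_of_nonneg_right c3 a0))) (by positivity))
  rw [eT'] at e4
  have e5 : 4 * a ≤ 108 * M * (q + W * (10 * kap ^ L)) + a :=
    le_of_mul_le_mul_left (a := (27 * M * W : ℝ)) (by linarith)
      (mul_pos (by linarith) (by linarith))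
  have e6 : M * (W * kap ^ L) ≤ 1 / 1080 * a :=
    (mul_le_mul_of_nonneg_left (mul_le_mul_of_nonneg_left hL (by positivity)) (by positivity)).trans
      (by nlinarith)
  have e7 := q2 (n - (Q + 1 + (L + W))) w
  rw [show n - (Q + 1 + (L + W)) + (Q + 1) + (L + W) = n by omega] at e7
  have e8 := e7.trans (mul_le_mul_of_nonneg_left (C.avg_mono fun x _ => ind_mono fun h => h.self)
    (by positivity))
  have e9 := mul_le_mul_of_nonneg_left e8 (show (0 : ℝ) ≤ M by positivity)
  have p0 : 0 ≤ avg l c n (fun x => ind (Fh l c B G W x)) w := C.le_avg fun _ _ => ind_nonneg _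
  rw [one_div, inv_mul_le_iff₀ (by positivity)]
  nlinarith [mul_nonneg (mul_nonneg (Nat.cast_nonneg (α := ℝ) M) (Nat.cast_nonneg M)) p0]

end Cy

end Pool.Agent.Lib.MP_a2c890_nt.Q2
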