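import Pool.Agent.Lib.MP_a2c890_nt.Q2.EnB

set_option autoImplicit false
set_option linter.unusedSectionVars false

namespace Pool.Agent.Lib.MP_a2c890_nt.Q2

open T Finset

variable {F : Type*} [NormedField F] [IsUltrametricDist F] [IsAlgClosed F]
variable {l c : F} {s : ℝ} {Q : ℕ}

/-- a model set of large energy -/
theorem Cy.model (C : Cy l c s Q) {n M : ℕ} (hM : M ≤ 2 ^ n) : ∃ X : Finset F, X.card = M ∧
    (∀ x ∈ X, ∃ w, ‖w‖ ≤ 1 ∧ Pre l c n w x) ∧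
    -Real.log ‖c‖ * ((M : ℝ) ^ 2 - 3 * M) ≤ ea l c n X id := by
  obtain ⟨U, u1, u2, u3⟩ := units (F := F) M
  obtain ⟨X, h1, h2, h3⟩ := C.greedy n U u3
  refine ⟨X, h1.trans u1, fun x hx => (h2 x hx).imp fun w h => ⟨u2 w h.1, h.2⟩, le_trans ?_ h3⟩
  have r0 : 0 < -Real.log ‖c‖ := neg_pos.mpr (Real.log_neg C.cpos C.c1)
  have k : (M : ℝ) * (1 / 2 ^ n) ≤ 1 := by
    rw [mul_one_div, div_le_one (by positivity)]
    exact_mod_cast hM
  have M0 : (0 : ℝ) ≤ M := Nat.cast_nonneg M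
  have k0 : (0 : ℝ) ≤ M * (1 / 2 ^ n) := by positivity
  have k2 := mul_le_mul_of_nonneg_left k M0
  rw [u1, neg_mul_eq_mul_neg, ← mul_assoc, mul_comm _ (-Real.log ‖c‖)]
  exact mul_le_mul_of_nonneg_left (by linarith) r0.le

theorem en_num {M N A0 A1 A2 A3 S G r lR lπ : ℝ} (M0 : 0 < M) (MN : M ≤ N) (r0 : r ≤ 0)
    (R0 : 0 ≤ lR) (hS : S ≤ M * lR)
    (main : M⁻¹ * (M⁻¹ * A1 - (M * N)⁻¹ * A2) - (M * N)⁻¹ * (M⁻¹ * A2 - (M * N)⁻¹ * A3) ≤ -G)
    (hC : A0 + 2 * (M - 1) * S + M * lπ ≤ A1) (hA : A2 ≤ M * (M * lR + N * S))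
    (hB : M * N ^ 2 * ((M - 1) * r + lπ) ≤ A3) :
    G ≤ (4 * lR - 2 * lπ) / M - r - A0 / M ^ 2 := by
  have N0 := M0.trans_le MN
  have m2 : A1 - 2 * (A2 / N) + A3 / N ^ 2 ≤ -(M ^ 2 * G) := by
    have := mul_le_mul_of_nonneg_left main (sq_nonneg M)
    refine le_of_eq_of_le ?_ (this.trans_eq (by ring))
    field_simp
    ring
  have b2 : A2 / N ≤ M * lR + M * S := by
    rw [div_le_iff₀ N0]
    linarith [mul_le_mul_of_nonneg_left MN (mul_nonneg M0.le R0)]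
  have b3 : M * ((M - 1) * r + lπ) ≤ A3 / N ^ 2 := by
    rw [le_div_iff₀ (by positivity)]
    linarith
  have e : (4 * lR - 2 * lπ) / M - r - A0 / M ^ 2 =
      ((4 * lR - 2 * lπ) * M - r * M ^ 2 - A0) / M ^ 2 := by field_simp
  rw [e, le_div_iff₀ (by positivity)]
  linarith [mul_nonpos_of_nonneg_of_nonpos M0.le r0]

theorem ea_eq [DecidableEq F] (n : ℕ) (X : Finset F) :
    ea l c n X id + 2 * ((X.card : ℝ) - 1) * ∑ a ∈ X, La l c n a =
      ∑ a ∈ X, ∑ b ∈ X.erase a, Real.log ‖a - b‖ := by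
  have e : ∀ a ∈ X, ∑ b ∈ X.erase a, (Real.log ‖a - b‖ - La l c n a - La l c n b) =
      ∑ b ∈ X.erase a, Real.log ‖a - b‖ - (X.card - 2) * La l c n a - ∑ b ∈ X, La l c n b :=
    fun a ha => by
      rw [sum_sub_distrib, sum_sub_distrib, sum_const, card_erase_of_mem ha, nsmul_eq_mul,
        Nat.cast_sub (card_pos.mpr ⟨a, ha⟩), ← add_sum_erase _ (La l c n) ha]
      push_cast
      ring
  have e0 : ea l c n X id =
      ∑ a ∈ X, ∑ b ∈ X.erase a, (Real.log ‖a - b‖ - La l c n a - La l c n b) := by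
    unfold ea
    exact sum_congr rfl fun a _ => sum_congr (by ext; simp) fun _ _ => rfl
  rw [e0, sum_congr rfl e, sum_sub_distrib, sum_sub_distrib, ← mul_sum, sum_const, nsmul_eq_mul]
  ring

/-- the local energy inequality -/
theorem Cy.energy (C : Cy l c s Q) (cv : CvOff l c s) {R : ℝ} (hR : 1 ≤ R) :
    ∃ A : ℝ, 0 ≤ A ∧ ∀ (n L : ℕ) (E : F → Prop) (μ : ℝ) (X : Finset F), X.Nonempty →
      X.card ≤ 2 ^ n → L ≤ n → Sat l c s L E →
      (∀ w, Inn l c w → μ ≤ avg l c n (fun x => ind (E x)) w) →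
      (∀ x ∈ X, ∃ y, ‖y‖ ≤ R ∧ Off l c s y ∧ Pre l c n y x) →
      Real.log (s / ‖c‖) * max (μ - (∑ x ∈ X, ind (E x)) / X.card) 0 ^ 2 ≤
        Q * 8 ^ L * (A * (n + 1) / X.card - Real.log ‖c‖ - ea l c n X id / (X.card : ℝ) ^ 2) := by
  classical
  have c0 := C.cpos
  have R0 : 0 < R := one_pos.trans_le hR
  have q0 : 0 < ‖c‖ ^ 2 / R ^ 2 := by positivity
  have q2 : ‖c‖ ^ 2 / R ^ 2 ≤ ‖c‖ ^ 2 := div_le_self (by positivity) (one_le_pow₀ hR)
  have q1 : ‖c‖ ^ 2 / R ^ 2 < 1 := q2.trans_lt (pow_lt_one₀ c0.le C.c1 two_ne_zero)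
  obtain ⟨k, hk⟩ := exists_pow_lt_of_lt_one q0 C.c1
  have lR := Real.log_nonneg hR
  have lc := (Real.log_neg c0 C.c1).le
  refine ⟨4 * Real.log R - 2 * (k * Real.log ‖c‖), by
    linarith [mul_nonpos_of_nonneg_of_nonpos (Nat.cast_nonneg (α := ℝ) k) lc],
    fun n L E μ X hX hM hL hE hμ hP => ?_⟩
  obtain ⟨π, hπ⟩ : ∃ π : F, ‖π‖ = (‖c‖ ^ k) ^ (n + 1) := ⟨_, by rw [← norm_pow, ← norm_pow]⟩
  have p0 : 0 < ‖π‖ := by rw [hπ]; positivity
  have p1 : ‖π‖ ≤ (‖c‖ ^ 2 / R ^ 2) ^ (n + 1) := hπ ▸ pow_le_pow_left₀ (by positivity) hk.le _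
  have p2 : ‖π‖ < (‖c‖ ^ 2 / R ^ 2) ^ n :=
    p1.trans_lt (pow_lt_pow_right_of_lt_one₀ q0 q1 n.lt_succ_self)
  have p3 : ‖π‖ ≤ ‖c‖ ^ (2 * L + 2) := by
    refine p1.trans ((pow_le_pow_left₀ q0.le q2 _).trans ?_)
    rw [← pow_mul]
    exact pow_le_pow_of_le_one c0.le C.c1.le (by omega)
  have lπ : Real.log ‖π‖ = (n + 1) * (k * Real.log ‖c‖) := by
    rw [hπ, Real.log_pow, Real.log_pow]; push_cast; ring
  obtain ⟨U, u1, u2, u3⟩ := units (F := F) X.card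
  set M : ℝ := (X.card : ℝ) with hM'
  have M0 : 0 < M := by rw [hM']; exact_mod_cast hX.card_pos
  set N : ℝ := 2 ^ n with hN
  have MN : M ≤ N := by rw [hM', hN]; exact_mod_cast hM
  have N0 : 0 < N := M0.trans_le MN
  have uc : (U.card : ℝ) = M := by rw [u1]
  have inn : ∀ u ∈ U, Inn l c (1 + c * u) := fun u hu => ⟨1, by
    rw [cen_one, add_sub_cancel_left, norm_mul]
    exact mul_le_of_le_one_right c0.le (u2 u hu)⟩
  set Z := U.val.bind (fun u => prm l c n (1 + c * u)) with hZ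
  have zs : ∀ h : F → ℝ, (Z.map h).sum = N * ∑ u ∈ U, avg l c n h (1 + c * u) := fun h => by
    rw [hZ, Multiset.map_bind, Multiset.sum_bind, mul_sum]
    exact sum_congr rfl fun u _ => prm_sum n h _
  have zmem : ∀ z ∈ Z, ∃ u ∈ U, Pre l c n (1 + c * u) z := fun z hz =>
    (Multiset.mem_bind.mp hz).imp fun u h => ⟨h.1, C.mem_prm.mp h.2⟩
  let κ : F → F → ℝ := fun a b => Real.log (max ‖a - b‖ ‖π‖)
  have main := C.disc_ev cv hE (X ∪ Z.toFinset)
    (fun a => ind (a ∈ X) * M⁻¹ - Z.count a * (M * N)⁻¹)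
    (by
      have := wsum X Z M⁻¹ (M * N)⁻¹ fun _ => 1
      simp only [mul_one] at this
      rw [this, zs]
      simp only [avg_const, sum_const, nsmul_eq_mul, mul_one, ← hM', uc]
      field_simp
      ring) p0 p3 fun a ha m hm => by
      obtain ⟨y, y1, y2⟩ : ∃ y, Off l c s y ∧ Pre l c n y a := by
        rcases mem_union.mp ha with h | h
        · exact (hP a h).imp fun y h => h.2
        · obtain ⟨u, hu, h⟩ := zmem a (Multiset.mem_toFinset.mp h)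
          exact ⟨_, fun _ => inn u hu, h⟩
      refine C.off_of_iter (i := n - m) ?_
      rwa [← Function.iterate_add_apply, Nat.sub_add_cancel (hm.trans hL), y2.1]
  have ev : max (μ - (∑ x ∈ X, ind (E x)) / M) 0 ^ 2 ≤ (∑ a ∈ X ∪ Z.toFinset,
      (ind (a ∈ X) * M⁻¹ - Z.count a * (M * N)⁻¹) * ind (E a)) ^ 2 := by
    have h1 : M * μ ≤ ∑ u ∈ U, avg l c n (fun x => ind (E x)) (1 + c * u) := by
      rw [← uc, ← nsmul_eq_mul]
      exact card_nsmul_le_sum _ _ _ fun u hu => hμ _ (inn u hu)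
    rw [wsum, zs, ← sq_abs (_ - _), abs_sub_comm]
    refine pow_le_pow_left₀ (le_max_right _ _) (max_le (le_trans ?_ (le_abs_self _))
      (abs_nonneg _)) 2
    rw [div_eq_inv_mul, sub_le_sub_iff_right, mul_inv, mul_assoc, inv_mul_cancel_left₀ N0.ne',
      le_inv_mul_iff₀ M0]
    exact h1
  have ex : ∑ a ∈ X ∪ Z.toFinset, ∑ b ∈ X ∪ Z.toFinset,
      (ind (a ∈ X) * M⁻¹ - Z.count a * (M * N)⁻¹) * (ind (b ∈ X) * M⁻¹ - Z.count b * (M * N)⁻¹) *
        κ a b = M⁻¹ * (M⁻¹ * ∑ a ∈ X, ∑ b ∈ X, κ a b - (M * N)⁻¹ * ∑ a ∈ X, (Z.map (κ a)).sum) -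
          (M * N)⁻¹ * (M⁻¹ * ∑ a ∈ X, (Z.map (κ a)).sum -
            (M * N)⁻¹ * (Z.map fun a => (Z.map (κ a)).sum).sum) := by
    simp only [mul_assoc, ← mul_sum]
    simp only [wsum]
    rw [sum_sub_distrib, ← mul_sum, ← mul_sum, Multiset.sum_map_sub, Multiset.sum_map_mul_left,
      Multiset.sum_map_mul_left, Multiset.sum_map_sum]
    congr 4
    exact sum_congr rfl fun a _ => congrArg _ (Multiset.map_congr rfl fun b _ => by
      simp only [κ, norm_sub_rev])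
  have hA : ∑ a ∈ X, (Z.map (κ a)).sum ≤ M * (M * Real.log R + N * ∑ a ∈ X, La l c n a) := by
    have e : M * Real.log R + N * ∑ a ∈ X, La l c n a =
        ∑ a ∈ X, N * (Real.log R / N + La l c n a) := by
      rw [← mul_sum, sum_add_distrib, sum_const, nsmul_eq_mul, ← hM']
      field_simp
    rw [e, mul_sum]
    refine sum_le_sum fun x hx => ?_
    rw [zs, mul_left_comm, ← uc, ← nsmul_eq_mul U.card]
    refine mul_le_mul_of_nonneg_left (sum_le_card_nsmul _ _ _ fun u hu => ?_) N0.le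
    obtain ⟨y, y1, -, y2⟩ := hP x hx
    obtain ⟨T, t1, t2⟩ := gen (prm l c n (1 + c * u)) x (norm_pos_iff.mp p0)
    obtain ⟨y', a1, a2, a3⟩ := C.near hR y1 y2 (t1.trans_lt p2)
    have ne : y' ≠ 1 + c * u := fun h => by
      have := t2 T (C.mem_prm.mpr (h ▸ a1))
      rw [sub_self, norm_zero] at this
      exact absurd this (lt_max_of_lt_right p0).ne
    rw [C.avg_congr (g := fun z => Real.log ‖T - z‖) fun z hz => by
      simp only [κ, t2 z (C.mem_prm.mpr hz)], C.pot a1 ne, a3]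
    exact add_le_add_left (div_le_div_of_nonneg_right (Real.log_le_log
      (norm_pos_iff.mpr (sub_ne_zero.mpr ne))
      (usub_le a2 ((C.inn_le (inn u hu)).trans hR))) N0.le) _
  have hB : M * N ^ 2 * ((M - 1) * Real.log ‖c‖ + Real.log ‖π‖) ≤
      (Z.map fun a => (Z.map (κ a)).sum).sum := by
    have e : (Z.map fun a => N * ((M - 1) * La l c n a +
        ((M - 1) * (Real.log ‖c‖ / N) + Real.log ‖π‖))).sum =
        M * N ^ 2 * ((M - 1) * Real.log ‖c‖ + Real.log ‖π‖) := by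
      rw [zs]
      simp only [avg_mul, avg_add, avg_const, C.avg_La, sum_const, nsmul_eq_mul, uc, ← hN]
      field_simp
      ring
    rw [← e]
    refine Multiset.sum_map_le_sum_map _ _ fun z hz => ?_
    obtain ⟨u, hu, hz⟩ := zmem z hz
    rw [zs, ← add_sum_erase _ _ hu, ← add_assoc, ← mul_add, add_comm _ (Real.log ‖π‖)]
    refine mul_le_mul_of_nonneg_left (add_le_add
      (C.le_avg fun b _ => Real.log_le_log p0 (le_max_right _ _)) ?_) N0.le
    have c1 : M - 1 = ((U.erase u).card : ℝ) := by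
      rw [card_erase_of_mem hu, Nat.cast_sub (card_pos.mpr ⟨u, hu⟩), uc, Nat.cast_one]
    rw [c1, ← nsmul_eq_mul]
    refine card_nsmul_le_sum _ _ _ fun u' hu' => ?_
    obtain ⟨a1, a2⟩ := mem_erase.mp hu'
    have d : ‖1 + c * u - (1 + c * u')‖ = ‖c‖ := by
      rw [add_sub_add_left_eq_sub, ← mul_sub, norm_mul, u3 u hu u' a2 a1.symm, mul_one]
    have ne : 1 + c * u ≠ 1 + c * u' := sub_ne_zero.mp (norm_pos_iff.mp (d ▸ c0))
    have := C.pot hz ne
    rw [d] at this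
    rw [add_comm (La l c n z), ← this]
    exact C.avg_mono fun b hb => Real.log_le_log (norm_pos_iff.mpr (sub_ne_zero.mpr
      fun h => ne (by rw [← hz.1, h, hb.1]))) (le_max_left _ _)
  have hC : ea l c n X id + 2 * (M - 1) * ∑ a ∈ X, La l c n a + M * Real.log ‖π‖ ≤
      ∑ a ∈ X, ∑ b ∈ X, κ a b := by
    rw [ea_eq, ← nsmul_eq_mul, ← sum_const, ← sum_add_distrib]
    refine sum_le_sum fun x hx => ?_
    rw [← add_sum_erase _ _ hx, add_comm]
    refine add_le_add (Real.log_le_log p0 (le_max_right _ _)) (sum_le_sum fun b hb => ?_)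
    exact Real.log_le_log (norm_pos_iff.mpr (sub_ne_zero.mpr (mem_erase.mp hb).1.symm))
      (le_max_left _ _)
  have hS : ∑ a ∈ X, La l c n a ≤ M * Real.log R := by
    rw [← nsmul_eq_mul]
    refine sum_le_card_nsmul _ _ _ fun x hx => ?_
    obtain ⟨y, y1, -, y2⟩ := hP x hx
    exact (C.pre_bd hR y1 y2).2
  have fin := en_num M0 MN lc lR hS (ex.symm.trans_le main) hC hA hB
  have Q0 : (0 : ℝ) < Q * 8 ^ L := mul_pos (by exact_mod_cast C.Q0) (by positivity)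
  rw [div_le_iff₀' Q0] at fin
  refine (mul_le_mul_of_nonneg_left ev (Real.log_nonneg ((one_le_div c0).mpr C.lt.le))).trans
    (fin.trans (mul_le_mul_of_nonneg_left (sub_le_sub_right (sub_le_sub_right
      (div_le_div_of_nonneg_right ?_ M0.le) _) _) Q0.le))
  rw [lπ]
  linarith [mul_nonneg lR (Nat.cast_nonneg (α := ℝ) n)]

end Pool.Agent.Lib.MP_a2c890_nt.Q2
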