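import Pool.Agent.Lib.MP_a2c890_nt.Q2.Int

set_option autoImplicit false
set_option linter.unusedSectionVars false

namespace Pool.Agent.Lib.MP_a2c890_nt.Q2

open T Finset

variable {F : Type*} [NormedField F] [IsUltrametricDist F] [IsAlgClosed F]
variable {l c : F} {s : ℝ} {Q : ℕ}

/-- the preimages of order `n` with multiplicity -/
noncomputable def prm (l c : F) : ℕ → F → Multiset F
  | 0, w => {w}
  | n + 1, w => prm l c n (kid l c w) + prm l c n (sib c (kid l c w))

theorem prm_sum (n : ℕ) (h : F → ℝ) (w : F) :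
    ((prm l c n w).map h).sum = 2 ^ n * avg l c n h w := by
  induction n generalizing w with
  | zero => simp [prm, avg_zero]
  | succ n ih =>
    rw [prm, Multiset.map_add, Multiset.sum_add, ih, ih, avg_succ', Lop]
    ring

theorem pre_top {n : ℕ} {w x : F} : Pre l c (n + 1) w x ↔
    ∃ y, y ≠ 0 ∧ fm l c y = w ∧ Pre l c n y x := by
  unfold Pre
  rw [Nat.forall_lt_succ_right, Function.iterate_succ_apply']
  exact ⟨fun ⟨a, b, d⟩ => ⟨_, d, a, rfl, b⟩, fun ⟨y, d, a, e, b⟩ => ⟨e ▸ a, b, e ▸ d⟩⟩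

namespace Cy

variable (C : Cy l c s Q)
include C

theorem mem_prm {n : ℕ} {w x : F} : x ∈ prm l c n w ↔ Pre l c n w x := by
  induction n generalizing w with
  | zero => exact Multiset.mem_singleton.trans ⟨fun h => h ▸ pre_zero, fun h => h.1⟩
  | succ n ih =>
    obtain ⟨a, b⟩ := C.kid_spec w
    rw [prm, Multiset.mem_add, ih, ih, pre_top]
    refine ⟨fun h => ?_, fun ⟨y, y0, e, h⟩ => ?_⟩
    · exact h.elim (fun h => ⟨_, a, b, h⟩)
        fun h => ⟨_, sib_ne C.c0 a, (fm_sib C.c0 a).trans b, h⟩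
    · rcases eq_or_sib C.hl y0 a (e.trans b.symm) with k | k
      exacts [Or.inl (k ▸ h), Or.inr (k ▸ h)]

theorem pot {n : ℕ} {w y T : F} (hT : Pre l c n y T) (hw : y ≠ w) :
    avg l c n (fun z => Real.log ‖T - z‖) w = Real.log ‖y - w‖ / 2 ^ n + La l c n T := by
  induction n generalizing T with
  | zero => rw [← hT.1]; simp [avg_zero, La]
  | succ n ih =>
    obtain ⟨T0, hT⟩ := pre_succ.mp hT
    have e : avg l c n (Lop l c fun z => Real.log ‖T - z‖) w = avg l c n
        (fun z => 1 / 2 * Real.log ‖fm l c T - z‖ + Real.log ‖T‖ / 2) w :=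
      C.avg_congr fun x hx => by
        obtain ⟨a, b⟩ := C.kid_spec x
        have k := key (c := c) C.hl T0 a
        rw [b] at k
        have n1 : ‖fm l c T - x‖ ≠ 0 := norm_ne_zero_iff.mpr
          (sub_ne_zero.mpr fun e => hw (by rw [← hT.1, e, hx.1]))
        have n2 := norm_ne_zero_iff.mpr T0
        have n3 := k ▸ mul_ne_zero n1 n2
        have k2 := congrArg Real.log k
        rw [Real.log_mul n1 n2,
          Real.log_mul (left_ne_zero_of_mul n3) (right_ne_zero_of_mul n3)] at k2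
        unfold Lop
        linarith
    rw [avg_succ, e, avg_add, avg_mul, avg_const, ih hT, La, pow_succ]
    field_simp
    ring

theorem avg_La (n : ℕ) (w : F) :
    avg l c n (La l c n) w = (1 - 1 / 2 ^ n) * Real.log ‖c‖ := by
  induction n with
  | zero => simp [avg_zero, La]
  | succ n ih =>
    have e : avg l c n (Lop l c (La l c (n + 1))) w =
        avg l c n (fun z => 1 / 2 * La l c n z + Real.log ‖c‖ / 2) w :=
      C.avg_congr fun x _ => by
        obtain ⟨a, b⟩ := C.kid_spec x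
        have k := congrArg Real.log (norm_mul_sib (c := c) a)
        rw [Real.log_mul (norm_ne_zero_iff.mpr a) (norm_ne_zero_iff.mpr (sib_ne C.c0 a)),
          Real.log_pow] at k
        unfold Lop
        rw [La, La, fm_sib C.c0 a, b]
        push_cast at k
        linarith
    rw [avg_succ, e, avg_add, avg_mul, avg_const, ih, pow_succ]
    field_simp
    ring

theorem ex_ge (n : ℕ) (h : F → ℝ) (w : F) : ∃ x, Pre l c n w x ∧ avg l c n h w ≤ h x := by
  induction n generalizing h with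
  | zero => exact ⟨w, pre_zero, le_rfl⟩
  | succ n ih =>
    obtain ⟨y, hy, k⟩ := ih (Lop l c h)
    obtain ⟨a, b⟩ := C.kid_spec y
    unfold Lop at k
    rcases le_total (h (kid l c y)) (h (sib c (kid l c y))) with o | o
    · exact ⟨_, pre_succ.mpr ⟨sib_ne C.c0 a, by rwa [fm_sib C.c0 a, b]⟩,
        k.trans (by linarith)⟩
    · exact ⟨_, pre_succ.mpr ⟨a, b.symm ▸ hy⟩, k.trans (by linarith)⟩

theorem greedy (n : ℕ) (U : Finset F) (hU : ∀ y ∈ U, ∀ y' ∈ U, y ≠ y' → ‖y - y'‖ = 1) :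
    ∃ X : Finset F, X.card = U.card ∧ (∀ x ∈ X, ∃ w ∈ U, Pre l c n w x) ∧
      (U.card : ℝ) * (U.card - 1) * -((1 - 1 / 2 ^ n) * Real.log ‖c‖) ≤ ea l c n X id := by
  classical
  induction U using Finset.induction_on with
  | empty => exact ⟨∅, rfl, by simp, by simp [ea]⟩
  | insert w U hw ih =>
    obtain ⟨X, h1, h2, h3⟩ := ih fun y hy y' hy' =>
      hU y (mem_insert_of_mem hy) y' (mem_insert_of_mem hy')
    obtain ⟨b, hb, k⟩ := C.ex_ge n
      (fun b => ∑ a ∈ X, (Real.log ‖a - b‖ - La l c n a - La l c n b)) w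
    have bX : b ∉ X := fun h => by
      obtain ⟨y, hy, e⟩ := h2 b h
      exact hw (by rw [← hb.1, e.1]; exact hy)
    rw [avg_sum, sum_congr rfl (g := fun _ => -((1 - 1 / 2 ^ n) * Real.log ‖c‖)) fun a ha => by
      obtain ⟨y, hy, e⟩ := h2 a ha
      have ne : y ≠ w := fun h => hw (h ▸ hy)
      rw [avg_sub, avg_sub, avg_const, C.pot e ne, C.avg_La,
        hU y (mem_insert_of_mem hy) w (mem_insert_self _ _) ne, Real.log_one]
      ring, sum_const, nsmul_eq_mul, h1] at k
    refine ⟨insert b X, by rw [card_insert_of_notMem bX, card_insert_of_notMem hw, h1],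
      fun x hx => ?_, ?_⟩
    · rcases mem_insert.mp hx with rfl | hx
      · exact ⟨w, mem_insert_self _ _, hb⟩
      · obtain ⟨y, hy, e⟩ := h2 x hx
        exact ⟨y, mem_insert_of_mem hy, e⟩
    · have e : ea l c n (insert b X) id = ea l c n X id +
          2 * ∑ a ∈ X, (Real.log ‖a - b‖ - La l c n a - La l c n b) := by
        unfold ea
        simp only [id]
        rw [sum_insert bX, erase_insert bX, two_mul, ← add_assoc, add_comm]
        refine congrArg₂ (· + ·) (Eq.trans (sum_congr rfl fun a ha => ?_) sum_add_distrib)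
          (sum_congr rfl fun a _ => ?_)
        · have ne : b ≠ a := fun e => bX (e ▸ ha)
          rw [erase_insert_of_ne ne, sum_insert fun h => bX (mem_of_mem_erase h), add_comm]
        · rw [norm_sub_rev]
          ring
      rw [e, card_insert_of_notMem hw]
      push_cast
      linarith

theorem pre_bd {R : ℝ} (hR : 1 ≤ R) {n : ℕ} {y x : F} (hy : ‖y‖ ≤ R) (h : Pre l c n y x) :
    ‖x‖ ≤ R ∧ La l c n x ≤ Real.log R := by
  induction n generalizing x with
  | zero => exact ⟨(congrArg norm h.1).trans_le hy, Real.log_nonneg hR⟩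
  | succ n ih =>
    obtain ⟨x0, h⟩ := pre_succ.mp h
    have k := (le_max_left _ _).trans (C.norm_bd hR x0 (ih h).1).1
    refine ⟨k, ?_⟩
    rw [La]
    linarith [(ih h).2, Real.log_le_log (norm_pos_iff.mpr x0) k]

theorem near {R : ℝ} (hR : 1 ≤ R) {n : ℕ} {y x z : F} (hy : ‖y‖ ≤ R) (h : Pre l c n y x)
    (hz : ‖z - x‖ < (‖c‖ ^ 2 / R ^ 2) ^ n) :
    ∃ y', Pre l c n y' z ∧ ‖y'‖ ≤ R ∧ La l c n z = La l c n x := by
  induction n generalizing x z with
  | zero =>
    refine ⟨z, pre_zero, ?_, rfl⟩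
    rw [← sub_add_cancel z x]
    exact uadd_le (hz.le.trans (by simpa using hR)) ((congrArg norm h.1).trans_le hy)
  | succ n ih =>
    obtain ⟨x0, h⟩ := pre_succ.mp h
    obtain ⟨m1, m2⟩ := C.norm_bd hR x0 (C.pre_bd hR hy h).1
    have c0 := C.cpos
    have R0 : 0 < R := one_pos.trans_le hR
    have xp := norm_pos_iff.mpr x0
    have q0 : 0 < ‖c‖ ^ 2 / R ^ 2 := by positivity
    have q2 : ‖c‖ ^ 2 / R ^ 2 * R ≤ ‖x‖ := by
      rw [div_mul_eq_mul_div, div_le_iff₀ (by positivity), sq R, ← mul_assoc]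
      exact mul_le_mul_of_nonneg_right m2 R0.le
    have q3 : ‖c‖ ^ 2 / R ^ 2 ≤ ‖x‖ := (le_mul_of_one_le_right q0.le hR).trans q2
    have q1 : ‖c‖ ^ 2 / R ^ 2 ≤ 1 := by
      rw [div_le_one (by positivity)]
      exact pow_le_pow_left₀ c0.le (C.c1.le.trans hR) 2
    rw [pow_succ] at hz
    have e := norm_eq_of_lt (hz.trans_le
      ((mul_le_of_le_one_left q0.le (pow_le_one₀ q0.le q1)).trans q3))
    have z0 : z ≠ 0 := norm_pos_iff.mp (e ▸ xp)
    have k := key (c := c) C.hl z0 x0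
    have k2 : ‖z - sib c x‖ ≤ R :=
      usub_le (e ▸ (le_max_left _ _).trans m1) ((le_max_right _ _).trans m1)
    obtain ⟨y', a1, a2, a3⟩ := ih h (z := fm l c z) (by
      refine lt_of_mul_lt_mul_right ?_ xp.le
      rw [← e, k, e]
      calc _ ≤ ‖z - x‖ * R := mul_le_mul_of_nonneg_left k2 (norm_nonneg _)
        _ < (‖c‖ ^ 2 / R ^ 2) ^ n * (‖c‖ ^ 2 / R ^ 2) * R := mul_lt_mul_of_pos_right hz R0
        _ ≤ _ := by rw [mul_assoc]; exact mul_le_mul_of_nonneg_left q2 (by positivity))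
    exact ⟨y', pre_succ.mpr ⟨z0, a1⟩, a2, by rw [La, La, e, a3]⟩

theorem labels (m : ℕ) : ∃ T : Finset F, T.card ≤ Q * 2 ^ m ∧
    ∀ x, 0 < rr l c s m x → ∃ ζ ∈ T, ‖ζ - x‖ < rr l c s m x := by
  classical
  induction m with
  | zero =>
    refine ⟨(range Q).image (cen l), card_image_le.trans (by simp), fun x hx => ?_⟩
    obtain ⟨⟨j, hj⟩, e⟩ := C.rr_zero hx
    refine ⟨_, mem_image_of_mem _ (mem_range.mpr (Nat.mod_lt j C.Q0)), ?_⟩
    rw [e, norm_sub_rev]
    exact utri_lt hj ((C.cen_mod j).trans_lt C.lt)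
  | succ m ih =>
    obtain ⟨T, h1, h2⟩ := ih
    refine ⟨T.image (kid l c) ∪ T.image fun y => sib c (kid l c y), (card_union_le _ _).trans
      ((add_le_add (card_image_le.trans h1) (card_image_le.trans h1)).trans_eq (by ring)),
      fun x hx => ?_⟩
    obtain ⟨ζ, a1, a2⟩ := h2 _ (C.rr_pos hx).1
    obtain ⟨a, b⟩ := C.kid_spec ζ
    rcases C.rr_surj hx a (by rwa [b]) with o | o
    · exact ⟨_, mem_union_left _ (mem_image_of_mem _ a1), o⟩
    · exact ⟨_, mem_union_right _ (mem_image_of_mem (fun y => sib c (kid l c y)) a1), o⟩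

end Cy

end Pool.Agent.Lib.MP_a2c890_nt.Q2
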