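import Pool.Agent.Lib.MP_a2c890_nt.Q2.EnA

set_option autoImplicit false
set_option linter.unusedSectionVars false

namespace Pool.Agent.Lib.MP_a2c890_nt.Q2

open T Finset

variable {F : Type*} [NormedField F] [IsUltrametricDist F] [IsAlgClosed F]
variable {l c : F} {s : ℝ} {Q : ℕ}

theorem gp_mono {θ : ℝ} (h0 : 0 < θ) (h1 : θ < 1) : Monotone (gp θ) :=
  monotone_nat_of_le_succ (gp_le h0 h1)

theorem max_center {a a' z : F} {t : ℝ} (h : ‖a - a'‖ ≤ t) : max ‖a - z‖ t = max ‖a' - z‖ t := by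
  have k : ∀ {a a' : F}, ‖a - a'‖ ≤ t → max ‖a - z‖ t ≤ max ‖a' - z‖ t := fun h =>
    max_le (utri_le (le_max_of_le_right h) (le_max_left _ _)) (le_max_right _ _)
  exact le_antisymm (k h) (k (by rwa [norm_sub_rev]))

theorem log_max_lip (x : ℝ) {t t' : ℝ} (ht : 0 < t) (h : t ≤ t') :
    Real.log (max x t) ≤ Real.log (max x t') ∧
      Real.log (max x t') - Real.log (max x t) ≤ Real.log t' - Real.log t := by
  refine ⟨Real.log_le_log (lt_max_of_lt_right ht) (max_le_max_left x h), ?_⟩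
  have h1 : Real.log t ≤ Real.log (max x t) := Real.log_le_log ht (le_max_right _ _)
  rcases le_total x t' with h' | h'
  · rw [max_eq_right h']; linarith
  · rw [max_eq_left h', max_eq_left (h.trans h')]
    linarith [Real.log_le_log ht h]

theorem Cy.disc_ev (C : Cy l c s Q) (cv : CvOff l c s) {L : ℕ} {E : F → Prop}
    (hE : Sat l c s L E) (S : Finset F) (w : F → ℝ) (hw : ∑ a ∈ S, w a = 0) {ε : ℝ} (hε : 0 < ε)
    (hε' : ε ≤ ‖c‖ ^ (2 * L + 2)) (hS : ∀ a ∈ S, ∀ m ≤ L, Off l c s ((fm l c)^[m] a)) :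
    ∑ a ∈ S, ∑ b ∈ S, w a * w b * Real.log (max ‖a - b‖ ε) ≤
      -(Real.log (s / ‖c‖) * (∑ a ∈ S, w a * ind (E a)) ^ 2 / (Q * 8 ^ L)) := by
  classical
  obtain ⟨g0, g1, g2⟩ := gp_bd C.th0 C.th1 L
  set g := gp (‖c‖ / s) L with hg
  have c0 := C.cpos
  have w0 : 0 < -Real.log g := neg_pos.mpr (Real.log_neg g0 g1)
  let V : ℕ × F → Prop := fun i => i.1 ≤ L ∧ 0 < rr l c s i.1 i.2 ∧
    (∀ z, ‖z - i.2‖ < rr l c s i.1 i.2 → E z) ∧ Off l c s ((fm l c)^[i.1] i.2)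
  let τ : F → ℝ → ℕ × F → ℝ := fun a t i => if V i then clamp 0 (-Real.log g)
    (Real.log (max ‖a - i.2‖ t) - Real.log (g * rr l c s i.1 i.2)) else -Real.log g
  have bd : ∀ a t, BddBelow (Set.range (τ a t)) := fun a t => ⟨0, by
    rintro _ ⟨i, rfl⟩
    simp only [τ]
    split_ifs
    exacts [le_max_left _ _, w0.le]⟩
  have lip : ∀ a t t' i, 0 < t → t ≤ t' →
      τ a t i ≤ τ a t' i ∧ τ a t' i - τ a t i ≤ Real.log t' - Real.log t := fun a t t' i ht h => by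
    obtain ⟨a1, a2⟩ := log_max_lip ‖a - i.2‖ ht h
    simp only [τ]
    split_ifs
    · obtain ⟨b1, b2⟩ := clamp_lip 0 (-Real.log g)
        (sub_le_sub_right a1 (Real.log (g * rr l c s i.1 i.2)))
      exact ⟨b1, by linarith⟩
    · exact ⟨le_rfl, by linarith⟩
  have low : ∀ a t i, V i → 0 < t → max ‖a - i.2‖ t ≤ g * rr l c s i.1 i.2 →
      ⨅ j, τ a t j ≤ 0 := fun a t i hi ht h => by
    refine (ciInf_le (bd a t) i).trans ?_
    simp only [τ, if_pos hi]
    exact max_le le_rfl (min_le_of_left_le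
      (sub_nonpos.mpr (Real.log_le_log (lt_max_of_lt_right ht) h)))
  have eps : ∀ i, V i → ε ≤ g * rr l c s i.1 i.2 := fun i hi => by
    refine hε'.trans ?_
    rw [pow_succ']
    refine mul_le_mul (le_trans ?_ (gp_mono C.th0 C.th1 (Nat.zero_le L)))
      ((pow_le_pow_of_le_one c0.le C.c1.le (by have := hi.1; omega)).trans (C.rr_low hi.2.1).1)
      (by positivity) g0.le
    exact (le_div_iff₀ C.spos).mpr (mul_le_of_le_one_right c0.le C.le1)
  have gap : ∀ a ∈ S, ∀ i, V i → ‖a - i.2‖ < rr l c s i.1 i.2 →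
      ‖a - i.2‖ ≤ g * rr l c s i.1 i.2 := fun a ha i hi h =>
    (C.gap cv hi.2.2.2 (hS a ha _ hi.1) h).trans
      (mul_le_mul_of_nonneg_right (gp_mono C.th0 C.th1 hi.1) hi.2.1.le)
  have high : ∀ a, ¬ E a → -Real.log g ≤ ⨅ j, τ a ε j := fun a ha => le_ciInf fun i => by
    simp only [τ]
    split_ifs with hi
    · refine le_max_of_le_right (le_min ?_ le_rfl)
      have := Real.log_le_log hi.2.1
        (le_max_of_le_left (c := ε) (not_lt.mp fun h => ha (hi.2.2.1 a h)))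
      rw [Real.log_mul g0.ne' hi.2.1.ne']
      linarith
    · exact le_rfl
  choose T t1 t2 using C.labels
  have ex : ∀ a, ∃ i : Σ _ : ℕ, F, i ∈ (range (L + 1)).sigma T ∧ (a ∈ S → E a →
      V (i.1, a) ∧ ‖i.2 - a‖ < rr l c s i.1 a) := fun a => by
    by_cases h : a ∈ S ∧ E a
    · obtain ⟨m, hm, a1, -, a2⟩ := hE a h.2
      obtain ⟨ζ, b1, b2⟩ := t2 m a a1
      exact ⟨⟨m, ζ⟩, mem_sigma.mpr ⟨mem_range.mpr (Nat.lt_succ_of_le hm), b1⟩,
        fun _ _ => ⟨⟨hm, a1, a2, hS a h.1 m hm⟩, b2⟩⟩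
    · obtain ⟨ζ, b1, -⟩ := t2 0 0 (by
        rw [C.rr_out ⟨0, by simpa [cen_zero] using C.spos⟩]; exact C.spos)
      exact ⟨⟨0, ζ⟩, mem_sigma.mpr ⟨mem_range.mpr L.succ_pos, b1⟩, fun a1 a2 => absurd ⟨a1, a2⟩ h⟩
  choose lab l1 l2 using ex
  have yes : ∀ a ∈ S, E a → ⨅ j, τ a ε j ≤ 0 := fun a ha h =>
    low a ε _ (l2 a ha h).1 hε (by
      rw [sub_self, norm_zero, max_eq_right hε.le]; exact eps _ (l2 a ha h).1)
  have iff : ∀ a ∈ S, (⨅ j, τ a ε j ≤ 0 ↔ E a) := fun a ha =>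
    ⟨fun h => by_contra fun k => absurd ((high a k).trans h) (not_le.mpr w0), yes a ha⟩
  have T0 : 0 < ((range (L + 1)).sigma T).card := card_pos.mpr ⟨_, l1 0⟩
  have main := disc S w hw hε (fun a t => ⨅ j, τ a t j) (N := 1) one_pos
    (fun a a' t _ h => by simp only [τ, max_center h])
    (fun a t t' ht h => ⟨ciInf_mono (bd a t) fun i => (lip a t t' i ht h).1, by
      rw [one_mul, sub_le_comm]
      exact le_ciInf fun i => by linarith [(lip a t t' i ht h).2, ciInf_le (bd a t') i]⟩)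
    w0.le (fun a ha => (em (E a)).imp (yes a ha) (high a)) _ T0 lab (fun a _ => l1 a)
    fun a ha b hb a1 a2 e => by
      obtain ⟨b1, b2⟩ := l2 a ha ((iff a ha).mp a1)
      obtain ⟨-, b4⟩ := l2 b hb ((iff b hb).mp a2)
      rw [← e] at b4
      refine low a _ _ b1 (lt_max_of_lt_right hε) ?_
      rw [sub_self, norm_zero, max_eq_right (le_max_of_le_right hε.le), norm_sub_rev]
      exact max_le (gap b hb _ b1 (C.rr_trans b2 (C.rr_symm b4))) (eps _ b1)
  rw [filter_congr iff] at main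
  have e1 : ∑ a ∈ S.filter E, w a = ∑ a ∈ S, w a * ind (E a) := by
    rw [sum_filter]
    refine sum_congr rfl fun a _ => ?_
    split_ifs with h
    · rw [ind_pos h, mul_one]
    · rw [ind_neg h, mul_zero]
  rw [e1, sub_zero, one_mul] at main
  refine main.trans (neg_le_neg ?_)
  have cT : ((range (L + 1)).sigma T).card ≤ Q * 4 ^ L := by
    rw [card_sigma]
    refine (sum_le_card_nsmul _ _ (Q * 2 ^ L) fun m hm => (t1 m).trans (Nat.mul_le_mul_left _
      (Nat.pow_le_pow_right two_pos (Nat.le_of_lt_succ (mem_range.mp hm))))).trans ?_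
    rw [card_range, smul_eq_mul, mul_left_comm, show 4 = 2 * 2 from rfl, mul_pow]
    exact Nat.mul_le_mul_left _ (Nat.mul_le_mul_right _ Nat.lt_two_pow_self)
  have e2 : Real.log (s / ‖c‖) = 2 ^ L * -Real.log g := by
    rw [g2, ← inv_div, Real.log_inv]
    field_simp
  have Q0 : (0 : ℝ) < Q := by exact_mod_cast C.Q0
  have e3 : Real.log (s / ‖c‖) * (∑ a ∈ S, w a * ind (E a)) ^ 2 / (Q * 8 ^ L) =
      -Real.log g * (∑ a ∈ S, w a * ind (E a)) ^ 2 / (Q * 4 ^ L) := by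
    rw [e2, show (8 : ℝ) = 2 * 4 by norm_num, mul_pow]
    field_simp
  rw [e3]
  exact div_le_div_of_nonneg_left (mul_nonneg w0.le (sq_nonneg _)) (by exact_mod_cast T0)
    (by exact_mod_cast cT)

end Pool.Agent.Lib.MP_a2c890_nt.Q2
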