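import Pool.Agent.Lib.MP_a2c890_nt.Q2.En

set_option autoImplicit false
set_option linter.unusedSectionVars false

namespace Pool.Agent.Lib.MP_a2c890_nt.Q2

open T R Finset

open Classical in
theorem eq_image {F α : Type*} [NormedField F] (l c : F) (n : ℕ) (X : Finset α) (v : α → F)
    (hv : ∀ a ∈ X, ∀ b ∈ X, v a = v b → a = b) : ∃ Y : Finset F, Y.card = X.card ∧
      (∀ y ∈ Y, ∃ a ∈ X, v a = y) ∧ (∀ h : F → ℝ, ∑ y ∈ Y, h y = ∑ a ∈ X, h (v a)) ∧
      ea l c n Y id = ea l c n X v := by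
  have hi : Set.InjOn v X := fun a ha b hb => hv a ha b hb
  refine ⟨X.image v, card_image_of_injOn hi, fun y hy => mem_image.mp hy,
    fun h => sum_image hi, ?_⟩
  unfold ea
  rw [sum_image hi]
  refine sum_congr rfl fun a ha => ?_
  rw [sum_erase_eq_sub (mem_image_of_mem v ha), sum_erase_eq_sub ha, sum_image hi]
  rfl

theorem eq_num {L u n M : ℕ} (hL : 6 * L ≤ u) (hn : n ≤ u + 1) (hM : 2 ^ u ≤ M) :
    (8 : ℝ) ^ L * ((n + 1) / M) ≤ 5 * ((19 / 20 : ℝ) ^ u) ^ 2 := by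
  have a1 : (8 : ℝ) ^ L ≤ (3 / 2) ^ u := by
    refine le_trans ?_ (pow_le_pow_right₀ (by norm_num) hL)
    rw [pow_mul]
    exact pow_le_pow_left₀ (by norm_num) (by norm_num) L
  have a2 : (n : ℝ) + 1 ≤ 5 * (361 / 300) ^ u := by
    have b1 := one_add_mul_le_pow (a := (61 / 300 : ℝ)) (by norm_num) u
    have b2 : (n : ℝ) ≤ u + 1 := by exact_mod_cast hn
    rw [show (1 : ℝ) + 61 / 300 = 361 / 300 by norm_num] at b1
    linarith [Nat.cast_nonneg (α := ℝ) u]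
  have a3 : (2 : ℝ) ^ u ≤ M := by exact_mod_cast hM
  have a4 : ((19 / 20 : ℝ) ^ u) ^ 2 = (3 / 2) ^ u * ((361 / 300) ^ u / 2 ^ u) := by
    rw [← pow_mul, mul_comm u 2, pow_mul, ← div_pow, ← mul_pow]; norm_num
  rw [a4, mul_left_comm, ← mul_div_assoc 5]
  gcongr

variable {p : ℕ} [Fact p.Prime] {l c : PadicAlgCl p} {s : ℝ} {Q : ℕ}

theorem Cy.eq_norm (C : Cy l c s Q) {R : ℝ} (hR : 1 ≤ R) {n : ℕ} {y x : PadicAlgCl p}
    (hy : ‖y‖ ≤ R) (h : Pre l c n y x) : ‖x‖ ≤ R := by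
  induction n generalizing x with
  | zero => exact (congrArg norm h.1).trans_le hy
  | succ n ih =>
    exact (le_max_left _ _).trans (C.norm_bd hR (h.2 0 n.succ_pos) (ih h.split.1)).1

theorem Cy.equi (C : Cy l c s Q) (cv : CvOff l c s) {S : Sys 2} {φ : S.Ω → PadicAlgCl p}
    (H : Aff S l c φ) (hb : Off l c s (φ S.b)) :
    ∃ A : ℝ, 0 ≤ A ∧ EQ S l c s φ A (19 / 20) := by
  have hR : 1 ≤ max 1 ‖φ S.b‖ := le_max_left _ _
  obtain ⟨C1, C10, hen⟩ := C.energy cv hR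
  obtain ⟨C2, C20, hgl⟩ := H.gl
  have cp : 0 < ‖c‖ := norm_pos_iff.mpr C.c0
  have c0 : 0 < Real.log (s / ‖c‖) := Real.log_pos ((one_lt_div cp).mpr C.lt)
  obtain ⟨γ, hγ⟩ : ∃ γ, γ = -Real.log ‖c‖ := ⟨_, rfl⟩
  have γ0 : 0 ≤ γ := by
    rw [hγ]; exact neg_nonneg.mpr (Real.log_nonpos cp.le (C.lt.le.trans C.le1))
  obtain ⟨K, hK⟩ : ∃ K, K = C1 + 2 * C2 + 3 * γ := ⟨_, rfl⟩
  have K0 : 0 ≤ K := by rw [hK]; positivity
  refine ⟨√(5 * (Q * K) / Real.log (s / ‖c‖)), Real.sqrt_nonneg _,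
    fun L u0 E μ hL hE hμ m k x w hx hk hu hw => ?_⟩
  have M0 := Sys.rel_pos x k
  have u1 : 2 ^ S.lr x k ≤ S.rel x k := Nat.pow_log_le_self 2 M0.ne'
  have u2 : S.rel x k < 2 ^ (S.lr x k + 1) := Nat.lt_pow_succ_log_self one_lt_two _
  set n := Nat.clog 2 (S.rel x k) with hn
  have n1 : S.rel x k ≤ 2 ^ n := Nat.le_pow_clog one_lt_two _
  have n2 : n ≤ k := (Nat.clog_le_iff_le_pow one_lt_two).mpr (Sys.rel_le x k)
  have n3 : n ≤ S.lr x k + 1 := (Nat.clog_le_iff_le_pow one_lt_two).mpr u2.le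
  have n4 : S.lr x k ≤ n := (Nat.pow_le_pow_iff_right one_lt_two).mp (u1.trans n1)
  obtain ⟨X, x1, x2, x4⟩ := C.model n1
  obtain ⟨e, g1, g2⟩ := hgl n _ M0 n1
  have l2 := g1 m k x hx (n2.trans hk) rfl
  have g3 := x4.trans (g2 X x1 x2)
  rw [← hγ] at g3
  have M1 : (0 : ℝ) < S.rel x k := by exact_mod_cast M0
  have D0 : (0 : ℝ) < (S.orb (S.f^[k] x)).card := by exact_mod_cast Sys.orb_pos _
  let Dy : S.Ω → ℝ := fun y => max (μ - (∑ a ∈ S.fib x k y, ind (E (φ a))) / S.rel x k) 0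
  have s1 : Real.log (s / ‖c‖) * ∑ y ∈ S.orb (S.f^[k] x), Dy y ^ 2 ≤
      Q * (8 : ℝ) ^ L * ((S.orb (S.f^[k] x)).card * (C1 * (n + 1) / S.rel x k + γ) -
        (∑ y ∈ S.orb (S.f^[k] x), ea l c n (S.fib x k y) φ) / (S.rel x k : ℝ) ^ 2) := by
    rw [mul_sum, sum_div, ← nsmul_eq_mul (S.orb (S.f^[k] x)).card, ← sum_const, ← sum_sub_distrib,
      mul_sum]
    refine sum_le_sum fun y hy => ?_
    have lv : ∀ a ∈ S.fib x k y, S.lev m a := fun a ha => Sys.lev_orb hx (Sys.mem_fib.mp ha).1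
    obtain ⟨Y, y1, y2, y3, y4⟩ := eq_image l c n (S.fib x k y) φ fun a ha b hb =>
      H.inj m a b (lv a ha) (lv b hb)
    rw [Sys.card_fib hy] at y1
    have t := hen n L E μ Y (card_pos.mp (y1.symm ▸ M0)) (y1.symm ▸ n1) (by omega) hE
      (fun w hw => hμ n w (by omega) hw) fun z hz => by
        obtain ⟨a, ha, rfl⟩ := y2 z hz
        have q := H.pre m a (lv a ha)
        rw [← Nat.sub_add_cancel (n2.trans hk)] at q
        exact ⟨_, C.eq_norm hR (le_max_right _ _) q.split.1,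
          C.off_of_iter (i := m - n) (by rw [q.split.1.1]; exact hb), q.split.2⟩
    rw [y1, y3 fun z => ind (E z), y4, sub_eq_add_neg (C1 * (n + 1) / _), ← hγ] at t
    exact t
  have s2 : ∑ y ∈ S.orb (S.f^[k] x), Dy y ^ 2 ≤ (S.orb (S.f^[k] x)).card *
      (√(5 * (Q * K) / Real.log (s / ‖c‖)) * (19 / 20) ^ S.lr x k) ^ 2 := by
    have a1 := eq_num (hL.trans hu) n3 u1
    have a2 : (S.orb (S.f^[k] x)).card * (C1 * (n + 1) / S.rel x k + γ) -
        (∑ y ∈ S.orb (S.f^[k] x), ea l c n (S.fib x k y) φ) / (S.rel x k : ℝ) ^ 2 ≤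
        (S.orb (S.f^[k] x)).card * (K * ((n + 1) / S.rel x k)) := by
      have b0 : 0 ≤ γ * (S.rel x k : ℝ) * n := by positivity
      have b1 := div_le_div_of_nonneg_right (((mul_le_mul_of_nonneg_left
        (show (S.rel x k : ℝ) ^ 2 * γ - (2 * C2 + 3 * γ) * S.rel x k * (n + 1) ≤ _ by linarith)
        D0.le)).trans l2) (sq_nonneg (S.rel x k : ℝ))
      refine (sub_le_sub_left b1 _).trans_eq ?_
      rw [hK]
      field_simp
      ring
    rw [mul_pow, Real.sq_sqrt (by positivity)]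
    refine le_of_mul_le_mul_left (s1.trans ((mul_le_mul_of_nonneg_left a2 (by positivity)).trans
      ?_)) c0
    calc _ = (S.orb (S.f^[k] x)).card * (Q * K) *
          ((8 : ℝ) ^ L * ((n + 1) / S.rel x k)) := by ring
      _ ≤ (S.orb (S.f^[k] x)).card * (Q * K) * (5 * ((19 / 20 : ℝ) ^ S.lr x k) ^ 2) := by
        gcongr
      _ = _ := by field_simp
  set B := √(5 * (Q * K) / Real.log (s / ‖c‖)) * (19 / 20 : ℝ) ^ S.lr x k with hB
  have B0 : 0 ≤ B := by positivity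
  have s3 : (∑ y ∈ S.orb (S.f^[k] x), w y * Dy y) / (S.orb (S.f^[k] x)).card ≤ B := by
    refine le_trans (le_abs_self _) (abs_le_of_sq_le_sq ?_ B0)
    rw [div_pow, div_le_iff₀ (by positivity)]
    refine (sum_mul_sq_le_sq_mul_sq _ _ _).trans ((mul_le_mul (sum_le_sum (g := fun _ => (1 : ℝ))
      fun y _ => by nlinarith [(hw y).1, (hw y).2]) s2 (sum_nonneg fun _ _ => sq_nonneg _)
      (sum_nonneg fun y _ => zero_le_one)).trans_eq ?_)
    rw [sum_const, nsmul_eq_mul]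
    ring
  rw [sub_le_comm]
  refine le_trans ?_ s3
  rw [Sys.av, Sys.av, Sys.sum_orb x k, Sys.card_orb x k, Nat.cast_mul, ← div_div, ← mul_div_assoc,
    ← sub_div, sum_div, mul_sum, ← sum_sub_distrib]
  refine div_le_div_of_nonneg_right (sum_le_sum fun y _ => ?_) D0.le
  rw [sum_congr rfl (g := fun z => ind (E (φ z)) * w y)
    fun z hz => by rw [(Sys.mem_fib.mp hz).2], ← sum_mul, mul_div_right_comm, ← sub_mul, mul_comm]
  exact mul_le_mul_of_nonneg_left (le_max_left _ _) (hw y).1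

end Pool.Agent.Lib.MP_a2c890_nt.Q2
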