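import Pool.Agent.Lib.MP_a2c890_nt.Q2.Int

set_option autoImplicit false
set_option linter.unusedSectionVars false

namespace Pool.Agent.Lib.MP_a2c890_nt.Q2

open T R Finset

theorem ex_gap (g : ℕ → ℝ) {ρ s : ℝ} (h : ρ < s) (n : ℕ) :
    ∃ t, ρ < t ∧ t ≤ s ∧ ∀ j < n, g j ≤ ρ ∨ t ≤ g j := by
  induction n with
  | zero => exact ⟨s, h, le_rfl, fun _ h => absurd h (Nat.not_lt_zero _)⟩
  | succ n ih =>
    obtain ⟨t, a, b, d⟩ := ih
    rcases le_or_gt (g n) ρ with e | e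
    · exact ⟨t, a, b, Nat.forall_lt_succ_right.2 ⟨d, Or.inl e⟩⟩
    · exact ⟨min t (g n), lt_min a e, (min_le_left _ _).trans b, Nat.forall_lt_succ_right.2
        ⟨fun j hj => (d j hj).imp_right (min_le_left _ _).trans, Or.inr (min_le_right _ _)⟩⟩

section

variable {F : Type*} [NormedField F] [IsUltrametricDist F] {l c x : F} {s t : ℝ} {Q : ℕ}

theorem ex_mod (hl : ‖l‖ = 1) (Q0 : 0 < Q) (per : ‖cen l Q‖ ≤ ‖c‖) (j : ℕ) :
    ‖cen l j - cen l (j % Q)‖ ≤ ‖c‖ := by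
  induction j using Nat.strong_induction_on with
  | _ j ih =>
    rcases lt_or_ge j Q with h | h
    · rw [Nat.mod_eq_of_lt h, sub_self, norm_zero]; exact norm_nonneg _
    · obtain ⟨k, rfl⟩ := Nat.exists_eq_add_of_le h
      have := cen_sub hl Q 0 k
      rw [zero_add, cen_zero, sub_zero] at this
      rw [Nat.add_mod_left]
      exact utri_le (this ▸ per) (ih k (by omega))

theorem ex_cy (hl : ‖l‖ = 1) (c0 : c ≠ 0) (c1 : ‖c‖ < 1) (two : ‖(2 : F)‖ = 1) (Q0 : 0 < Q)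
    (per : ‖cen l Q‖ ≤ ‖c‖) : ∃ s, Cy l c s Q := by
  obtain ⟨s, a, b, d⟩ := ex_gap (fun j => ‖cen l j‖) c1 Q
  refine ⟨s, hl, c0, two, a, b, fun j => ?_, Q0, per⟩
  have e := ex_mod hl Q0 per j
  rcases d _ (Nat.mod_lt j Q0) with k | k
  · left
    rw [← sub_add_cancel (cen l j) (cen l (j % Q))]
    exact uadd_le e k
  · right
    rwa [norm_eq_of_lt ((e.trans_lt a).trans_le k)]

theorem Cy.ex_shrink (C : Cy l c s Q) (h1 : ‖c‖ < t) (h2 : t ≤ s) : Cy l c t Q :=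
  ⟨C.hl, C.c0, C.two, h1, h2.trans C.le1, fun j => (C.sep j).imp_right h2.trans, C.Q0, C.per⟩

theorem Off.ex_mono (h : Off l c s x) (h2 : t ≤ s) : Off l c t x :=
  fun ⟨j, hj⟩ => h ⟨j, hj.trans_le h2⟩

theorem Cy.ex_step (C : Cy l c s Q) (h : ¬ Out l s x) : ¬ Out l s (fm l c x) := fun ⟨j, hj⟩ => by
  obtain ⟨i, hi⟩ : ∃ i, Q + j = i + 1 := ⟨Q + j - 1, by have := C.Q0; omega⟩
  refine h ⟨i, ?_⟩
  rw [← (C.collar (fun k => h (C.inn_out k)) i).1, ← hi]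
  exact utri_lt hj (by rw [norm_sub_rev]; exact (C.shift j).trans_lt C.lt)

theorem Cy.ex_orb (C : Cy l c s Q) (v : F) :
    ∃ t, ‖c‖ < t ∧ t ≤ s ∧ ∀ i, Off l c t ((fm l c)^[i] v) := by
  by_cases h : ∀ i, Inn l c ((fm l c)^[i] v)
  · exact ⟨s, C.lt, le_rfl, fun i _ => h i⟩
  obtain ⟨n, hn⟩ := not_forall.1 h
  obtain ⟨t, a, b, d⟩ := ex_gap (fun j => ‖(fm l c)^[n] v - cen l j‖) C.lt Q
  have C' := C.ex_shrink a b
  have k : ∀ i, ¬ Out l t ((fm l c)^[i] ((fm l c)^[n] v)) := fun i => by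
    induction i with
    | zero =>
      rintro ⟨j, hj⟩
      rcases d _ (Nat.mod_lt j C.Q0) with e | e
      · exact hn ⟨_, e⟩
      · exact absurd (utri_lt hj ((C.cen_mod j).trans_lt a)) (not_lt.mpr e)
    | succ i ih => rw [Function.iterate_succ_apply']; exact C'.ex_step ih
  refine ⟨t, a, b, fun i => C'.off_of_iter (i := n) fun o => absurd ?_ (k i)⟩
  rwa [← Function.iterate_add_apply, add_comm, Function.iterate_add_apply]

end

variable {p : ℕ} [Fact p.Prime]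

theorem ex_per {l : PadicAlgCl p} (hl : ‖l‖ = 1) {ε : ℝ} (h : 0 < ε) :
    ∃ Q, 0 < Q ∧ ‖cen l Q‖ ≤ ε := by
  let L := IntermediateField.adjoin ℚ_[p] {l}
  have : FiniteDimensional ℚ_[p] L.toSubalgebra.toSubmodule :=
    IntermediateField.adjoin.finiteDimensional (Algebra.IsIntegral.isIntegral (R := ℚ_[p]) l)
  have : ProperSpace L.toSubalgebra.toSubmodule := FiniteDimensional.proper ℚ_[p] _
  have h1 : ∀ n, cen l n ∈ L := fun n => by
    induction n with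
    | zero => exact zero_mem _
    | succ n ih =>
      rw [cen_succ]
      exact add_mem (mul_mem (IntermediateField.mem_adjoin_simple_self _ l) ih) (one_mem _)
  let g : ℕ → L.toSubalgebra.toSubmodule := fun n => ⟨cen l n, h1 n⟩
  obtain ⟨x, -, φ, hφ, hx⟩ := (isCompact_closedBall (0 : L.toSubalgebra.toSubmodule) 1).tendsto_subseq
    (x := g) (fun n => by rw [mem_closedBall_zero_iff]; exact cen_le hl n)
  obtain ⟨N, hN⟩ := Metric.cauchySeq_iff.mp hx.cauchySeq ε h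
  obtain ⟨k, hk⟩ := Nat.exists_eq_add_of_lt (hφ (Nat.lt_add_one N))
  have e : ‖cen l (φ (N + 1)) - cen l (φ N)‖ < ε := by
    have := hN (N + 1) (Nat.le_succ _) N le_rfl
    rw [dist_eq_norm] at this
    exact this
  have e1 := cen_sub hl (k + 1) 0 (φ N)
  rw [zero_add, cen_zero, sub_zero, show k + 1 + φ N = φ (N + 1) by omega] at e1
  exact ⟨k + 1, k.succ_pos, e1 ▸ e.le⟩

/-- the cycle of discs exists, and the collars can be made free of three orbits -/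
theorem exists_cy (hp : p ≠ 2) {l c : PadicAlgCl p} (hl : ‖l‖ = 1) (c0 : c ≠ 0) (c1 : ‖c‖ < 1)
    (β : PadicAlgCl p) : ∃ (s : ℝ) (Q : ℕ), Cy l c s Q ∧ CvOff l c s ∧ Off l c s β := by
  have two : ‖(2 : PadicAlgCl p)‖ = 1 := by
    have := norm_coprime (np1 (p := p)) ((Nat.coprime_primes Fact.out Nat.prime_two).2 hp)
    exact_mod_cast this
  obtain ⟨Q, Q0, per⟩ := ex_per hl (norm_pos_iff.mpr c0)
  obtain ⟨s, C⟩ := ex_cy hl c0 c1 two Q0 per
  obtain ⟨s1, a1, b1, d1⟩ := C.ex_orb (1 + 2 * l * c)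
  obtain ⟨s2, a2, b2, d2⟩ := (C.ex_shrink a1 b1).ex_orb (1 - 2 * l * c)
  obtain ⟨s3, a3, b3, d3⟩ := (C.ex_shrink a2 (b2.trans b1)).ex_orb β
  refine ⟨s3, Q, C.ex_shrink a3 (b3.trans (b2.trans b1)), ?_, d3 0⟩
  rintro v (rfl | rfl) i
  · exact (d1 i).ex_mono (b3.trans b2)
  · exact (d2 i).ex_mono b3

end Pool.Agent.Lib.MP_a2c890_nt.Q2
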