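import Pool.Agent.Lib.MP_a2c890_nt.Q2.Int

set_option autoImplicit false
set_option linter.unusedSectionVars false

namespace Pool.Agent.Lib.MP_a2c890_nt.Q2

open T R Finset MvPolynomial

theorem nrm_quad {A : Type*} [CommRing A] {P : MvPolynomial (Fin 2) A} (hP : P.IsHomogeneous 2) :
    ∃ a b c : A, P = C a * X 0 ^ 2 + C b * (X 0 * X 1) + C c * X 1 ^ 2 := by
  rw [P.as_sum]
  refine Finset.sum_induction _ (fun Q : MvPolynomial (Fin 2) A =>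
    ∃ a b c : A, Q = C a * X 0 ^ 2 + C b * (X 0 * X 1) + C c * X 1 ^ 2) ?_ ⟨0, 0, 0, by simp⟩ ?_
  · rintro _ _ ⟨a, b, c, rfl⟩ ⟨a', b', c', rfl⟩
    exact ⟨a + a', b + b', c + c', by simp only [map_add]; ring⟩
  · intro d hd
    have h2 : d 0 + d 1 = 2 := by
      have := hP (mem_support_iff.1 hd)
      simpa [Finsupp.weight_apply, Finsupp.sum_fintype, Fin.sum_univ_two] using this
    rw [monomial_eq, Finsupp.prod_fintype _ _ (by simp), Fin.prod_univ_two]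
    have h3 : (d 0 = 2 ∧ d 1 = 0) ∨ (d 0 = 1 ∧ d 1 = 1) ∨ (d 0 = 0 ∧ d 1 = 2) := by omega
    rcases h3 with ⟨h, h'⟩ | ⟨h, h'⟩ | ⟨h, h'⟩ <;> rw [h, h']
    · exact ⟨coeff d P, 0, 0, by simp⟩
    · exact ⟨0, coeff d P, 0, by simp⟩
    · exact ⟨0, 0, coeff d P, by simp⟩

theorem nrm_ineq {A : Type*} [NormedField A] [IsUltrametricDist A] (two : ‖(2 : A)‖ = 1)
    {μ ν b q e x y : A} (m0 : μ ≠ 0) (hq : ‖q‖ = ‖μ‖) (hw : x ≠ 0 ∨ y ≠ 0)
    (h1 : μ * x ^ 2 + b * x * y + e * y ^ 2 = ν * x) (h2 : q * x * y = ν * y)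
    (hj : ‖ν‖ ^ 2 < ‖2 * q * (μ * x ^ 2 - e * y ^ 2)‖) : e ≠ 0 ∧ ‖e‖ * ‖μ‖ < ‖b‖ ^ 2 := by
  have mp := norm_pos_iff.2 m0
  rw [norm_mul, norm_mul, two, one_mul, hq] at hj
  have y0 : y ≠ 0 := by
    rintro rfl
    have x0 : x ≠ 0 := hw.resolve_right (by simp)
    have : ν = μ * x := mul_right_cancel₀ x0 (by linear_combination -h1)
    rw [this] at hj
    simp only [norm_mul, norm_pow, ne_eq, OfNat.ofNat_ne_zero, not_false_eq_true, zero_pow,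
      mul_zero, sub_zero] at hj
    nlinarith
  have yp := norm_pos_iff.2 y0
  have hν : ν = q * x := mul_right_cancel₀ y0 h2.symm
  rw [hν, norm_mul, hq] at hj
  have a1 : ‖μ‖ * ‖x‖ ^ 2 < ‖μ * x ^ 2 - e * y ^ 2‖ :=
    lt_of_mul_lt_mul_left (a := ‖μ‖) (by nlinarith) mp.le
  have a2 : ‖μ‖ * ‖x‖ ^ 2 < ‖e‖ * ‖y‖ ^ 2 := by
    have := IsUltrametricDist.norm_add_le_max (μ * x ^ 2) (-(e * y ^ 2))
    rw [← sub_eq_add_neg, norm_neg, norm_mul, norm_mul, norm_pow, norm_pow] at this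
    rcases le_max_iff.1 this with h | h <;> linarith
  have a3 : ‖e‖ * ‖y‖ ^ 2 ≤ ‖b‖ * ‖x‖ * ‖y‖ := by
    have e1 : e * y ^ 2 = (q + -μ) * x ^ 2 + -(b * x * y) := by
      rw [hν] at h1
      linear_combination h1
    have := IsUltrametricDist.norm_add_le_max ((q + -μ) * x ^ 2) (-(b * x * y))
    rw [← e1, norm_neg, norm_mul, norm_mul, norm_mul, norm_mul, norm_pow, norm_pow] at this
    have h3 := IsUltrametricDist.norm_add_le_max q (-μ)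
    rw [norm_neg, hq, max_self] at h3
    rcases le_max_iff.1 this with h | h
    · nlinarith [sq_nonneg ‖x‖]
    · exact h
  have a4 : ‖e‖ * ‖y‖ ≤ ‖b‖ * ‖x‖ := le_of_mul_le_mul_right (a := ‖y‖) (by nlinarith) yp
  have e0 : e ≠ 0 := by
    rintro rfl
    rw [norm_zero, zero_mul] at a2
    nlinarith [sq_nonneg ‖x‖]
  have ep := norm_pos_iff.2 e0
  refine ⟨e0, lt_of_mul_lt_mul_right (a := ‖x‖ ^ 2) ?_ (sq_nonneg _)⟩
  calc ‖e‖ * ‖μ‖ * ‖x‖ ^ 2 = ‖e‖ * (‖μ‖ * ‖x‖ ^ 2) := by ring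
    _ < ‖e‖ * (‖e‖ * ‖y‖ ^ 2) := mul_lt_mul_of_pos_left a2 ep
    _ = (‖e‖ * ‖y‖) ^ 2 := by ring
    _ ≤ (‖b‖ * ‖x‖) ^ 2 := pow_le_pow_left₀ (by positivity) a4 2
    _ = ‖b‖ ^ 2 * ‖x‖ ^ 2 := by ring

/-- normal form of a quadratic map with an indifferent and a repelling fixed point -/
theorem normal {A : Type*} [NormedField A] [IsUltrametricDist A] [IsAlgClosed A]
    {P R : MvPolynomial (Fin 2) A} (hP : P.IsHomogeneous 2) (hR : R.IsHomogeneous 2)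
    (nz : ∀ v : Fin 2 → A, eval v P = 0 → eval v R = 0 → v = 0) (two : ‖(2 : A)‖ = 1)
    {u w : Fin 2 → A} {μ ν : A} (hu : u ≠ 0) (hw : w ≠ 0)
    (fu : ![eval u P, eval u R] = μ • u) (fw : ![eval w P, eval w R] = ν • w)
    (ju : ‖eval u (pderiv 0 P * pderiv 1 R - pderiv 1 P * pderiv 0 R)‖ = ‖μ‖ ^ 2)
    (jw : ‖ν‖ ^ 2 < ‖eval w (pderiv 0 P * pderiv 1 R - pderiv 1 P * pderiv 0 R)‖) :
    ∃ a b e d l c : A, a * d - b * e ≠ 0 ∧ ‖l‖ = 1 ∧ c ≠ 0 ∧ ‖c‖ < 1 ∧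
      ∀ v, ![eval (mv a b e d v) P, eval (mv a b e d v) R] = mv a b e d (Psi l c v) := by
  have m0 : μ ≠ 0 := by
    rintro rfl
    exact hu (nz u (by simpa using congrFun fu 0) (by simpa using congrFun fu 1))
  have mp := norm_pos_iff.2 m0
  obtain ⟨p0, p1, p2, rfl⟩ := nrm_quad hP
  obtain ⟨r0, r1, r2, rfl⟩ := nrm_quad hR
  have J : ∀ z : Fin 2 → A, eval z (pderiv 0 (C p0 * X 0 ^ 2 + C p1 * (X 0 * X 1) + C p2 * X 1 ^ 2) *
      pderiv 1 (C r0 * X 0 ^ 2 + C r1 * (X 0 * X 1) + C r2 * X 1 ^ 2) -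
      pderiv 1 (C p0 * X 0 ^ 2 + C p1 * (X 0 * X 1) + C p2 * X 1 ^ 2) *
      pderiv 0 (C r0 * X 0 ^ 2 + C r1 * (X 0 * X 1) + C r2 * X 1 ^ 2) : MvPolynomial (Fin 2) A) =
      (2 * p0 * z 0 + p1 * z 1) * (r1 * z 0 + 2 * r2 * z 1) -
        (p1 * z 0 + 2 * p2 * z 1) * (2 * r0 * z 0 + r1 * z 1) := by
    intro z
    simp [pderiv_X]
    ring
  rw [J] at ju jw
  have u0 := congrFun fu 0
  have u1 := congrFun fu 1
  have w0 := congrFun fw 0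
  have w1 := congrFun fw 1
  simp only [map_add, map_mul, map_pow, eval_C, eval_X, Matrix.cons_val_zero, Matrix.cons_val_one,
    Pi.smul_apply, smul_eq_mul] at u0 u1 w0 w1
  have hw' : w 0 ≠ 0 ∨ w 1 ≠ 0 := by
    by_contra h
    push Not at h
    exact hw (funext fun i => by fin_cases i <;> simp [h.1, h.2])
  obtain ⟨s0, s1, hs⟩ : ∃ s0 s1, u 0 * s1 - u 1 * s0 = 1 := by
    by_cases h : u 0 = 0
    · have h' : u 1 ≠ 0 := fun h' => hu (funext fun i => by fin_cases i <;> simp [h, h'])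
      exact ⟨-(u 1)⁻¹, 0, by field_simp; ring⟩
    · exact ⟨0, (u 0)⁻¹, by field_simp; ring⟩
  generalize u 0 = x0, u 1 = x1, w 0 = y0, w 1 = y1 at *
  obtain ⟨q, hq⟩ : ∃ q, q = x0 * (2 * r0 * x0 * s0 + r1 * (x0 * s1 + x1 * s0) + 2 * r2 * x1 * s1) -
    x1 * (2 * p0 * x0 * s0 + p1 * (x0 * s1 + x1 * s0) + 2 * p2 * x1 * s1) := ⟨_, rfl⟩
  have j1 : (2 * p0 * x0 + p1 * x1) * (r1 * x0 + 2 * r2 * x1) -
      (p1 * x0 + 2 * p2 * x1) * (2 * r0 * x0 + r1 * x1) = 2 * μ * q := by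
    rw [hq]
    linear_combination (-((2 * p0 * x0 + p1 * x1) * (r1 * x0 + 2 * r2 * x1) -
      (p1 * x0 + 2 * p2 * x1) * (2 * r0 * x0 + r1 * x1))) * hs +
      2 * (2 * r0 * x0 * s0 + r1 * (x0 * s1 + x1 * s0) + 2 * r2 * x1 * s1) * u0 -
      2 * (2 * p0 * x0 * s0 + p1 * (x0 * s1 + x1 * s0) + 2 * p2 * x1 * s1) * u1
  rw [j1, norm_mul, norm_mul, two, one_mul, sq] at ju
  have nq : ‖q‖ = ‖μ‖ := mul_left_cancel₀ mp.ne' ju
  have q0 : q ≠ 0 := norm_pos_iff.1 (nq ▸ mp)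
  obtain ⟨t, ht⟩ : ∃ t, t * q = -(x0 * (r0 * s0 ^ 2 + r1 * (s0 * s1) + r2 * s1 ^ 2) -
    x1 * (p0 * s0 ^ 2 + p1 * (s0 * s1) + p2 * s1 ^ 2)) := ⟨_, div_mul_cancel₀ _ q0⟩
  obtain ⟨v0, hv0⟩ : ∃ v0, v0 = s0 + t * x0 := ⟨_, rfl⟩
  obtain ⟨v1, hv1⟩ : ∃ v1, v1 = s1 + t * x1 := ⟨_, rfl⟩
  have hv : x0 * v1 - x1 * v0 = 1 := by rw [hv0, hv1]; linear_combination hs
  have hz : x0 * (r0 * v0 ^ 2 + r1 * (v0 * v1) + r2 * v1 ^ 2) -
      x1 * (p0 * v0 ^ 2 + p1 * (v0 * v1) + p2 * v1 ^ 2) = 0 := by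
    rw [hv0, hv1]
    linear_combination ht - t * hq + t ^ 2 * x0 * u1 - t ^ 2 * x1 * u0
  have hq' : q = x0 * (2 * r0 * x0 * v0 + r1 * (x0 * v1 + x1 * v0) + 2 * r2 * x1 * v1) -
      x1 * (2 * p0 * x0 * v0 + p1 * (x0 * v1 + x1 * v0) + 2 * p2 * x1 * v1) := by
    rw [hv0, hv1]
    linear_combination hq - 2 * t * x0 * u1 + 2 * t * x1 * u0
  obtain ⟨b, hb⟩ : ∃ b, b = (2 * p0 * x0 * v0 + p1 * (x0 * v1 + x1 * v0) + 2 * p2 * x1 * v1) * v1 -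
    (2 * r0 * x0 * v0 + r1 * (x0 * v1 + x1 * v0) + 2 * r2 * x1 * v1) * v0 := ⟨_, rfl⟩
  obtain ⟨e, he⟩ : ∃ e, e = (p0 * v0 ^ 2 + p1 * (v0 * v1) + p2 * v1 ^ 2) * v1 -
    (r0 * v0 ^ 2 + r1 * (v0 * v1) + r2 * v1 ^ 2) * v0 := ⟨_, rfl⟩
  have B0 : 2 * p0 * x0 * v0 + p1 * (x0 * v1 + x1 * v0) + 2 * p2 * x1 * v1 = b * x0 + q * v0 := by
    linear_combination -x0 * hb - v0 * hq' -
      (2 * p0 * x0 * v0 + p1 * (x0 * v1 + x1 * v0) + 2 * p2 * x1 * v1) * hv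
  have B1 : 2 * r0 * x0 * v0 + r1 * (x0 * v1 + x1 * v0) + 2 * r2 * x1 * v1 = b * x1 + q * v1 := by
    linear_combination -x1 * hb - v1 * hq' -
      (2 * r0 * x0 * v0 + r1 * (x0 * v1 + x1 * v0) + 2 * r2 * x1 * v1) * hv
  have E0 : p0 * v0 ^ 2 + p1 * (v0 * v1) + p2 * v1 ^ 2 = e * x0 := by
    linear_combination -x0 * he + v0 * hz - (p0 * v0 ^ 2 + p1 * (v0 * v1) + p2 * v1 ^ 2) * hv
  have E1 : r0 * v0 ^ 2 + r1 * (v0 * v1) + r2 * v1 ^ 2 = e * x1 := by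
    linear_combination -x1 * he + v1 * hz - (r0 * v0 ^ 2 + r1 * (v0 * v1) + r2 * v1 ^ 2) * hv
  clear hq ht hv0 hv1 hz hq' hb he hs j1 J
  obtain ⟨x, hx⟩ : ∃ x, x = y0 * v1 - y1 * v0 := ⟨_, rfl⟩
  obtain ⟨y, hy⟩ : ∃ y, y = x0 * y1 - x1 * y0 := ⟨_, rfl⟩
  have z0 : y0 = x * x0 + y * v0 := by linear_combination -x0 * hx - v0 * hy - y0 * hv
  have z1 : y1 = x * x1 + y * v1 := by linear_combination -x1 * hx - v1 * hy - y1 * hv
  have hxy : x ≠ 0 ∨ y ≠ 0 := by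
    by_contra h
    push Not at h
    rw [h.1, h.2] at z0 z1
    rcases hw' with h | h
    · exact h (by linear_combination z0)
    · exact h (by linear_combination z1)
  clear hx hy
  subst z0 z1
  have g0 : (μ * x ^ 2 + b * x * y + e * y ^ 2 - ν * x) * x0 + (q * x * y - ν * y) * v0 = 0 := by
    linear_combination w0 - x ^ 2 * u0 - x * y * B0 - y ^ 2 * E0
  have g1 : (μ * x ^ 2 + b * x * y + e * y ^ 2 - ν * x) * x1 + (q * x * y - ν * y) * v1 = 0 := by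
    linear_combination w1 - x ^ 2 * u1 - x * y * B1 - y ^ 2 * E1
  have j2 : (2 * p0 * (x * x0 + y * v0) + p1 * (x * x1 + y * v1)) *
      (r1 * (x * x0 + y * v0) + 2 * r2 * (x * x1 + y * v1)) -
      (p1 * (x * x0 + y * v0) + 2 * p2 * (x * x1 + y * v1)) *
      (2 * r0 * (x * x0 + y * v0) + r1 * (x * x1 + y * v1)) = 2 * q * (μ * x ^ 2 - e * y ^ 2) := by
    generalize hA : 2 * p0 * (x * x0 + y * v0) + p1 * (x * x1 + y * v1) = a1
    generalize hB : r1 * (x * x0 + y * v0) + 2 * r2 * (x * x1 + y * v1) = a2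
    generalize hC : p1 * (x * x0 + y * v0) + 2 * p2 * (x * x1 + y * v1) = a3
    generalize hD : 2 * r0 * (x * x0 + y * v0) + r1 * (x * x1 + y * v1) = a4
    have k1 : a1 * x0 + a3 * x1 = (2 * x * μ + y * b) * x0 + y * q * v0 := by
      linear_combination -x0 * hA - x1 * hC + 2 * x * u0 + y * B0
    have k2 : a4 * x0 + a2 * x1 = (2 * x * μ + y * b) * x1 + y * q * v1 := by
      linear_combination -x0 * hD - x1 * hB + 2 * x * u1 + y * B1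
    have k3 : a1 * v0 + a3 * v1 = (x * b + 2 * y * e) * x0 + x * q * v0 := by
      linear_combination -v0 * hA - v1 * hC + x * B0 + 2 * y * E0
    have k4 : a4 * v0 + a2 * v1 = (x * b + 2 * y * e) * x1 + x * q * v1 := by
      linear_combination -v0 * hD - v1 * hB + x * B1 + 2 * y * E1
    linear_combination (a4 * v0 + a2 * v1) * k1 + ((2 * x * μ + y * b) * x0 + y * q * v0) * k4 -
      (a1 * v0 + a3 * v1) * k2 - ((2 * x * μ + y * b) * x1 + y * q * v1) * k3 +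
      (2 * q * (μ * x ^ 2 - e * y ^ 2) - (a1 * a2 - a3 * a4)) * hv
  rw [j2] at jw
  obtain ⟨e0, hlt⟩ := nrm_ineq two (ν := ν) (b := b) m0 nq hxy
    (by linear_combination v1 * g0 - v0 * g1 - (μ * x ^ 2 + b * x * y + e * y ^ 2 - ν * x) * hv)
    (by linear_combination x0 * g1 - x1 * g0 - (q * x * y - ν * y) * hv) jw
  have ep := norm_pos_iff.2 e0
  have b0 : b ≠ 0 := by
    rintro rfl
    rw [norm_zero] at hlt
    nlinarith [mul_pos ep mp]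
  have bp := norm_pos_iff.2 b0
  obtain ⟨c, hc⟩ := IsAlgClosed.exists_pow_nat_eq (e * q ^ 2 / (μ * b ^ 2)) two_pos
  refine ⟨x0 / q, v0 / b, x1 / q, v1 / b, μ / q, c, ?_, by rw [norm_div, nq, div_self mp.ne'],
    ?_, ?_, fun v => ?_⟩
  · have : x0 / q * (v1 / b) - v0 / b * (x1 / q) = (q * b)⁻¹ := by
      field_simp
      linear_combination hv
    rw [this]
    exact inv_ne_zero (mul_ne_zero q0 b0)
  · rintro rfl
    exact div_ne_zero (mul_ne_zero e0 (pow_ne_zero 2 q0)) (mul_ne_zero m0 (pow_ne_zero 2 b0))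
      (by rw [← hc]; ring)
  · have h1 : ‖c‖ ^ 2 < 1 := by
      rw [← norm_pow, hc, norm_div, norm_mul, norm_mul, norm_pow, norm_pow, nq,
        div_lt_one (by positivity)]
      nlinarith
    nlinarith [norm_nonneg c]
  · funext i
    fin_cases i
    · simp only [mv, Psi, hc, map_add, map_mul, map_pow, eval_C, eval_X, Matrix.cons_val_zero,
        Matrix.cons_val_one, Fin.zero_eta]
      field_simp
      linear_combination b ^ 2 * v 0 ^ 2 * u0 + b * q * v 0 * v 1 * B0 + q ^ 2 * v 1 ^ 2 * E0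
    · simp only [mv, Psi, hc, map_add, map_mul, map_pow, eval_C, eval_X, Matrix.cons_val_zero,
        Matrix.cons_val_one, Fin.mk_one]
      field_simp
      linear_combination b ^ 2 * v 0 ^ 2 * u1 + b * q * v 0 * v 1 * B1 + q ^ 2 * v 1 ^ 2 * E1

end Pool.Agent.Lib.MP_a2c890_nt.Q2
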