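import Pool.Agent.Lib.MP_a2c890_nt.Q2.Asm
import Pool.Agent.Lib.MP_a2c890_nt.Q2.Eq
import Pool.Agent.Lib.MP_a2c890_nt.Q2.Ex
import Pool.Agent.Lib.MP_a2c890_nt.Q2.Brg
import Pool.Agent.Lib.MP_a2c890_nt.Q2.Nrm
import Pool.Agent.Lib.MP_a2c890_nt.R.Nor

set_option autoImplicit false
set_option linter.unusedSectionVars false

namespace Pool.Agent.Lib.MP_a2c890_nt.Q2

open T R Finset MvPolynomial

variable {p : ℕ} [Fact p.Prime]

/-- the abstract conclusion -/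
theorem fin_abs (hp : p ≠ 2) {l c : PadicAlgCl p} (hl : ‖l‖ = 1) (c0 : c ≠ 0) (c1 : ‖c‖ < 1)
    {S : Sys 2} {φ : S.Ω → PadicAlgCl p} (H : Aff S l c φ)
    (big : ∀ n : ℕ, ∃ m0, ∀ m, m0 ≤ m → ∀ x, S.lev m x → n < (S.orb x).card) :
    ∃ N : ℕ, ∀ n : ℕ, ∃ Y : Finset S.Ω, Y.card ≤ N ∧ ∀ x, S.lev n x → ∃ s ∈ Y, x ∈ S.orb s := by
  obtain ⟨s, Q, C, cv, hb⟩ := exists_cy hp hl c0 c1 (φ S.b)
  obtain ⟨A, A0, E⟩ := C.equi cv H hb
  have M1 := C.M1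
  obtain ⟨u1, hu⟩ := mainQ S (k := 24) (C := A + 20) (lam := 19 / 20)
    (υ := 1 / (1080 * (Q * 2 ^ (Q + 1)) ^ 2)) (by linarith) (by norm_num) (by norm_num)
    (by positivity) (by rw [div_le_one (by positivity)]; nlinarith)
  have big' : ∀ u : ℕ, ∃ m0, ∀ m x, m0 ≤ m → S.lev m x → u ≤ S.lr x m := fun u => by
    obtain ⟨m0, h⟩ := big (2 ^ u)
    exact ⟨m0, fun m x hm hx => Nat.le_log_of_pow_le one_lt_two
      ((h m hm x hx).le.trans_eq (Sys.rel_lev hx).symm)⟩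
  obtain ⟨n0, h0⟩ := big' u1
  obtain ⟨U1, h1⟩ := hu n0 h0 (C.hasWQ H E n0)
  obtain ⟨m1, h2⟩ := big' U1
  exact Sys.cover_of (by norm_num) (m0 := max n0 m1) fun m hm x hx =>
    h1 m x (by omega) hx (h2 _ _ (by omega) hx)

/-- quadratic maps with an indifferent and a repelling fixed point at an odd place -/
theorem mixed {K : Type} [Field K] [NumberField K] {F G : MvPolynomial (Fin 2) K}
    (hF : F.IsHomogeneous 2) (hG : G.IsHomogeneous 2)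
    (nz : ∀ v : Fin 2 → AlgebraicClosure K, aeval v F = 0 → aeval v G = 0 → v = 0)
    (hp : p ≠ 2) (ι : K →+* PadicAlgCl p) {u w : Fin 2 → PadicAlgCl p} {μ ν : PadicAlgCl p}
    (hu : u ≠ 0) (hw : w ≠ 0) (fu : ![eval₂ ι u F, eval₂ ι u G] = μ • u)
    (fw : ![eval₂ ι w F, eval₂ ι w G] = ν • w) {a b : PadicAlgCl p}
    (ju : eval₂ ι u (pderiv 0 F * pderiv 1 G - pderiv 1 F * pderiv 0 G) = 2 * μ ^ 2 * a)
    (jw : eval₂ ι w (pderiv 0 F * pderiv 1 G - pderiv 1 F * pderiv 0 G) = 2 * ν ^ 2 * b)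
    (ha : ‖a‖ = 1) (hb : 1 < ‖b‖) {β : Fin 2 → K} (hβ : β ≠ 0)
    (hper : ∀ P, 0 < P → dt ((ev F G)^[P] β) β ≠ 0) :
    ∃ C : ℕ, ∀ n : ℕ, ∃ S : Finset (Fin 2 → AlgebraicClosure K), S.card ≤ C ∧
      ∀ v : Fin 2 → AlgebraicClosure K, v ≠ 0 →
        dt ((ev F G)^[n] v) (algebraMap K (AlgebraicClosure K) ∘ β) = 0 →
        ∃ s ∈ S, ∃ σ : AlgebraicClosure K ≃ₐ[K] AlgebraicClosure K,
          ∃ c : AlgebraicClosure K, c ≠ 0 ∧ v = c • fun i => σ (s i) := by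
  let _ := ι.toAlgebra
  have D : Glb K 2 F G β := ⟨le_rfl, hF, hG, nz, hβ⟩
  have two : ‖(2 : PadicAlgCl p)‖ = 1 := by
    exact_mod_cast norm_coprime np1 ((Nat.coprime_primes Fact.out Nat.prime_two).2 hp)
  have e1 : ∀ (H : MvPolynomial (Fin 2) K) (v : Fin 2 → PadicAlgCl p),
      eval v (map ι H) = eval₂ ι v H := fun H v => (eval₂_eq_eval_map ι v H).symm
  have nz' : ∀ v : Fin 2 → PadicAlgCl p, eval v (map ι F) = 0 → eval v (map ι G) = 0 → v = 0 :=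
    fun v h1 h2 => by
    obtain ⟨ρ, r0, hρ⟩ := D.low (p := p)
    have := hρ v
    rw [e1] at h1 h2
    rw [show ev F G v = 0 by ext i; fin_cases i; exacts [h1, h2], norm_zero] at this
    exact norm_eq_zero.1 (pow_eq_zero_iff two_ne_zero |>.1
      (le_antisymm (nonpos_of_mul_nonpos_right this r0) (by positivity)))
  have ν0 : ν ≠ 0 := fun e => by
    rw [e, zero_smul] at fw
    exact hw (nz' w ((e1 _ _).trans (congrFun fw 0)) ((e1 _ _).trans (congrFun fw 1)))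
  have jm : pderiv 0 (map ι F) * pderiv 1 (map ι G) - pderiv 1 (map ι F) * pderiv 0 (map ι G) =
      map ι (pderiv 0 F * pderiv 1 G - pderiv 1 F * pderiv 0 G) := by
    simp only [map_sub, map_mul, pderiv_map]
  obtain ⟨a', b', e, d, l, c, hdet, hl, c0, c1, hΨ⟩ := normal (hF.map ι) (hG.map ι) nz' two hu hw
    (by rw [e1, e1, fu]) (by rw [e1, e1, fw])
    (by rw [jm, e1, ju, norm_mul, norm_mul, two, ha, norm_pow, one_mul, mul_one])
    (by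
      rw [jm, e1, jw, norm_mul, norm_mul, two, norm_pow, one_mul]
      exact lt_mul_of_one_lt_right (pow_pos (norm_pos_iff.2 ν0) 2) hb)
  obtain ⟨s, Q, C, -⟩ := exists_cy hp hl c0 c1 0
  obtain ⟨φ, H⟩ := aff_of D C hdet (fun v => by rw [← hΨ v, e1, e1]; rfl) hper
  obtain ⟨N, hN⟩ := fin_abs hp hl c0 c1 H (D.deg_large hper)
  exact ⟨N, top D hN⟩

end Pool.Agent.Lib.MP_a2c890_nt.Q2
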