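import Pool.Agent.Lib.MP_a2c890_nt.Q2.Sig
import Pool.Agent.Lib.MP_a2c890_nt.R.Defs

set_option autoImplicit false
set_option linter.unusedSectionVars false

namespace Pool.Agent.Lib.MP_a2c890_nt.Q2

open T R Finset

/-- homogeneous form of the map -/
def Psi {A : Type*} [CommRing A] (l c : A) (v : Fin 2 → A) : Fin 2 → A :=
  ![l * v 0 ^ 2 + v 0 * v 1 + l * c ^ 2 * v 1 ^ 2, v 0 * v 1]

section

variable {F : Type*} [NormedField F]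

/-- truncated potential -/
noncomputable def La (l c : F) : ℕ → F → ℝ
  | 0, _ => 0
  | n + 1, x => (Real.log ‖x‖ + La l c n (fm l c x)) / 2

open Classical in
/-- normalised discrete energy -/
noncomputable def ea {α : Type*} (l c : F) (n : ℕ) (X : Finset α) (v : α → F) : ℝ :=
  ∑ a ∈ X, ∑ b ∈ X.erase a, (Real.log ‖v a - v b‖ - La l c n (v a) - La l c n (v b))

end

variable {p : ℕ} [Fact p.Prime]

/-- the global system read in the affine local coordinate -/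
structure Aff (S : Sys 2) (l c : PadicAlgCl p) (φ : S.Ω → PadicAlgCl p) : Prop where
  pre : ∀ m z, S.lev m z → Pre l c m (φ S.b) (φ z)
  conj : ∀ m z, S.lev (m + 1) z → φ (S.f z) = fm l c (φ z)
  inj : ∀ m z z', S.lev m z → S.lev m z' → φ z = φ z' → z = z'
  gal : ∃ E : Finset (PadicAlgCl p), ∀ σ : Gl p, (∀ e ∈ E, σ e = e) →
    ∀ m z, S.lev m z → ∃ z' ∈ S.orb z, σ (φ z) = φ z'
  gl : ∃ C : ℝ, 0 ≤ C ∧ ∀ ν M : ℕ, 0 < M → M ≤ 2 ^ ν → ∃ e : ℝ,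
    (∀ (m k : ℕ) (x : S.Ω), S.lev m x → ν ≤ m → S.rel x k = M →
      (S.orb (S.f^[k] x)).card * (e - C * M * (ν + 1)) ≤
        ∑ y ∈ S.orb (S.f^[k] x), ea l c ν (S.fib x k y) φ) ∧
    ∀ X : Finset (PadicAlgCl p), X.card = M → (∀ x ∈ X, ∃ w, ‖w‖ ≤ 1 ∧ Pre l c ν w x) →
      ea l c ν X id ≤ e + C * M * (ν + 1)

/-- relative lower bound for the frequency of an event -/
def Lo (S : Sys 2) (C lam : ℝ) (u0 : ℕ) (E : S.Ω → Prop) (μ : ℝ) : Prop :=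
  ∀ (m k : ℕ) (x : S.Ω) (w : S.Ω → ℝ), S.lev m x → k ≤ m → u0 ≤ S.lr x k →
    (∀ y, 0 ≤ w y ∧ w y ≤ 1) →
      μ * S.av (S.f^[k] x) w - C * lam ^ S.lr x k ≤ S.av x fun z => ind (E z) * w (S.f^[k] z)

/-- relative upper bound for the frequency of an event -/
def Up (S : Sys 2) (C lam : ℝ) (u0 : ℕ) (E : S.Ω → Prop) (μ : ℝ) : Prop :=
  ∀ (m k : ℕ) (x : S.Ω) (w : S.Ω → ℝ), S.lev m x → k ≤ m → u0 ≤ S.lr x k →
    (∀ y, 0 ≤ w y ∧ w y ≤ 1) →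
      (S.av x fun z => ind (E z) * w (S.f^[k] z)) ≤ μ * S.av (S.f^[k] x) w + C * lam ^ S.lr x k

/-- one sided equidistribution of saturated events -/
def EQ (S : Sys 2) (l c : PadicAlgCl p) (s : ℝ) (φ : S.Ω → PadicAlgCl p) (C lam : ℝ) : Prop :=
  ∀ (L u0 : ℕ) (E : PadicAlgCl p → Prop) (μ : ℝ), 6 * L ≤ u0 → Sat l c s L E →
    (∀ n w, u0 ≤ n → Inn l c w → μ ≤ avg l c n (fun x => ind (E x)) w) →
    Lo S C lam u0 (fun z => E (φ z)) μ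

/-- the data attached to one local Galois element -/
structure WQ (S : Sys 2) (C lam υ : ℝ) (k n0 N : ℕ) (a b : ℝ) (B Bad Fx : S.Ω → Prop) : Prop where
  N1 : 1 ≤ N
  alo : (1 / 2 : ℝ) ^ N ≤ a
  ab : a ≤ b
  B1 : Up S C lam 0 Bad b
  B2 : Up S C lam (k * N) Bad (2 * a)
  FH : ∀ (W m : ℕ) (x : S.Ω), 0 < W → W * a ≤ υ → S.lev m x → k * (N + W) ≤ S.lr x m →
    υ * a - C * lam ^ S.lr x m ≤
      S.av x fun z => ind (B z ∧ ∀ j, 0 < j → j ≤ W → ¬ Bad (S.f^[j] z))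
  CL : ∀ (W m : ℕ) (I : Finset ℕ) (x : S.Ω), W * a ≤ υ → (∀ i ∈ I, i < W) → S.lev m x →
    k * (N + W) ≤ S.lr x m →
    υ * I.card * a - C * lam ^ S.lr x m ≤ S.av x fun z => ind (∃ i ∈ I, B (S.f^[i] z))
  sub : ∀ z, B z → Bad z
  F0 : ∀ z, S.lev n0 z → Fx z
  F1 : ∀ m z, S.lev (m + 1) z → Fx (S.f z) → S.rel z 1 = 1 → Fx z
  F2 : ∀ m z, S.lev (m + 1) z → Fx (S.f z) → ¬ Bad (S.f z) → Fx z
  F3 : ∀ m z, S.lev (m + 1) z → Fx z → ¬ B (S.f z)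

/-- for every large `U` there is a local Galois element in the window -/
def HasWQ (S : Sys 2) (C lam υ : ℝ) (k n0 : ℕ) : Prop :=
  ∀ η : ℝ, 0 < η → ∃ U0 : ℕ, ∀ U : ℕ, U0 ≤ U → ∃ (N : ℕ) (a b : ℝ) (B Bad Fx : S.Ω → Prop),
    WQ S C lam υ k n0 N a b B Bad Fx ∧ b * U ≤ η ∧ (N : ℝ) ≤ η * U

end Pool.Agent.Lib.MP_a2c890_nt.Q2
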