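import Pool.Agent.Lib.MP_a2c890_nt.Q2.Int

set_option autoImplicit false
set_option linter.unusedSectionVars false

namespace Pool.Agent.Lib.MP_a2c890_nt.Q2

open T R Finset

variable {S : Sys 2} {C lam υ a b : ℝ} {k n0 N : ℕ} {B Bad Fx : S.Ω → Prop}

/-- levels reached by a step that is not rational -/
noncomputable def grs (y : S.Ω) (T : ℕ) : Finset ℕ :=
  (range (T + 1)).filter fun i => 0 < i ∧ S.rel (S.f^[i - 1] y) 1 ≠ 1

theorem mem_grs {y : S.Ω} {T i : ℕ} :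
    i ∈ grs y T ↔ i ≤ T ∧ 0 < i ∧ S.rel (S.f^[i - 1] y) 1 ≠ 1 := by
  rw [grs, mem_filter, mem_range, Nat.lt_succ_iff]

theorem it_sub (z : S.Ω) {i l : ℕ} (h : i ≤ l) : S.f^[l - i] (S.f^[i] z) = S.f^[l] z := by
  rw [← Function.iterate_add_apply, Nat.sub_add_cancel h]

theorem grs_lt {y : S.Ω} {T l i i' : ℕ} (h : l ≤ i) (h' : i < i') (hi : i' ∈ grs y T) :
    S.lr (S.f^[l] y) (i - l) < S.lr (S.f^[l] y) (i' - l) :=
  (Sys.lr_mono _ (show i - l ≤ i' - 1 - l by omega)).trans_lt (Sys.uu_lt _ (by omega) (by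
    rw [it_sub y (by omega)]; exact (mem_grs.1 hi).2.2))

theorem grs_inj {y : S.Ω} {T l : ℕ} {I : Finset ℕ} (h : ∀ i ∈ I, i ∈ grs y T ∧ l ≤ i) :
    Set.InjOn (fun i => S.lr (S.f^[l] y) (i - l)) I := fun i hi j hj e => by
  rcases lt_trichotomy i j with c | c | c
  · exact absurd e (grs_lt (h i hi).2 c (h j hj).1).ne
  · exact c
  · exact absurd e (grs_lt (h j hj).2 c (h i hi).1).ne'

theorem grs_gt {y : S.Ω} {T m i i' : ℕ} (hT : T ≤ m) (h' : i < i') (hi : i' ∈ grs y T) :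
    S.lr (S.f^[i'] y) (m - i') < S.lr (S.f^[i] y) (m - i) := by
  obtain ⟨a1, a2, a3⟩ := mem_grs.1 hi
  exact (Sys.vv_lt y (show i' - 1 < i' by omega) (by omega) a3).trans_le
    (Sys.lr_sub y (by omega) le_rfl (by omega))

theorem grs_card {y : S.Ω} {T u : ℕ} {I : Finset ℕ} (h : ∀ i ∈ I, i ∈ grs y T ∧ S.lr y i ≤ u) :
    I.card ≤ u := by
  refine card_le_of_lt I (fun i => S.lr y i - 1) (fun i hi j hj e => ?_) fun i hi => ?_
  · have a1 := grs_lt (l := 0) le_rfl (mem_grs.1 (h i hi).1).2.1 (h i hi).1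
    have a2 := grs_lt (l := 0) le_rfl (mem_grs.1 (h j hj).1).2.1 (h j hj).1
    refine grs_inj (l := 0) (fun i hi => ⟨(h i hi).1, Nat.zero_le _⟩) hi hj ?_
    simp only [Nat.sub_zero, Function.iterate_zero, id] at a1 a2 e ⊢
    omega
  · have a1 := grs_lt (l := 0) le_rfl (mem_grs.1 (h i hi).1).2.1 (h i hi).1
    have := (h i hi).2
    simp only [Nat.sub_zero, Function.iterate_zero, id] at a1
    omega

theorem ind_ex_le {ι : Type*} {P : Prop} (I : Finset ι) (h : ι → ℝ) (h0 : ∀ i ∈ I, 0 ≤ h i)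
    (hP : P → ∃ i ∈ I, 1 ≤ h i) : ind P ≤ ∑ i ∈ I, h i := by
  by_cases e : P
  · obtain ⟨i, a1, a2⟩ := hP e
    rw [ind_pos e]; exact a2.trans (single_le_sum h0 a1)
  · rw [ind_neg e]; exact sum_nonneg h0

theorem Up.abs {u0 m : ℕ} {E : S.Ω → Prop} {μ : ℝ} (h : Up S C lam u0 E μ) {x : S.Ω}
    (hx : S.lev m x) (hu : u0 ≤ S.lr x m) :
    (S.av x fun z => ind (E z)) ≤ μ + C * lam ^ S.lr x m := by
  have := h m m x (fun _ => 1) hx le_rfl hu fun _ => ⟨zero_le_one, le_rfl⟩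
  simpa only [mul_one, Sys.av_one] using this

namespace WQ

variable (W : WQ S C lam υ k n0 N a b B Bad Fx)
include W

theorem a0 : 0 < a := lt_of_lt_of_le (by positivity) W.alo

theorem hist {T : ℕ} {x z : S.Ω} (hx : S.lev (n0 + T + 1) x) (hz : z ∈ S.orb x)
    (r : S.rel x 1 = 1) (j : ℕ) : ∀ l, l + j = T + 1 →
      (∀ i ∈ grs (S.f x) T, l ≤ i → ¬ Bad (S.f^[i] (S.f z))) → Fx (S.f^[l] z) := by
  induction j with
  | zero =>
    intro l e _
    have := Sys.lev_iter (Sys.lev_orb hx hz) (show l ≤ n0 + T + 1 by omega)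
    rw [show n0 + T + 1 - l = n0 by omega] at this
    exact W.F0 _ this
  | succ j ih =>
    intro l e h
    have h1 := ih (l + 1) (by omega) fun i a1 a2 => h i a1 (by omega)
    have h2 := Sys.lev_iter (Sys.lev_orb hx hz) (show l ≤ n0 + T + 1 by omega)
    rw [show n0 + T + 1 - l = (n0 + j) + 1 by omega] at h2
    rw [Function.iterate_succ_apply'] at h1
    by_cases c : S.rel (S.f^[l] x) 1 = 1
    · exact W.F1 _ _ h2 h1 ((Sys.rel_conj (Sys.f_orb l hz) 1).trans c)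
    · rcases l with _ | l
      · exact absurd r c
      · refine W.F2 _ _ h2 h1 ?_
        rw [← Function.iterate_succ_apply' S.f]
        exact h (l + 1) (mem_grs.2 ⟨by omega, by omega, c⟩) le_rfl

/-- a boundary event at a rational level forces a bad event at a higher growth level -/
theorem key {T l : ℕ} {x z : S.Ω} (hx : S.lev (n0 + T + 1) x) (r : S.rel x 1 = 1)
    (hz : z ∈ S.orb (S.f x)) (hl : l ≤ T) (fl : l ∉ grs (S.f x) T) (h : B (S.f^[l] z)) :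
    ∃ i ∈ grs (S.f x) T, l < i ∧ Bad (S.f^[i] z) := by
  obtain ⟨σ, rfl⟩ := Sys.mem_orb.mp hz
  rw [← S.eqv] at h ⊢
  have hz' : σ • x ∈ S.orb x := Sys.mem_orb.mpr ⟨σ, rfl⟩
  by_contra c
  have h1 := W.hist hx hz' r (T + 1 - l) l (by omega) fun i a1 a2 a3 =>
    c ⟨i, a1, lt_of_le_of_ne a2 fun e => fl (e ▸ a1), a3⟩
  have h2 := Sys.lev_iter (Sys.lev_orb hx hz') (show l ≤ n0 + T + 1 by omega)
  rw [show n0 + T + 1 - l = (n0 + T - l) + 1 by omega] at h2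
  refine W.F3 _ _ h2 h1 ?_
  rw [← Function.iterate_succ_apply' S.f]
  exact h

variable (C0 : 0 ≤ C) (l0 : 0 < lam) (l1 : lam < 1)
include C0 l0 l1

theorem tot {T u1 : ℕ} {y : S.Ω} (hy : S.lev (n0 + T) y)
    (hu : ∀ m y, n0 ≤ m → S.lev m y → u1 ≤ S.lr y m) :
    ∑ i ∈ grs y T, S.av (S.f^[i] y) (fun z => ind (Bad z)) ≤
      b * S.lr y (n0 + T) + C * (lam ^ u1 / (1 - lam)) := by
  have b0 : 0 ≤ b := W.a0.le.trans W.ab
  have lv : ∀ i ∈ grs y T, S.lev (n0 + T - i) (S.f^[i] y) := fun i hi =>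
    Sys.lev_iter hy (by have := (mem_grs.1 hi).1; omega)
  refine (sum_le_sum fun i hi => W.B1.abs (lv i hi) (Nat.zero_le _)).trans ?_
  rw [sum_add_distrib, sum_const, nsmul_eq_mul, ← mul_sum, mul_comm]
  refine add_le_add (mul_le_mul_of_nonneg_left (Nat.cast_le.2 (grs_card fun i hi =>
    ⟨hi, Sys.lr_mono y (by have := (mem_grs.1 hi).1; omega)⟩)) b0)
    (mul_le_mul_of_nonneg_left (geom_le _ _ (fun i hi j hj e => ?_)
      (fun i hi => hu _ _ (by have := (mem_grs.1 hi).1; omega) (lv i hi)) l0.le l1) C0)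
  rcases lt_trichotomy i j with c | c | c
  · exact absurd e (grs_gt (Nat.le_add_left T n0) c hj).ne'
  · exact c
  · exact absurd e (grs_gt (Nat.le_add_left T n0) c hi).ne

theorem pair {T u0 l : ℕ} {y : S.Ω} {η : ℝ} (hy : S.lev (n0 + T) y) (hk : k * N ≤ u0)
    (ht : ∑ i ∈ grs y T, S.av (S.f^[i] y) (fun z => ind (Bad z)) ≤ η)
    (hE : C * (lam ^ u0 / (1 - lam)) ≤ η * a) (hl : l ≤ T) {I : Finset ℕ}
    (hI : ∀ i ∈ I, i ∈ grs y T ∧ l ≤ i ∧ u0 ≤ S.lr (S.f^[l] y) (i - l)) :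
    ∑ i ∈ I, S.av y (fun z => ind (Bad (S.f^[l] z)) * ind (Bad (S.f^[i] z))) ≤ 3 * (η * a) := by
  have a0 := W.a0
  have h1 : ∀ i ∈ I, S.av y (fun z => ind (Bad (S.f^[l] z)) * ind (Bad (S.f^[i] z))) ≤
      2 * a * S.av (S.f^[i] y) (fun z => ind (Bad z)) + C * lam ^ S.lr (S.f^[l] y) (i - l) :=
    fun i hi => by
    obtain ⟨a1, a2, a3⟩ := hI i hi
    have := W.B2 _ (i - l) _ (fun z => ind (Bad z)) (Sys.lev_iter hy (show l ≤ n0 + T by omega))
      (by have := (mem_grs.1 a1).1; omega) (hk.trans a3) fun _ => ⟨ind_nonneg _, ind_le_one _⟩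
    rw [← Sys.av_comp y l, it_sub y a2] at this
    simpa only [it_sub _ a2] using this
  refine (sum_le_sum h1).trans ?_
  rw [sum_add_distrib, ← mul_sum, ← mul_sum]
  have h2 := (sum_le_sum_of_subset_of_nonneg (fun i hi => (hI i hi).1)
    fun i _ _ => Sys.av_nonneg (x := S.f^[i] y) fun z => ind_nonneg (Bad z)).trans ht
  have h3 := mul_le_mul_of_nonneg_left (geom_le I _ (grs_inj fun i hi => ⟨(hI i hi).1, (hI i hi).2.1⟩)
    (fun i hi => (hI i hi).2.2) l0.le l1) C0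
  nlinarith

theorem err {u0 u : ℕ} (h : u0 ≤ u) : C * lam ^ u ≤ C * (lam ^ u0 / (1 - lam)) :=
  mul_le_mul_of_nonneg_left ((pow_le_pow_of_le_one l0.le l1.le h).trans
    (le_div_self (pow_nonneg l0.le _) (by linarith) (by linarith))) C0

/-- a rational step at the top is impossible -/
theorem last {T u0 κ : ℕ} {x : S.Ω} {η : ℝ} (hx : S.lev (n0 + T + 1) x) (υ0 : 0 < υ) (υ1 : υ ≤ 1)
    (hη : η ≤ υ / 10) (hκ : 16 ≤ κ * υ) (u00 : 0 < u0) (hk : k * N ≤ u0)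
    (ht : ∑ i ∈ grs (S.f x) T, S.av (S.f^[i] (S.f x)) (fun z => ind (Bad z)) ≤ η)
    (hE : C * (lam ^ u0 / (1 - lam)) ≤ η * a) (hW : (κ * u0 : ℕ) * a ≤ υ) (hT : κ * u0 ≤ T)
    (h1 : k * (N + κ * u0) ≤ S.lr (S.f x) (n0 + T)) (h2 : 3 * u0 + 1 ≤ S.lr (S.f x) (n0 + T)) :
    S.rel x 1 ≠ 1 := by
  classical
  intro r
  have a0 := W.a0
  have hy : S.lev (n0 + T) (S.f x) := hx
  have κ0 : 0 < κ := Nat.pos_of_ne_zero fun e => by rw [e] at hκ; norm_num at hκ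
  have e1 := (W.err C0 l0 l1 (show u0 ≤ S.lr (S.f x) (n0 + T) by omega)).trans hE
  have i0 : ∀ P Q : Prop, 0 ≤ ind P * ind Q := fun _ _ => mul_nonneg (ind_nonneg _) (ind_nonneg _)
  rcases le_or_gt u0 (S.lr (S.f x) (κ * u0)) with c | c
  · have p1 := W.FH _ _ _ (Nat.mul_pos κ0 u00) hW hy h1
    have p2 := W.pair C0 l0 l1 hy hk ht hE (Nat.zero_le T)
      (I := (grs (S.f x) T).filter fun i => κ * u0 < i) fun i hi =>
        ⟨(mem_filter.1 hi).1, Nat.zero_le _, c.trans (Sys.lr_mono _ (mem_filter.1 hi).2.le)⟩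
    rw [← Sys.av_sum] at p2
    have p3 := p1.trans ((Sys.av_mono fun z hz => ind_ex_le _ _ (fun _ _ => i0 _ _) fun h => by
      obtain ⟨i, a1, a2, a3⟩ := W.key hx r hz (Nat.zero_le T)
        (fun e => lt_irrefl 0 (mem_grs.1 e).2.1) h.1
      exact ⟨i, mem_filter.2 ⟨a1, not_le.1 fun e => h.2 i a2 e a3⟩, by
        rw [ind_pos a3, ind_pos (show Bad (S.f^[0] z) from W.sub _ h.1), mul_one]⟩).trans p2)
    nlinarith [mul_le_mul_of_nonneg_right hη a0.le, mul_pos υ0 a0]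
  set y := S.f x
  set I := (range (κ * u0)).filter fun i => i ∉ grs y T
  set Nr := (grs y T).filter fun i => S.lr y i ≤ 2 * u0
  have cI : κ * u0 ≤ I.card + u0 := by
    have := card_filter_add_card_filter_not (s := range (κ * u0)) fun i => i ∈ grs y T
    have h3 := grs_card (y := y) (T := T) (u := u0)
      (I := (range (κ * u0)).filter fun i => i ∈ grs y T) fun i hi => ⟨(mem_filter.1 hi).2,
        (Sys.lr_mono _ (mem_range.1 (mem_filter.1 hi).1).le).trans c.le⟩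
    rw [card_range] at this
    exact this.ge.trans ((Nat.add_le_add_right h3 _).trans_eq (add_comm _ _))
  have mI : ∀ i ∈ I, i < κ * u0 := fun i hi => mem_range.1 (mem_filter.1 hi).1
  have p1 := W.CL _ _ I _ hW mI hy h1
  have p2 : ∑ i ∈ Nr, S.av y (fun z => ind (Bad (S.f^[i] z))) ≤ (2 * u0 : ℕ) * (2 * a + η * a) := by
    refine (sum_le_card_nsmul _ _ (2 * a + η * a) fun i hi => ?_).trans ?_
    · have a1 := (mem_grs.1 (mem_filter.1 hi).1).1
      have a2 := Sys.uv_le y (show i ≤ n0 + T by omega)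
      have a3 := (mem_filter.1 hi).2
      have a4 : u0 ≤ S.lr (S.f^[i] y) (n0 + T - i) := by omega
      rw [Sys.av_comp y i fun z => ind (Bad z)]
      exact (W.B2.abs (Sys.lev_iter hy (by omega)) (hk.trans a4)).trans
        (add_le_add_right ((W.err C0 l0 l1 a4).trans hE) _)
    · rw [nsmul_eq_mul]
      refine mul_le_mul_of_nonneg_right (Nat.cast_le.2 (grs_card fun i hi => mem_filter.1 hi)) ?_
      have := (mul_nonneg C0 (pow_nonneg l0.le _)).trans e1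
      positivity
  have p3 : ∑ l ∈ I, ∑ i ∈ (grs y T).filter (fun i => l < i ∧ 2 * u0 < S.lr y i),
      S.av y (fun z => ind (Bad (S.f^[l] z)) * ind (Bad (S.f^[i] z))) ≤ I.card * (3 * (η * a)) := by
    rw [← nsmul_eq_mul]
    refine sum_le_card_nsmul _ _ _ fun l hl => W.pair C0 l0 l1 hy hk ht hE
      ((mI l hl).le.trans hT) fun i hi => ?_
    obtain ⟨a1, a2, a3⟩ := mem_filter.1 hi
    have a4 := Sys.uv_le y a2.le
    have a5 := Sys.lr_mono y (mI l hl).le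
    exact ⟨a1, a2.le, by omega⟩
  simp only [← Sys.av_sum] at p2 p3
  have p4 := add_le_add p2 p3
  rw [← Sys.av_add] at p4
  have p5 := p1.trans ((Sys.av_mono fun z hz => by
    have s1 : 0 ≤ ∑ i ∈ Nr, ind (Bad (S.f^[i] z)) := sum_nonneg fun _ _ => ind_nonneg _
    have s2 : ∀ l ∈ I, 0 ≤ ∑ i ∈ (grs y T).filter (fun i => l < i ∧ 2 * u0 < S.lr y i),
        ind (Bad (S.f^[l] z)) * ind (Bad (S.f^[i] z)) := fun _ _ => sum_nonneg fun _ _ => i0 _ _
    by_cases h : ∃ i ∈ I, B (S.f^[i] z)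
    · obtain ⟨l, a1, a2⟩ := h
      obtain ⟨i, a3, a4, a5⟩ := W.key hx r hz ((mI l a1).le.trans hT) (mem_filter.1 a1).2 a2
      refine (ind_le_one _).trans ?_
      rcases le_or_gt (S.lr y i) (2 * u0) with d | d
      · refine le_add_of_le_of_nonneg (le_trans (ind_pos a5).ge (single_le_sum
          (f := fun i => ind (Bad (S.f^[i] z))) (fun _ _ => ind_nonneg _)
          (mem_filter.2 ⟨a3, d⟩))) (sum_nonneg s2)
      · refine le_add_of_nonneg_of_le s1 (le_trans ?_ (single_le_sum s2 a1))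
        refine le_trans ?_ (single_le_sum (f := fun i => ind (Bad (S.f^[l] z)) *
          ind (Bad (S.f^[i] z))) (fun _ _ => i0 _ _) (mem_filter.2 ⟨a3, a4, d⟩))
        rw [ind_pos a5, ind_pos (W.sub _ a2), mul_one]
    · rw [ind_neg h]; exact add_nonneg s1 (sum_nonneg s2)).trans p4)
  have q1 : (κ : ℝ) * u0 ≤ I.card + u0 := by exact_mod_cast cI
  have q2 : (1 : ℝ) ≤ u0 := Nat.one_le_cast.2 u00
  have q3 : (0 : ℝ) ≤ I.card := Nat.cast_nonneg _
  push_cast at p5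
  have q4 : υ * I.card - η ≤ 2 * u0 * (2 + η) + I.card * (3 * η) :=
    le_of_mul_le_mul_right (by linarith) a0
  have q5 := mul_le_mul_of_nonneg_left hη q3
  have q6 := mul_le_mul_of_nonneg_left q1 υ0.le
  have q7 := mul_le_mul_of_nonneg_right hκ (zero_le_one.trans q2)
  have q8 := mul_le_mul_of_nonneg_right υ1 (zero_le_one.trans q2)
  have q9 := mul_le_mul_of_nonneg_right (hη.trans (show υ / 10 ≤ 1 / 10 by linarith))
    (zero_le_one.trans q2)
  nlinarith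

end WQ

/-- no rational step once the degree is large -/
theorem mainQ (S : Sys 2) {k : ℕ} {C lam υ : ℝ} (C0 : 0 ≤ C) (l0 : 0 < lam) (l1 : lam < 1)
    (υ0 : 0 < υ) (υ1 : υ ≤ 1) :
    ∃ u1 : ℕ, ∀ n0 : ℕ, (∀ m y, n0 ≤ m → S.lev m y → u1 ≤ S.lr y m) → HasWQ S C lam υ k n0 →
      ∃ U1 : ℕ, ∀ m x, n0 ≤ m → S.lev (m + 1) x → U1 ≤ S.lr (S.f x) m → S.rel x 1 ≠ 1 := by
  have m0 : 0 < 1 - lam := by linarith
  have sm : ∀ ε : ℝ, 0 < ε → ∃ u : ℕ, lam ^ u ≤ ε ∧ C * (lam ^ u / (1 - lam)) ≤ ε := fun ε e => by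
    obtain ⟨u, hu⟩ := exists_pow_lt_of_lt_one (show 0 < ε * (1 - lam) / (C + 1) by positivity) l1
    rw [lt_div_iff₀ (by positivity)] at hu
    have := pow_pos l0 u
    refine ⟨u, by nlinarith [mul_nonneg this.le C0, mul_pos e l0], ?_⟩
    rw [← mul_div_assoc, div_le_iff₀ m0]
    linarith
  obtain ⟨u1, -, hu1⟩ := sm (υ / 20) (by positivity)
  refine ⟨u1, fun n0 hu hW => ?_⟩
  obtain ⟨k0, a1, a2⟩ := sm (υ / 20) (by positivity)
  obtain ⟨κ, hκ⟩ := exists_nat_ge (16 / υ)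
  rw [div_le_iff₀ υ0] at hκ
  obtain ⟨k1, e1⟩ : ∃ k1, k1 = k0 + k + 1 := ⟨_, rfl⟩
  obtain ⟨K, eK⟩ : ∃ K, K = k * (1 + κ * k1) + 4 * (κ * k1) + 4 * k1 + 1 := ⟨_, rfl⟩
  have K1 : (1 : ℝ) ≤ K := Nat.one_le_cast.2 (by omega)
  obtain ⟨η, η0, eη⟩ : ∃ η : ℝ, 0 < η ∧ K * η = υ / 20 := ⟨υ / 20 / K, by positivity, by field_simp⟩
  have η1 : η ≤ υ / 20 := by nlinarith
  obtain ⟨U0, hU0⟩ := hW η η0
  refine ⟨max U0 (4 * n0), fun m x hm hx hU => ?_⟩
  obtain ⟨N, a, b, B, Bad, Fx, W, w1, w2⟩ := hU0 _ ((le_max_left _ _).trans hU)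
  obtain ⟨T, rfl⟩ := Nat.exists_eq_add_of_le hm
  have hU2 := (le_max_right _ _).trans hU
  have tt := W.tot C0 l0 l1 (T := T) (y := S.f x) hx hu
  have hl := Sys.lr_le (S.f x) (n0 + T)
  obtain ⟨U, eU⟩ : ∃ U, U = S.lr (S.f x) (n0 + T) := ⟨_, rfl⟩
  rw [← eU] at hU2 w1 w2 tt hl
  have a0 := W.a0
  have N1 := W.N1
  have U0' : (0 : ℝ) ≤ U := Nat.cast_nonneg U
  have KN : K * N ≤ U := by
    have : (K : ℝ) * N ≤ U := by
      refine (mul_le_mul_of_nonneg_left w2 (zero_le_one.trans K1)).trans ?_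
      rw [← mul_assoc, eη]
      exact mul_le_of_le_one_left U0' (by linarith)
    exact_mod_cast this
  have KN' : k * (N + κ * (k1 * N)) + 4 * (κ * (k1 * N)) + 4 * (k1 * N) + N ≤ U := by
    refine le_trans (le_of_eq ?_) KN
    rw [eK]; ring
  have kp : 0 < k1 * N := Nat.mul_pos (by omega) N1
  refine W.last C0 l0 l1 hx υ0 υ1 (η := υ / 10) (u0 := k1 * N) (κ := κ) le_rfl hκ kp
    (Nat.mul_le_mul_right N (by omega)) (by linarith) ?_ ?_ (by omega) (by omega) (by omega)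
  · obtain ⟨N, rfl⟩ := Nat.exists_eq_add_of_le' N1
    have b1 : lam ^ (k1 * (N + 1)) ≤ lam ^ k0 * (1 / 2) ^ N := by
      refine (pow_le_pow_of_le_one l0.le l1.le (show k0 + k0 * N ≤ k1 * (N + 1) by
        rw [mul_add, mul_one]
        have := Nat.mul_le_mul_right N (show k0 ≤ k1 by omega)
        omega)).trans ?_
      rw [pow_add, pow_mul]
      exact mul_le_mul_of_nonneg_left (pow_le_pow_left₀ (by positivity) (by linarith) N)
        (by positivity)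
    have b2 := W.alo
    rw [pow_succ] at b2
    calc C * (lam ^ (k1 * (N + 1)) / (1 - lam)) ≤ C * (lam ^ k0 * (1 / 2) ^ N / (1 - lam)) := by
          gcongr
      _ = C * (lam ^ k0 / (1 - lam)) * (1 / 2) ^ N := by ring
      _ ≤ υ / 20 * (2 * a) := mul_le_mul a2 (by linarith) (by positivity) (by positivity)
      _ = υ / 10 * a := by ring
  · have b1 : ((κ * (k1 * N) : ℕ) : ℝ) ≤ U := Nat.cast_le.2 (by omega)
    have b2 := mul_le_mul b1 W.ab a0.le U0'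
    linarith

end Pool.Agent.Lib.MP_a2c890_nt.Q2
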