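import Pool.Agent.Lib.MP_a2c890_nt.Q2.Box
import Pool.Agent.Lib.MP_a2c890_nt.TPre

set_option autoImplicit false
set_option linter.unusedSectionVars false

namespace Pool.Agent.Lib.MP_a2c890_nt.Q2

open T Finset

variable {F : Type*} [NormedField F] [IsUltrametricDist F] [IsAlgClosed F]

open Classical in
/-- a chosen preimage -/
noncomputable def kid (l c y : F) : F :=
  if h : ∃ x, x ≠ 0 ∧ fm l c x = y then h.choose else 0

/-- average over the two preimages -/
noncomputable def Lop (l c : F) (h : F → ℝ) (y : F) : ℝ := (h (kid l c y) + h (sib c (kid l c y))) / 2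

/-- average over the preimages of order `n` -/
noncomputable def avg (l c : F) (n : ℕ) (h : F → ℝ) : F → ℝ := (Lop l c)^[n] h

/-- `E` holds on a small box of level at most `k` round `x` -/
def SatAt (l c : F) (s : ℝ) (E : F → Prop) (k : ℕ) (x : F) : Prop :=
  ∃ m ≤ k, 0 < rr l c s m x ∧ rr l c s m x ≤ ‖c‖ ∧ ∀ z, ‖z - x‖ < rr l c s m x → E z

/-- saturated event -/
def Sat (l c : F) (s : ℝ) (L : ℕ) (E : F → Prop) : Prop := ∀ x, E x → SatAt l c s E L x

variable {l c x y z : F} {s : ℝ} {Q : ℕ} {h g : F → ℝ} {E E' : F → Prop}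

theorem avg_zero (h : F → ℝ) : avg l c 0 h = h := rfl
theorem avg_succ (n : ℕ) (h : F → ℝ) : avg l c (n + 1) h = avg l c n (Lop l c h) := rfl
theorem avg_succ' (n : ℕ) (h : F → ℝ) : avg l c (n + 1) h = Lop l c (avg l c n h) :=
  Function.iterate_succ_apply' _ _ _
theorem avg_avg (n k : ℕ) (h : F → ℝ) : avg l c (n + k) h = avg l c n (avg l c k h) :=
  Function.iterate_add_apply _ _ _ _

theorem avg_add (n : ℕ) (h g : F → ℝ) (y : F) :
    avg l c n (fun x => h x + g x) y = avg l c n h y + avg l c n g y := by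
  induction n generalizing y with
  | zero => rfl
  | succ n ih => simp only [avg_succ', Lop, ih]; ring

theorem avg_mul (n : ℕ) (a : ℝ) (h : F → ℝ) (y : F) :
    avg l c n (fun x => a * h x) y = a * avg l c n h y := by
  induction n generalizing y with
  | zero => rfl
  | succ n ih => simp only [avg_succ', Lop, ih]; ring

theorem avg_const (n : ℕ) (a : ℝ) (y : F) : avg l c n (fun _ => a) y = a := by
  induction n generalizing y with
  | zero => rfl
  | succ n ih => simp only [avg_succ', Lop, ih]; ring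

theorem avg_sub (n : ℕ) (h g : F → ℝ) (y : F) :
    avg l c n (fun x => h x - g x) y = avg l c n h y - avg l c n g y := by
  induction n generalizing y with
  | zero => rfl
  | succ n ih => simp only [avg_succ', Lop, ih]; ring

theorem avg_sum {ι : Type*} (n : ℕ) (S : Finset ι) (h : ι → F → ℝ) (y : F) :
    avg l c n (fun x => ∑ i ∈ S, h i x) y = ∑ i ∈ S, avg l c n (h i) y := by
  induction n generalizing y with
  | zero => rfl
  | succ n ih => simp only [avg_succ', Lop, ih, ← sum_div, sum_add_distrib]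

theorem SatAt.self {k : ℕ} (h : SatAt l c s E k x) : E x := by
  obtain ⟨m, -, a, -, b⟩ := h
  exact b x (by rwa [sub_self, norm_zero])

theorem SatAt.mono {k k' : ℕ} (h : SatAt l c s E k x) (hk : k ≤ k') (hE : ∀ z, E z → E' z) :
    SatAt l c s E' k' x := by
  obtain ⟨m, hm, a, b, d⟩ := h
  exact ⟨m, hm.trans hk, a, b, fun z hz => hE z (d z hz)⟩

theorem Sat.mono {L L' : ℕ} (h : Sat l c s L E) (hL : L ≤ L') : Sat l c s L' E :=
  fun x hx => (h x hx).mono hL fun _ h => h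

theorem Sat.ex {ι : Type*} {L : ℕ} {E : ι → F → Prop} {P : ι → Prop}
    (h : ∀ i, P i → Sat l c s L (E i)) : Sat l c s L fun x => ∃ i, P i ∧ E i x :=
  fun x ⟨i, hi, hx⟩ => (h i hi x hx).mono le_rfl fun _ hz => ⟨i, hi, hz⟩

namespace Cy

variable (C : Cy l c s Q)
include C

theorem kid_spec (y : F) : kid l c y ≠ 0 ∧ fm l c (kid l c y) = y := by
  have l0 : l ≠ 0 := norm_ne_zero_iff.mp (by rw [C.hl]; exact one_ne_zero)
  have : ∃ x, x ≠ 0 ∧ fm l c x = y := by
    have : NeZero (2 : F) := ⟨norm_ne_zero_iff.mp (C.two ▸ one_ne_zero)⟩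
    obtain ⟨x, hx⟩ := exists_quadratic_eq_zero (a := l) (b := 1 - y) (c := l * c ^ 2)
      l0 (IsAlgClosed.exists_eq_mul_self _)
    have x0 : x ≠ 0 := by
      rintro rfl
      exact mul_ne_zero l0 (pow_ne_zero 2 C.c0) (by simpa using hx)
    refine ⟨x, x0, ?_⟩
    unfold fm sib
    field_simp
    linear_combination hx
  unfold kid
  rw [dif_pos this]
  exact this.choose_spec

theorem Lop_fm (h : F → ℝ) (hx : x ≠ 0) : Lop l c h (fm l c x) = (h x + h (sib c x)) / 2 := by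
  obtain ⟨a, b⟩ := C.kid_spec (fm l c x)
  unfold Lop
  rcases eq_or_sib C.hl a hx b with e | e
  · rw [e]
  · rw [e, sib_sib C.c0 hx, add_comm]

theorem avg_mono {n : ℕ} (hh : ∀ x, Pre l c n y x → h x ≤ g x) : avg l c n h y ≤ avg l c n g y := by
  induction n generalizing h g with
  | zero => exact hh y ⟨rfl, fun _ h => absurd h (Nat.not_lt_zero _)⟩
  | succ n ih =>
    refine ih fun x hx => ?_
    obtain ⟨a, b⟩ := C.kid_spec x
    have h1 := hh _ (pre_succ.mpr ⟨a, b.symm ▸ hx⟩)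
    have h2 := hh (sib c (kid l c x)) (pre_succ.mpr ⟨sib_ne C.c0 a, by rwa [fm_sib C.c0 a, b]⟩)
    unfold Lop; linarith

theorem avg_congr {n : ℕ} (hh : ∀ x, Pre l c n y x → h x = g x) : avg l c n h y = avg l c n g y :=
  le_antisymm (C.avg_mono fun x hx => (hh x hx).le) (C.avg_mono fun x hx => (hh x hx).ge)

theorem avg_le {n : ℕ} {a : ℝ} (hh : ∀ x, Pre l c n y x → h x ≤ a) : avg l c n h y ≤ a :=
  (C.avg_mono hh).trans_eq (avg_const n a y)

theorem le_avg {n : ℕ} {a : ℝ} (hh : ∀ x, Pre l c n y x → a ≤ h x) : a ≤ avg l c n h y :=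
  (avg_const n a y).ge.trans (C.avg_mono hh)

theorem avg_comp_mul (k : ℕ) (h g : F → ℝ) (y : F) :
    avg l c k (fun x => h ((fm l c)^[k] x) * g x) y = h y * avg l c k g y := by
  rw [← avg_mul]; exact C.avg_congr fun x hx => by rw [hx.1]

theorem avg_comp (n k : ℕ) (h : F → ℝ) (y : F) :
    avg l c (n + k) (fun x => h ((fm l c)^[k] x)) y = avg l c n h y := by
  rw [avg_avg]
  refine C.avg_congr fun x _ => ?_
  exact (C.avg_congr fun z hz => by rw [hz.1]).trans (avg_const k (h x) x)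

theorem pre_inn {n : ℕ} (hy : Inn l c y) (hx : Pre l c n y x) : Inn l c x :=
  C.inn_of_iter (hx.1.symm ▸ hy)

theorem satAt_and {k : ℕ} (a : SatAt l c s E k x) (b : SatAt l c s E' k x) :
    SatAt l c s (fun z => E z ∧ E' z) k x := by
  obtain ⟨m, hm, a1, a2, a3⟩ := a
  obtain ⟨m', hm', b1, b2, b3⟩ := b
  rcases le_total m m' with o | o
  · exact ⟨m', hm', b1, b2, fun z hz => ⟨a3 z (C.rr_nest' o a1 hz), b3 z hz⟩⟩
  · exact ⟨m, hm, a1, a2, fun z hz => ⟨a3 z hz, b3 z (C.rr_nest' o b1 hz)⟩⟩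

theorem sat_and {L : ℕ} (a : Sat l c s L E) (b : Sat l c s L E') :
    Sat l c s L fun z => E z ∧ E' z := fun x hx => C.satAt_and (a x hx.1) (b x hx.2)

theorem sat_all {L : ℕ} (a : Sat l c s L E) (S : Finset ℕ) {G : ℕ → F → Prop}
    (b : ∀ i ∈ S, Sat l c s L (G i)) : Sat l c s L fun z => E z ∧ ∀ i ∈ S, G i z := by
  induction S using Finset.induction_on with
  | empty => simpa using a
  | insert i S _ ih =>
    have := C.sat_and (ih fun j hj => b j (mem_insert_of_mem hj)) (b i (mem_insert_self _ _))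
    simp only [forall_mem_insert]
    convert this using 2
    tauto

theorem sat_pull {L : ℕ} (a : Sat l c s L E) (i : ℕ) :
    Sat l c s (L + i) fun x => ∃ y, E y ∧ Pre l c i y x := by
  induction i with
  | zero =>
    rintro x ⟨y, hy, rfl, -⟩
    exact (a _ hy).mono le_rfl fun z hz => ⟨z, hz, rfl, fun _ h => absurd h (Nat.not_lt_zero _)⟩
  | succ i ih =>
    rintro x ⟨y, hy, hx⟩
    obtain ⟨x0, hx⟩ := pre_succ.mp hx
    obtain ⟨m, hm, a1, a2, a3⟩ := ih _ ⟨y, hy, hx⟩
    obtain ⟨b1, b2⟩ := C.rr_small x0 a1 a2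
    refine ⟨m + 1, by omega, b1, b2, fun z hz => ?_⟩
    obtain ⟨y', h1, h2⟩ := a3 _ (C.rr_map hz)
    exact ⟨y', h1, pre_succ.mpr ⟨(C.rr_norm hz).2, h2⟩⟩

theorem transfer {m : ℕ} (h1 : ∀ x z, ‖z - x‖ < rr l c s (m + 1) x → h z = h x)
    (h2 : ∀ x, h x ≠ 0 → 0 < rr l c s (m + 1) x) :
    (∀ x z, ‖z - x‖ < rr l c s m x → Lop l c h z = Lop l c h x) ∧
      ∀ x, Lop l c h x ≠ 0 → 0 < rr l c s m x := by
  have k2 : ∀ y, Lop l c h y ≠ 0 → 0 < rr l c s (m + 1) (kid l c y) := fun y hy => by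
    by_contra k
    have a := (C.kid_spec y).1
    have e1 : h (kid l c y) = 0 := by by_contra e; exact k (h2 _ e)
    have e2 : h (sib c (kid l c y)) = 0 := by
      by_contra e
      have := C.rr_sib_pos (h2 _ e)
      rw [sib_sib C.c0 a] at this
      exact k this
    exact hy (by unfold Lop; rw [e1, e2]; simp)
  have k1 : ∀ y y', ‖y' - y‖ < rr l c s m y → Lop l c h y ≠ 0 → Lop l c h y' = Lop l c h y :=
    fun y y' hy h0 => by
      obtain ⟨a, b⟩ := C.kid_spec y
      obtain ⟨a', b'⟩ := C.kid_spec y'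
      unfold Lop
      rcases C.rr_surj (k2 y h0) a' (by rwa [b, b']) with e | e
      · rw [h1 _ _ e, h1 _ _ (C.rr_sib e)]
      · have := C.rr_sib e
        rw [sib_sib C.c0 a'] at this
        rw [h1 _ _ e, h1 _ _ this, add_comm]
  refine ⟨fun y y' hy => ?_, fun y hy => ?_⟩
  · by_cases h0 : Lop l c h y = 0
    · by_contra e
      exact e (k1 y' y (C.rr_symm hy) (h0 ▸ e)).symm
    · exact k1 y y' hy h0
  · have := (C.rr_pos (k2 y hy)).1
    rwa [(C.kid_spec y).2] at this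

theorem transfer_iter (m : ℕ) (h1 : ∀ x z, ‖z - x‖ < rr l c s m x → h z = h x)
    (h2 : ∀ x, h x ≠ 0 → 0 < rr l c s m x) :
    (∀ x z, ‖z - x‖ < rr l c s 0 x → avg l c m h z = avg l c m h x) ∧
      ∀ x, avg l c m h x ≠ 0 → 0 < rr l c s 0 x := by
  induction m generalizing h with
  | zero => exact ⟨h1, h2⟩
  | succ m ih => exact ih (C.transfer h1 h2).1 (C.transfer h1 h2).2

theorem half_le {P : F → Prop} {y : F} (hx : x ≠ 0) (e : fm l c x = y) (hP : P x) :
    1 / 2 ≤ Lop l c (fun z => ind (P z)) y := by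
  rw [← e, C.Lop_fm _ hx, ind_pos hP]; linarith [ind_nonneg (P (sib c x))]

theorem disc_mass (k : ℕ) : ∀ j, ‖cen l (j + k)‖ ≤ ‖c‖ → ∀ i w,
    (1 / 2) ^ (k + 1) ≤ avg l c (i + (k + 1)) (fun x => ind (‖x - cen l j‖ ≤ ‖c‖)) w := by
  have base : ∀ j, ‖cen l j‖ ≤ ‖c‖ → ∀ i w,
      1 / 2 ≤ avg l c (i + 1) (fun x => ind (‖x - cen l j‖ ≤ ‖c‖)) w := fun j hj i w => by
    refine C.le_avg (n := i) fun y _ => ?_
    obtain ⟨a, b⟩ := C.kid_spec y
    rcases le_or_gt ‖kid l c y‖ ‖c‖ with o | o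
    · exact C.half_le a b (usub_le o hj)
    · exact C.half_le (sib_ne C.c0 a) (by rw [fm_sib C.c0 a, b]) (usub_le (norm_sib_lt C.c0 o).le hj)
  induction k with
  | zero => intro j hj i w; rw [zero_add, pow_one]; exact base j hj i w
  | succ k ih =>
    intro j hj i w
    rcases C.sep j with o | o
    · exact (pow_le_of_le_one (by norm_num) (by norm_num) (by omega)).trans (base j o _ w)
    have := ih (j + 1) (by rwa [add_right_comm, add_assoc]) i w
    rw [← add_assoc, avg_succ, pow_succ, mul_comm]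
    refine le_trans (mul_le_mul_of_nonneg_left this (by norm_num)) ?_
    rw [← avg_mul]
    refine C.avg_mono fun y _ => ?_
    by_cases hy : ‖y - cen l (j + 1)‖ ≤ ‖c‖
    · rw [ind_pos hy, mul_one]
      obtain ⟨a, b⟩ := C.kid_spec y
      have e : ‖cen l (j + 1) - 1‖ = ‖cen l j‖ := by
        rw [cen_succ, add_sub_cancel_right, norm_mul, C.hl, one_mul]
      have y1 : ‖c‖ < ‖y - 1‖ := by
        rw [utri_eq (b := cen l (j + 1)) (by rw [e]; exact (hy.trans_lt C.lt).trans_le o), e]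
        exact C.lt.trans_le o
      rcases lt_trichotomy ‖kid l c y‖ ‖c‖ with u | u | u
      · have b' : fm l c (sib c (kid l c y)) = y := by rw [fm_sib C.c0 a, b]
        exact C.half_le (sib_ne C.c0 a) b' (C.back (lt_norm_sib a u) (b'.symm ▸ hy))
      · exact absurd (b ▸ fm_one_le C.hl C.c0 u) (not_le.mpr y1)
      · exact C.half_le a b (C.back u (b.symm ▸ hy))
    · rw [ind_neg hy, mul_zero]
      exact div_nonneg (add_nonneg (ind_nonneg _) (ind_nonneg _)) two_pos.le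

theorem top_bd {g : F → ℝ} (g0 : ∀ x, 0 ≤ g x) (h1 : ∀ x z, ‖z - x‖ < rr l c s 0 x → g z = g x)
    (h2 : ∀ x, g x ≠ 0 → 0 < rr l c s 0 x) :
    (∀ y, g y ≤ ∑ j ∈ range Q, g (cen l j)) ∧
      ∀ i w, ∑ j ∈ range Q, g (cen l j) ≤ Q * 2 ^ (Q + 1) * avg l c (i + (Q + 1)) g w := by
  have k : ∀ j y, ‖y - cen l j‖ < s → g y = g (cen l j) := fun j y hy =>
    h1 _ _ (by rwa [C.rr_out ⟨j, by rw [sub_self, norm_zero]; exact C.spos⟩])
  refine ⟨fun y => ?_, fun i w => ?_⟩
  · by_cases e : g y = 0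
    · rw [e]; exact sum_nonneg fun j _ => g0 _
    obtain ⟨j, hj⟩ := (C.rr_zero (h2 y e)).1
    rw [k (j % Q) y (utri_lt hj ((C.cen_mod j).trans_lt C.lt))]
    exact single_le_sum (f := fun j => g (cen l j)) (fun j _ => g0 _)
      (mem_range.mpr (Nat.mod_lt _ C.Q0))
  · rw [mul_assoc, ← nsmul_eq_mul]
    nth_rw 2 [← card_range Q]
    refine sum_le_card_nsmul _ _ _ fun j hj => ?_
    obtain ⟨d, hd⟩ := Nat.exists_eq_add_of_le (mem_range.mp hj).le
    have m := C.disc_mass d j (hd ▸ C.per) (i + j) w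
    rw [show i + j + (d + 1) = i + (Q + 1) by omega] at m
    have m1 : (1 / 2 : ℝ) ^ (Q + 1) ≤ (1 / 2) ^ (d + 1) :=
      pow_le_pow_of_le_one (by norm_num) (by norm_num) (by omega)
    have m2 : g (cen l j) * avg l c (i + (Q + 1)) (fun x => ind (‖x - cen l j‖ ≤ ‖c‖)) w ≤
        avg l c (i + (Q + 1)) g w := by
      rw [← avg_mul]
      refine C.avg_mono fun y _ => ?_
      by_cases hy : ‖y - cen l j‖ ≤ ‖c‖
      · rw [ind_pos hy, mul_one, k j y (hy.trans_lt C.lt)]
      · rw [ind_neg hy, mul_zero]; exact g0 y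
    have m3 := (mul_le_mul_of_nonneg_left (m1.trans m) (g0 (cen l j))).trans m2
    rwa [one_div, inv_pow, ← div_eq_mul_inv, div_le_iff₀' (by positivity)] at m3

end Cy

end Pool.Agent.Lib.MP_a2c890_nt.Q2
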