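import Pool.Agent.Lib.MP_a2c890_nt.TLoc

set_option autoImplicit false
set_option linter.unusedSectionVars false

namespace Pool.Agent.Lib.MP_a2c890_nt.Q2

open T

section alg

variable {A : Type*} [Field A]

/-- the sibling -/
def sib (c x : A) : A := c ^ 2 / x

/-- the map -/
def fm (l c x : A) : A := 1 + l * (x + sib c x)

/-- honest preimage of order `n` -/
def Pre (l c : A) (n : ℕ) (y x : A) : Prop := (fm l c)^[n] x = y ∧ ∀ i < n, (fm l c)^[i] x ≠ 0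

variable {l c x y z : A}

theorem sib_sib (hc : c ≠ 0) (hx : x ≠ 0) : sib c (sib c x) = x := by
  unfold sib; field_simp

theorem sib_ne (hc : c ≠ 0) (hx : x ≠ 0) : sib c x ≠ 0 := div_ne_zero (pow_ne_zero _ hc) hx

theorem fm_sib (hc : c ≠ 0) (hx : x ≠ 0) : fm l c (sib c x) = fm l c x := by
  unfold fm; rw [sib_sib hc hx, add_comm x]

theorem key0 (hz : z ≠ 0) (hx : x ≠ 0) :
    (fm l c z - fm l c x) * z = l * ((z - x) * (z - sib c x)) := by
  unfold fm sib; field_simp; ring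

theorem eq_or_sib0 (hl : l ≠ 0) (hz : z ≠ 0) (hx : x ≠ 0) (h : fm l c z = fm l c x) :
    z = x ∨ z = sib c x := by
  have := key0 (l := l) (c := c) hz hx
  rwa [h, sub_self, zero_mul, eq_comm, mul_eq_zero, or_iff_right hl, mul_eq_zero, sub_eq_zero,
    sub_eq_zero] at this

theorem map_fm {B : Type*} [Field B] (τ : A →+* B) (l c x : A) :
    τ (fm l c x) = fm (τ l) (τ c) (τ x) := by
  unfold fm sib; rw [map_add, map_mul, map_add, map_one, map_div₀, map_pow]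

theorem map_iter {B : Type*} [Field B] (τ : A →+* B) (l c : A) (n : ℕ) (x : A) :
    τ ((fm l c)^[n] x) = (fm (τ l) (τ c))^[n] (τ x) := by
  induction n generalizing x with
  | zero => rfl
  | succ n ih => rw [Function.iterate_succ_apply, ih, map_fm]; rfl

theorem Pre.map {B : Type*} [Field B] (τ : A →+* B) {n : ℕ} (h : Pre l c n y x) :
    Pre (τ l) (τ c) n (τ y) (τ x) :=
  ⟨by rw [← map_iter, h.1], fun i hi => by rw [← map_iter]; exact (map_ne_zero τ).mpr (h.2 i hi)⟩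

theorem pre_zero : Pre l c 0 x x := ⟨rfl, fun _ h => absurd h (Nat.not_lt_zero _)⟩

theorem pre_succ {n : ℕ} : Pre l c (n + 1) y x ↔ x ≠ 0 ∧ Pre l c n y (fm l c x) := by
  unfold Pre
  rw [Nat.forall_lt_succ_left]
  exact ⟨fun ⟨a, b, d⟩ => ⟨b, a, d⟩, fun ⟨b, a, d⟩ => ⟨a, b, d⟩⟩

theorem Pre.split {n k : ℕ} (h : Pre l c (n + k) y x) :
    Pre l c n y ((fm l c)^[k] x) ∧ Pre l c k ((fm l c)^[k] x) x :=
  ⟨⟨by rw [← Function.iterate_add_apply]; exact h.1,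
    fun i hi => by rw [← Function.iterate_add_apply]; exact h.2 _ (by omega)⟩,
    rfl, fun i hi => h.2 i (by omega)⟩

end alg

variable {F : Type*} [NormedField F] [IsUltrametricDist F]

/-- distance to the sibling -/
def del (c x : F) : ℝ := ‖x - sib c x‖

/-- pull back of a radius -/
noncomputable def pull (c x : F) (t : ℝ) : ℝ :=
  if t ≤ max ‖x‖ ‖sib c x‖ then
    (if t * ‖x‖ ≤ del c x ^ 2 then t * ‖x‖ / del c x else √(t * ‖x‖)) else 0

theorem usub_lt {a b : F} {r : ℝ} (h1 : ‖a‖ < r) (h2 : ‖b‖ < r) : ‖a - b‖ < r := by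
  rw [sub_eq_add_neg]; exact uadd_lt h1 (by rwa [norm_neg])

theorem utri_lt {a b e : F} {r : ℝ} (h1 : ‖a - b‖ < r) (h2 : ‖b - e‖ < r) : ‖a - e‖ < r := by
  rw [← sub_add_sub_cancel a b e]; exact uadd_lt h1 h2

theorem utri_le {a b e : F} {r : ℝ} (h1 : ‖a - b‖ ≤ r) (h2 : ‖b - e‖ ≤ r) : ‖a - e‖ ≤ r := by
  rw [← sub_add_sub_cancel a b e]; exact uadd_le h1 h2

theorem utri_eq {a b e : F} (h : ‖a - b‖ < ‖b - e‖) : ‖a - e‖ = ‖b - e‖ := by
  rw [← sub_add_sub_cancel a b e, add_comm]; exact uadd_eq h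

theorem norm_eq_of_lt {z x : F} (h : ‖z - x‖ < ‖x‖) : ‖z‖ = ‖x‖ := by
  have := utri_eq (a := z) (b := x) (e := 0) (by simpa using h)
  simpa using this

variable {l c x z : F} {t t' : ℝ}

theorem del_sib (hc : c ≠ 0) (hx : x ≠ 0) : del c (sib c x) = del c x := by
  unfold del; rw [sib_sib hc hx, norm_sub_rev]

theorem del_nonneg (c x : F) : 0 ≤ del c x := norm_nonneg _

theorem norm_mul_sib (hx : x ≠ 0) : ‖x‖ * ‖sib c x‖ = ‖c‖ ^ 2 := by
  rw [← norm_mul, ← norm_pow]; congr 1; unfold sib; field_simp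

theorem key (hl : ‖l‖ = 1) (hz : z ≠ 0) (hx : x ≠ 0) :
    ‖fm l c z - fm l c x‖ * ‖z‖ = ‖z - x‖ * ‖z - sib c x‖ := by
  rw [← norm_mul, key0 hz hx, norm_mul, norm_mul, hl, one_mul]

theorem eq_or_sib (hl : ‖l‖ = 1) (hz : z ≠ 0) (hx : x ≠ 0) (h : fm l c z = fm l c x) :
    z = x ∨ z = sib c x :=
  eq_or_sib0 (norm_ne_zero_iff.mp (hl ▸ one_ne_zero)) hz hx h

theorem fm_sub_one (hl : ‖l‖ = 1) (c x : F) : ‖fm l c x - 1‖ = ‖x + sib c x‖ := by
  unfold fm; rw [add_sub_cancel_left, norm_mul, hl, one_mul]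

theorem del_le (c x : F) : del c x ≤ max ‖x‖ ‖sib c x‖ :=
  usub_le (le_max_left _ _) (le_max_right _ _)

theorem del_eq (h : ‖x‖ ≠ ‖sib c x‖) : del c x = max ‖x‖ ‖sib c x‖ := by
  unfold del
  rw [sub_eq_add_neg, IsUltrametricDist.norm_add_eq_max_of_norm_ne_norm (by rwa [norm_neg]), norm_neg]

theorem norm_eq_c (hx : x ≠ 0) (h : ‖x‖ = ‖sib c x‖) : ‖x‖ = ‖c‖ := by
  have := norm_mul_sib (c := c) hx
  rw [← h, ← sq] at this
  exact (pow_left_inj₀ (norm_nonneg _) (norm_nonneg _) two_ne_zero).mp this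

theorem norm_sib_eq (h : ‖z‖ = ‖x‖) : ‖sib c z‖ = ‖sib c x‖ := by
  unfold sib; rw [norm_div, norm_div, h]

theorem norm_sib_c (hc : c ≠ 0) (h : ‖x‖ = ‖c‖) : ‖sib c x‖ = ‖c‖ := by
  have := norm_pos_iff.mpr hc
  unfold sib; rw [norm_div, norm_pow, h]; field_simp

theorem sib_sub (hz : z ≠ 0) (hx : x ≠ 0) :
    ‖sib c z - sib c x‖ * ‖z‖ = ‖z - x‖ * ‖sib c x‖ := by
  rw [← norm_mul, ← norm_mul, ← norm_neg]; congr 1; unfold sib; field_simp; ring

theorem pull_nonneg (c x : F) (ht : 0 ≤ t) : 0 ≤ pull c x t := by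
  have := del_nonneg c x
  unfold pull; split_ifs <;> positivity

theorem pull_unram (ha : t ≤ max ‖x‖ ‖sib c x‖) (h : t * ‖x‖ ≤ del c x ^ 2) :
    pull c x t = t * ‖x‖ / del c x := by unfold pull; rw [if_pos ha, if_pos h]

theorem pull_ram (ha : t ≤ max ‖x‖ ‖sib c x‖) (h : ¬ t * ‖x‖ ≤ del c x ^ 2) :
    pull c x t = √(t * ‖x‖) := by unfold pull; rw [if_pos ha, if_neg h]

theorem pull_pos_iff (ht : 0 ≤ t) :
    0 < pull c x t ↔ 0 < t ∧ x ≠ 0 ∧ t ≤ max ‖x‖ ‖sib c x‖ := by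
  constructor
  · intro h
    have ha : t ≤ max ‖x‖ ‖sib c x‖ := by
      by_contra ha; unfold pull at h; rw [if_neg ha] at h; exact lt_irrefl _ h
    have h0 : t * ‖x‖ ≠ 0 := fun h0 => by
      rw [pull_unram ha (by rw [h0]; positivity), h0, zero_div] at h; exact lt_irrefl _ h
    exact ⟨lt_of_le_of_ne ht (left_ne_zero_of_mul h0).symm,
      norm_ne_zero_iff.mp (right_ne_zero_of_mul h0), ha⟩
  · rintro ⟨h0, hx, ha⟩
    have p : 0 < t * ‖x‖ := mul_pos h0 (norm_pos_iff.mpr hx)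
    by_cases h : t * ‖x‖ ≤ del c x ^ 2
    · rw [pull_unram ha h]
      exact div_pos p (lt_of_le_of_ne (del_nonneg c x) fun e => by rw [← e] at h; linarith)
    · rw [pull_ram ha h]; exact Real.sqrt_pos.mpr p

theorem ram_norm (ha : t ≤ max ‖x‖ ‖sib c x‖) (h : ¬ t * ‖x‖ ≤ del c x ^ 2) :
    ‖x‖ = ‖sib c x‖ := by
  by_contra e
  exact h (by rw [del_eq e, sq]; exact mul_le_mul ha (le_max_left _ _) (norm_nonneg _) (by positivity))

theorem unram_del (h0 : 0 < t) (hx : x ≠ 0) (ha : t ≤ max ‖x‖ ‖sib c x‖)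
    (h : t * ‖x‖ ≤ del c x ^ 2) : 0 < del c x ∧ t ≤ del c x ∧ t * ‖sib c x‖ ≤ del c x ^ 2 := by
  have x0 := norm_pos_iff.mpr hx
  have d0 : 0 < del c x := lt_of_le_of_ne (del_nonneg c x) fun e => by
    rw [← e] at h; nlinarith [mul_pos h0 x0]
  refine ⟨d0, ?_⟩
  by_cases e : ‖x‖ = ‖sib c x‖
  · have := del_le c x
    rw [← e, max_self] at this
    refine ⟨?_, e ▸ h⟩
    by_contra k
    push Not at k
    nlinarith
  · refine ⟨(del_eq e).symm ▸ ha, ?_⟩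
    rw [del_eq e, sq]
    exact mul_le_mul ha (le_max_right _ _) (norm_nonneg _) (by positivity)

theorem unram_le (h0 : 0 < t) (hx : x ≠ 0) (ha : t ≤ max ‖x‖ ‖sib c x‖)
    (h : t * ‖x‖ ≤ del c x ^ 2) : pull c x t ≤ del c x := by
  rw [pull_unram ha h, div_le_iff₀ (unram_del h0 hx ha h).1, ← sq]; exact h

theorem ram_lt (ha : t ≤ max ‖x‖ ‖sib c x‖) (h : ¬ t * ‖x‖ ≤ del c x ^ 2) :
    del c x < pull c x t := by
  rw [pull_ram ha h]; exact Real.lt_sqrt_of_sq_lt (not_le.mp h)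

theorem pull_le (ht : 0 ≤ t) : pull c x t ≤ ‖x‖ := by
  rcases (pull_nonneg c x ht).eq_or_lt with e | e
  · rw [← e]; exact norm_nonneg _
  obtain ⟨h0, hx, ha⟩ := (pull_pos_iff ht).mp e
  by_cases h : t * ‖x‖ ≤ del c x ^ 2
  · obtain ⟨d0, d1, -⟩ := unram_del h0 hx ha h
    rw [pull_unram ha h, div_le_iff₀ d0, mul_comm]
    exact mul_le_mul_of_nonneg_left d1 (norm_nonneg _)
  · rw [pull_ram ha h, Real.sqrt_le_left (norm_nonneg _), sq]
    rw [← ram_norm ha h, max_self] at ha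
    exact mul_le_mul_of_nonneg_right ha (norm_nonneg _)

theorem pull_norm (ht : 0 ≤ t) (h : ‖z - x‖ < pull c x t) : ‖z‖ = ‖x‖ ∧ z ≠ 0 := by
  have e := norm_eq_of_lt (h.trans_le (pull_le ht))
  have := ((pull_pos_iff ht).mp ((norm_nonneg _).trans_lt h)).2.1
  exact ⟨e, norm_ne_zero_iff.mp (e ▸ norm_ne_zero_iff.mpr this)⟩

/-- unramified: the map is a similarity on the disc -/
theorem unram_dist (hl : ‖l‖ = 1) (hz : z ≠ 0) (hx : x ≠ 0) (h : ‖z - x‖ < del c x) :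
    ‖fm l c z - fm l c x‖ * ‖z‖ = ‖z - x‖ * del c x := by
  rw [key hl hz hx, utri_eq (e := sib c x) h]; rfl

theorem pull_map (hl : ‖l‖ = 1) (ht : 0 ≤ t) (h : ‖z - x‖ < pull c x t) :
    ‖fm l c z - fm l c x‖ < t := by
  obtain ⟨h0, hx, ha⟩ := (pull_pos_iff ht).mp ((norm_nonneg _).trans_lt h)
  obtain ⟨e, hz⟩ := pull_norm ht h
  have x0 := norm_pos_iff.mpr hx
  refine lt_of_mul_lt_mul_right ?_ x0.le
  by_cases k : t * ‖x‖ ≤ del c x ^ 2
  · rw [← e, unram_dist hl hz hx (h.trans_le (unram_le h0 hx ha k)), e]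
    rwa [pull_unram ha k, lt_div_iff₀ (unram_del h0 hx ha k).1] at h
  · have h2 : ‖z - sib c x‖ < pull c x t := utri_lt h (ram_lt ha k)
    rw [← e, key hl hz hx, e, ← Real.mul_self_sqrt (mul_pos h0 x0).le, ← pull_ram ha k]
    exact mul_lt_mul'' h h2 (norm_nonneg _) (norm_nonneg _)

theorem pull_sib (hc : c ≠ 0) (ht : 0 ≤ t) (h : ‖z - x‖ < pull c x t) :
    ‖sib c z - sib c x‖ < pull c (sib c x) t := by
  obtain ⟨h0, hx, ha⟩ := (pull_pos_iff ht).mp ((norm_nonneg _).trans_lt h)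
  obtain ⟨e, hz⟩ := pull_norm ht h
  have x0 := norm_pos_iff.mpr hx
  have s0 := norm_pos_iff.mpr (sib_ne hc hx)
  have ha' : t ≤ max ‖sib c x‖ ‖sib c (sib c x)‖ := by rwa [sib_sib hc hx, max_comm]
  have s := sib_sub (c := c) hz hx
  rw [e] at s
  by_cases k : t * ‖x‖ ≤ del c x ^ 2
  · obtain ⟨d0, -, d2⟩ := unram_del h0 hx ha k
    rw [pull_unram ha' (by rwa [del_sib hc hx]), del_sib hc hx, lt_div_iff₀ d0]
    rw [pull_unram ha k, lt_div_iff₀ d0] at h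
    refine lt_of_mul_lt_mul_right ?_ x0.le
    calc _ = ‖z - x‖ * del c x * ‖sib c x‖ := by rw [mul_right_comm, s]; ring
      _ < t * ‖x‖ * ‖sib c x‖ := by gcongr
      _ = _ := by ring
  · have n := ram_norm ha k
    rw [pull_ram ha' (by rwa [del_sib hc hx, ← n]), ← n, ← pull_ram ha k]
    rw [← n] at s
    rwa [mul_right_cancel₀ x0.ne' s]

theorem unram_congr (hc : c ≠ 0) (ht : 0 ≤ t) (h : ‖z - x‖ < pull c x t)
    (k : t * ‖x‖ ≤ del c x ^ 2) : del c z = del c x := by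
  obtain ⟨h0, hx, ha⟩ := (pull_pos_iff ht).mp ((norm_nonneg _).trans_lt h)
  have ha' : t ≤ max ‖sib c x‖ ‖sib c (sib c x)‖ := by rwa [sib_sib hc hx, max_comm]
  have h1 := h.trans_le (unram_le h0 hx ha k)
  have h2 := (pull_sib hc ht h).trans_le (unram_le h0 (sib_ne hc hx) ha'
    (by rw [del_sib hc hx]; exact (unram_del h0 hx ha k).2.2))
  rw [del_sib hc hx] at h2
  have h3 : ‖z - sib c x‖ = del c x := utri_eq (e := sib c x) h1
  unfold del at *
  rw [norm_sub_rev, utri_eq (b := sib c x) (e := z) (by rwa [norm_sub_rev _ z, h3]), norm_sub_rev, h3]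

theorem ram_congr (hc : c ≠ 0) (ht : 0 ≤ t) (h : ‖z - x‖ < pull c x t)
    (k : ¬ t * ‖x‖ ≤ del c x ^ 2) : ¬ t * ‖z‖ ≤ del c z ^ 2 := by
  obtain ⟨h0, hx, ha⟩ := (pull_pos_iff ht).mp ((norm_nonneg _).trans_lt h)
  have ha' : t ≤ max ‖sib c x‖ ‖sib c (sib c x)‖ := by rwa [sib_sib hc hx, max_comm]
  have n := ram_norm ha k
  have h2 := pull_sib hc ht h
  rw [pull_ram ha' (by rwa [del_sib hc hx, ← n]), ← n, ← pull_ram ha k, norm_sub_rev] at h2
  have h3 : del c z < pull c x t := utri_lt (utri_lt h (ram_lt ha k)) h2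
  rw [pull_ram ha k, Real.lt_sqrt (del_nonneg _ _)] at h3
  rw [(pull_norm ht h).1]; exact not_le.mpr h3

theorem pull_congr (hc : c ≠ 0) (ht : 0 ≤ t) (h : ‖z - x‖ < pull c x t) :
    pull c z t = pull c x t ∧ (t * ‖z‖ ≤ del c z ^ 2 ↔ t * ‖x‖ ≤ del c x ^ 2) := by
  obtain ⟨h0, hx, ha⟩ := (pull_pos_iff ht).mp ((norm_nonneg _).trans_lt h)
  obtain ⟨e, hz⟩ := pull_norm ht h
  have ha' : t ≤ max ‖z‖ ‖sib c z‖ := by rwa [e, norm_sib_eq e]
  by_cases k : t * ‖x‖ ≤ del c x ^ 2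
  · have d := unram_congr hc ht h k
    have k' : t * ‖z‖ ≤ del c z ^ 2 := by rwa [d, e]
    exact ⟨by rw [pull_unram ha k, pull_unram ha' k', d, e], iff_of_true k' k⟩
  · have k' := ram_congr hc ht h k
    exact ⟨by rw [pull_ram ha k, pull_ram ha' k', e], iff_of_false k' k⟩

theorem pull_mono (h0 : 0 ≤ t) (h : t ≤ t') (hp : 0 < pull c x t') : pull c x t ≤ pull c x t' := by
  obtain ⟨h1, hx, ha'⟩ := (pull_pos_iff (h0.trans h)).mp hp
  have ha := h.trans ha'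
  have m : t * ‖x‖ ≤ t' * ‖x‖ := mul_le_mul_of_nonneg_right h (norm_nonneg _)
  by_cases k' : t' * ‖x‖ ≤ del c x ^ 2
  · rw [pull_unram ha' k', pull_unram ha (m.trans k')]
    exact div_le_div_of_nonneg_right m (del_nonneg _ _)
  · by_cases k : t * ‖x‖ ≤ del c x ^ 2
    · rcases h0.eq_or_lt with e | e
      · rw [pull_unram ha k, ← e, zero_mul, zero_div]; exact hp.le
      · exact (unram_le e hx ha k).trans (ram_lt ha' k').le
    · rw [pull_ram ha' k', pull_ram ha k]; exact Real.sqrt_le_sqrt m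

/-- one of the two preimages lies in the pulled back disc -/
theorem pull_surj (hl : ‖l‖ = 1) (hc : c ≠ 0) (hp : 0 < pull c x t) (ht : 0 ≤ t) (hz : z ≠ 0)
    (h : ‖fm l c z - fm l c x‖ < t) :
    ‖z - x‖ < pull c x t ∨ ‖sib c z - x‖ < pull c x t := by
  obtain ⟨h0, hx, ha⟩ := (pull_pos_iff ht).mp hp
  have x0 := norm_pos_iff.mpr hx
  wlog o : ‖x - z‖ ≤ ‖x - sib c z‖ generalizing z
  · have := this (z := sib c z) (sib_ne hc hz) (by rwa [fm_sib hc hz])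
      (by rw [sib_sib hc hz]; exact (not_le.mp o).le)
    rw [sib_sib hc hz] at this
    exact this.symm
  left
  have k := key (c := c) hl hx hz
  have k1 : ‖x - z‖ * ‖x - sib c z‖ < t * ‖x‖ := by rw [← k, norm_sub_rev]; gcongr
  rw [norm_sub_rev]
  by_cases u : t * ‖x‖ ≤ del c x ^ 2
  · obtain ⟨d0, d1, -⟩ := unram_del h0 hx ha u
    have b : del c x ≤ ‖x - sib c z‖ := by
      by_contra b
      push Not at b
      have e1 : ‖(z + sib c z) - (x + sib c x)‖ < del c x := by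
        refine lt_of_lt_of_le ?_ d1
        rwa [show fm l c z - fm l c x = l * ((z + sib c z) - (x + sib c x)) by unfold fm; ring,
          norm_mul, hl, one_mul] at h
      have e2 : ‖sib c z - sib c x‖ < del c x := by
        rw [show sib c z - sib c x = ((z + sib c z) - (x + sib c x)) + (x - z) by ring]
        exact uadd_lt e1 (o.trans_lt b)
      exact lt_irrefl _ (utri_lt b e2)
    rw [pull_unram ha u, lt_div_iff₀ d0]
    exact (mul_le_mul_of_nonneg_left b (norm_nonneg _)).trans_lt k1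
  · rw [pull_ram ha u]
    refine Real.lt_sqrt_of_sq_lt (lt_of_le_of_lt ?_ k1)
    rw [sq]; exact mul_le_mul_of_nonneg_left o (norm_nonneg _)

theorem del_sq (hl : ‖l‖ = 1) (hx : x ≠ 0) :
    del c x ^ 2 = ‖fm l c x - (1 + 2 * l * c)‖ * ‖fm l c x - (1 - 2 * l * c)‖ := by
  rw [← norm_mul, show (fm l c x - (1 + 2 * l * c)) * (fm l c x - (1 - 2 * l * c)) =
    l ^ 2 * (x - sib c x) ^ 2 by unfold fm sib; field_simp; ring, norm_mul, norm_pow, norm_pow, hl,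
    one_pow, one_mul]; rfl

/-- ramified: a critical value is close, and controls the distance of the siblings -/
theorem ram_cv (hl : ‖l‖ = 1) (h2 : ‖(2 : F)‖ = 1) (hx : x ≠ 0) (ha : t ≤ max ‖x‖ ‖sib c x‖)
    (k : ¬ t * ‖x‖ ≤ del c x ^ 2) : ‖x‖ = ‖c‖ ∧ ∃ v, (v = 1 + 2 * l * c ∨ v = 1 - 2 * l * c) ∧
      ‖v - fm l c x‖ < t ∧ del c x ^ 2 = ‖v - fm l c x‖ * ‖c‖ := by
  have n := ram_norm ha k
  have n1 := norm_eq_c hx n
  have c0 : 0 < ‖c‖ := n1 ▸ norm_pos_iff.mpr hx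
  refine ⟨n1, ?_⟩
  have y1 : ‖fm l c x - 1‖ ≤ ‖c‖ := by rw [fm_sub_one hl]; exact uadd_le n1.le (n ▸ n1.le)
  have v1 : ‖2 * l * c‖ = ‖c‖ := by rw [norm_mul, norm_mul, h2, hl, one_mul, one_mul]
  have a1 : ‖fm l c x - (1 + 2 * l * c)‖ ≤ ‖c‖ := by rw [← sub_sub]; exact usub_le y1 v1.le
  have a2 : ‖fm l c x - (1 - 2 * l * c)‖ ≤ ‖c‖ := by rw [← sub_add]; exact uadd_le y1 v1.le
  have ds := del_sq (c := c) hl hx
  rw [n1, not_le] at k
  have : ‖fm l c x - (1 + 2 * l * c)‖ = ‖c‖ ∨ ‖fm l c x - (1 - 2 * l * c)‖ = ‖c‖ := by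
    by_contra e
    push Not at e
    have := usub_lt (lt_of_le_of_ne a2 e.2) (lt_of_le_of_ne a1 e.1)
    rw [show fm l c x - (1 - 2 * l * c) - (fm l c x - (1 + 2 * l * c)) = 2 * (2 * l * c) by ring,
      norm_mul, h2, one_mul, v1] at this
    exact lt_irrefl _ this
  rcases this with e | e
  · rw [e, mul_comm, norm_sub_rev] at ds
    exact ⟨_, Or.inr rfl, lt_of_mul_lt_mul_right (ds ▸ k) c0.le, ds⟩
  · rw [e, norm_sub_rev] at ds
    exact ⟨_, Or.inl rfl, lt_of_mul_lt_mul_right (ds ▸ k) c0.le, ds⟩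

end Pool.Agent.Lib.MP_a2c890_nt.Q2
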