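import Pool.Agent.Lib.MP_a2c890_nt.Q2.Und

set_option autoImplicit false
set_option linter.unusedSectionVars false

namespace Pool.Agent.Lib.MP_a2c890_nt.Q2

open T Finset

variable {F : Type*} [NormedField F] [IsUltrametricDist F] [IsAlgClosed F]

/-- an isometric endomorphism fixing the data -/
structure Iso (l c : F) (σ : F →+* F) : Prop where
  nrm : ∀ x, ‖σ x‖ = ‖x‖
  fl : σ l = l
  fc : σ c = c

/-- all boxes of level below `N` are stable -/
def SA (l c : F) (s : ℝ) (σ : F →+* F) (N : ℕ) : Prop :=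
  ∀ m < N, ∀ x, 0 < rr l c s m x → ‖σ x - x‖ < rr l c s m x

/-- stable box whose two halves are exchanged -/
def Bm (l c : F) (s : ℝ) (σ : F →+* F) (m : ℕ) (y : F) : Prop :=
  Det l c s m y ∧ ‖σ y - y‖ < rr l c s m y ∧
    ∀ x, x ≠ 0 → fm l c x = y → rr l c s (m + 1) x ≤ ‖σ x - x‖

/-- boundary event -/
def Bd (l c : F) (s : ℝ) (σ : F →+* F) (L : ℕ) (y : F) : Prop := ∃ m, m ≤ L ∧ Bm l c s σ m y

/-- good event -/
def Gd (l c : F) (s : ℝ) (σ : F →+* F) (L : ℕ) (y : F) : Prop :=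
  ∃ m, m ≤ L ∧ Det l c s m y ∧ ¬ Bm l c s σ m y

variable {l c x y z : F} {s : ℝ} {Q : ℕ} {σ : F →+* F}

namespace Iso

variable (I : Iso l c σ)
include I

theorem sq : Iso l c (σ * σ) :=
  ⟨fun x => (I.nrm _).trans (I.nrm x), by simp [I.fl], by simp [I.fc]⟩

theorem pow (n : ℕ) : Iso l c (σ ^ n) := by
  induction n with
  | zero => exact ⟨fun _ => rfl, rfl, rfl⟩
  | succ n ih =>
    rw [pow_succ]
    exact ⟨fun x => (ih.nrm _).trans (I.nrm x), (congrArg (σ ^ n) I.fl).trans ih.fl,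
      (congrArg (σ ^ n) I.fc).trans ih.fc⟩

theorem dist (x y : F) : ‖σ x - σ y‖ = ‖x - y‖ := by rw [← map_sub, I.nrm]

theorem ne (hx : x ≠ 0) : σ x ≠ 0 := (map_ne_zero σ).mpr hx

theorem sib (x : F) : σ (sib c x) = sib c (σ x) := by unfold Q2.sib; rw [map_div₀, map_pow, I.fc]

theorem fm (x : F) : σ (fm l c x) = fm l c (σ x) := by
  unfold Q2.fm; rw [map_add, map_mul, map_add, map_one, I.fl, I.sib]

theorem cen (j : ℕ) : σ (cen l j) = cen l j := by
  induction j with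
  | zero => exact map_zero σ
  | succ j ih => rw [cen_succ, map_add, map_mul, map_one, I.fl, ih]

theorem rr (m : ℕ) (x : F) : rr l c s m (σ x) = rr l c s m x := by
  induction m generalizing x with
  | zero =>
    have : Out l s (σ x) ↔ Out l s x := exists_congr fun j => by rw [← I.dist x, I.cen]
    by_cases e : Out l s x
    · rw [Q2.rr, Q2.rr, if_pos e, if_pos (this.mpr e)]
    · rw [Q2.rr, Q2.rr, if_neg e, if_neg (mt this.mp e)]
  | succ m ih =>
    rw [Q2.rr, Q2.rr, ← I.fm, ih]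
    unfold pull del
    rw [← I.sib, I.dist, I.nrm, I.nrm]

end Iso

namespace Cy

variable (C : Cy l c s Q)
include C

theorem det_congr {m : ℕ} (h : Det l c s m y) (hz : ‖z - y‖ < rr l c s m y) : Det l c s m z := by
  have e := C.rr_congr hz
  refine ⟨e ▸ h.1, e ▸ h.2.1, fun v hv => ?_⟩
  rw [e, norm_sub_rev, utri_eq (b := y) (hz.trans_le (by rw [norm_sub_rev]; exact h.2.2 v hv)),
    norm_sub_rev]
  exact h.2.2 v hv

theorem det_kid {m : ℕ} (hx : x ≠ 0) (h : Det l c s m (fm l c x)) :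
    0 < rr l c s (m + 1) x ∧ rr l c s (m + 1) x ≤ del c x := by
  have p := (C.rr_small hx h.1 h.2.1).1
  obtain ⟨h0, -, ha⟩ := C.rr_pos p
  refine ⟨p, unram_le h0 hx ha ?_⟩
  by_contra u
  obtain ⟨-, v, hv, k, -⟩ := ram_cv C.hl C.two hx ha u
  exact absurd (h.2.2 v hv) (not_le.mpr k)

/-- a critical value in the box glues the two halves -/
theorem glue {m : ℕ} (hp : 0 < rr l c s (m + 1) x) {v : F}
    (hv : v = 1 + 2 * l * c ∨ v = 1 - 2 * l * c) (h : ‖v - fm l c x‖ < rr l c s m (fm l c x)) :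
    ‖sib c x - x‖ < rr l c s (m + 1) x := by
  have c0 := C.c0
  obtain ⟨w, w0, w1, w2⟩ : ∃ w : F, w ≠ 0 ∧ sib c w = w ∧ fm l c w = v := by
    have a : sib c c = c := by unfold sib; field_simp
    have b : sib c (-c) = -c := by unfold sib; field_simp
    rcases hv with rfl | rfl
    · exact ⟨c, c0, a, by unfold fm; rw [a]; ring⟩
    · exact ⟨-c, neg_ne_zero.mpr c0, b, by unfold fm; rw [b]; ring⟩
  have k : ‖w - x‖ < rr l c s (m + 1) x := by
    have := C.rr_surj hp w0 (w2.symm ▸ h)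
    rwa [w1, or_self] at this
  have k2 := C.rr_sib k
  rw [w1] at k2
  exact C.rr_trans k (C.rr_symm k2)

variable (I : Iso l c σ)
include I

theorem sig_or {m : ℕ} (hp : 0 < rr l c s (m + 1) x)
    (h : ‖σ (fm l c x) - fm l c x‖ < rr l c s m (fm l c x)) :
    ‖σ x - x‖ < rr l c s (m + 1) x ∨ ‖σ x - sib c x‖ < rr l c s (m + 1) (sib c x) := by
  have x0 := I.ne (C.rr_pos hp).2.1
  refine (C.rr_surj hp x0 (by rwa [← I.fm])).imp_right fun k => ?_
  have := C.rr_sib k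
  rwa [sib_sib C.c0 x0] at this

theorem sig_canon {m : ℕ} (hp : 0 < rr l c s (m + 1) x) (hn : ‖x‖ ≠ ‖sib c x‖)
    (h : ‖σ (fm l c x) - fm l c x‖ < rr l c s m (fm l c x)) : ‖σ x - x‖ < rr l c s (m + 1) x :=
  (C.sig_or I hp h).resolve_right fun k => hn ((I.nrm x).symm.trans (C.rr_norm k).1)

theorem sig_sq {m : ℕ} (hp : 0 < rr l c s (m + 1) x)
    (h : ‖σ (fm l c x) - fm l c x‖ < rr l c s m (fm l c x)) :
    ‖(σ * σ) x - x‖ < rr l c s (m + 1) x := by
  change ‖σ (σ x) - x‖ < _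
  rcases C.sig_or I hp h with k | k
  · exact utri_lt (by rwa [I.dist]) k
  · have k2 := C.rr_sib k
    rw [sib_sib C.c0 (C.rr_pos hp).2.1, ← I.sib] at k2
    refine utri_lt ?_ k2
    rwa [I.dist, ← I.rr, C.rr_congr k]

theorem sa_one : SA l c s σ 1 := fun m hm x h => by
  obtain rfl : m = 0 := by omega
  obtain ⟨⟨j, hj⟩, e⟩ := C.rr_zero h
  rw [e]
  exact utri_lt (b := cen l j) (by rwa [← I.cen j, I.dist]) (by rwa [norm_sub_rev])

theorem sa_sq {N : ℕ} (hN : 0 < N) (h : SA l c s σ N) : SA l c s (σ * σ) (N + 2) := by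
  have a : SA l c s (σ * σ) (N + 1) := fun m hm x hx => by
    cases m with
    | zero => exact C.sa_one I.sq 0 one_pos x hx
    | succ m => exact C.sig_sq I hx (h m (by omega) _ (C.rr_pos hx).1)
  intro m hm x hx
  rcases (Nat.lt_succ_iff.mp hm).lt_or_eq with o | rfl
  · exact a m o x hx
  obtain ⟨N, rfl⟩ := Nat.exists_eq_add_of_le' hN
  obtain ⟨y0, x0, -⟩ := C.rr_pos hx
  by_cases n : ‖x‖ = ‖sib c x‖
  · refine C.sig_sq I hx (C.sig_canon I y0 ?_ (h N (by omega) _ (C.rr_pos y0).1))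
    have e : ‖fm l c x‖ = ‖(1 : F)‖ := norm_eq_of_lt (by
      rw [norm_one]; exact (fm_one_le C.hl C.c0 (norm_eq_c x0 n)).trans_lt C.c1)
    rw [norm_one] at e
    have o : ‖c‖ < ‖fm l c x‖ := e ▸ C.c1
    exact ((norm_sib_lt C.c0 o).trans o).ne'
  · exact C.sig_canon I.sq hx n (a _ (by omega) _ y0)

theorem bm_congr {m : ℕ} (h : Bm l c s σ m y) (hz : ‖z - y‖ < rr l c s m y) : Bm l c s σ m z := by
  refine ⟨C.det_congr h.1 hz, ?_, fun x' x0 e => ?_⟩
  · rw [C.rr_congr hz]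
    exact utri_lt (utri_lt (b := σ y) (by rwa [I.dist]) h.2.1) (by rwa [norm_sub_rev])
  · by_contra k
    push Not at k
    obtain ⟨a, b⟩ := C.kid_spec z
    obtain ⟨a', b'⟩ := C.kid_spec y
    have p := ((norm_nonneg _).trans_lt k)
    have main : ∀ x, ‖x - x'‖ < rr l c s (m + 1) x' → fm l c x = y → False := fun x hx ex => by
      have := h.2.2 x (C.rr_norm hx).2 ex
      rw [C.rr_congr hx] at this
      exact absurd (utri_lt (utri_lt (b := σ x') (by rwa [I.dist]) k) (by rwa [norm_sub_rev]))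
        (not_lt.mpr this)
    rcases C.rr_surj p a' (by rw [b', e]; exact C.rr_symm hz) with o | o
    · exact main _ o b'
    · exact main _ o (by rw [fm_sib C.c0 a', b'])

theorem bm_down {m m' : ℕ} (hm : m' ≤ m) (h : Bm l c s σ m y) (d : Det l c s m' y) :
    Bm l c s σ m' y := by
  refine ⟨d, C.rr_nest' hm d.1 h.2.1, fun x x0 e => ?_⟩
  subst e
  have s0 := sib_ne C.c0 x0
  obtain ⟨p, -⟩ := C.det_kid x0 h.1
  obtain ⟨p', q'⟩ := C.det_kid s0 (m := m') (by rwa [fm_sib C.c0 x0])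
  have k := (C.sig_or I p h.2.1).resolve_left (not_lt.mpr (h.2.2 x x0 rfl))
  have k2 := (C.rr_nest' (Nat.succ_le_succ hm) p' k).trans_le q'
  rw [del_sib C.c0 x0, del, norm_sub_rev x] at k2
  rw [utri_eq k2, norm_sub_rev]
  exact (C.det_kid x0 d).2

theorem sat_bd (L : ℕ) : Sat l c s L (Bd l c s σ L) := fun _ ⟨m, hm, h⟩ =>
  ⟨m, hm, h.1.1, h.1.2.1, fun _ hz => ⟨m, hm, C.bm_congr I h hz⟩⟩

theorem sat_gd (L : ℕ) : Sat l c s L (Gd l c s σ L) := fun _ ⟨m, hm, d, h⟩ =>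
  ⟨m, hm, d.1, d.2.1, fun _ hz =>
    ⟨m, hm, C.det_congr d hz, fun k => h (C.bm_congr I k (C.rr_symm hz))⟩⟩

theorem bd_or {L i : ℕ} (h : Bd l c s σ L y) :
    SatAt l c s (Bd l c s σ L) (min i L) y ∨ Und l c s i y := by
  by_cases u : Und l c s i y
  · exact Or.inr u
  simp only [Und, not_forall, not_not] at u
  obtain ⟨m', hm', d⟩ := u
  obtain ⟨m, hm, b⟩ := h
  left
  rcases le_total m' m with o | o
  · exact ⟨m', le_min hm' (o.trans hm), d.1, d.2.1,
      fun _ hz => ⟨m', o.trans hm, C.bm_congr I (C.bm_down I o b d) hz⟩⟩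
  · exact ⟨m, le_min (o.trans hm') hm, b.1.1, b.1.2.1, fun _ hz => ⟨m, hm, C.bm_congr I b hz⟩⟩

theorem gd_fix {L : ℕ} (hx : x ≠ 0) (h : Gd l c s σ L (fm l c x)) (f : σ (fm l c x) = fm l c x) :
    σ x = x := by
  obtain ⟨m, -, d, h⟩ := h
  simp only [Bm, not_and, not_forall, not_le] at h
  obtain ⟨x', x0, e, k⟩ := h d (by rw [f, sub_self, norm_zero]; exact d.1)
  have f' : σ x' = x' := by
    refine (eq_or_sib C.hl (I.ne x0) x0 (by rw [← I.fm, e, f])).resolve_right fun o => ?_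
    rw [o, norm_sub_rev] at k
    exact absurd (C.det_kid x0 (e.symm ▸ d)).2 (not_le.mpr k)
  rcases eq_or_sib C.hl hx x0 e.symm with o | o
  · rw [o, f']
  · rw [o, I.sib, f']

theorem bd_move {L : ℕ} (hx : x ≠ 0) (h : Bd l c s σ L (fm l c x)) : σ x ≠ x := fun f => by
  obtain ⟨m, -, h⟩ := h
  have := h.2.2 x hx rfl
  rw [f, sub_self, norm_zero] at this
  exact absurd (C.det_kid hx h.1).1 (not_lt.mpr this)

theorem sq_fix (hx : x ≠ 0) (f : σ (fm l c x) = fm l c x) : (σ * σ) x = x := by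
  change σ (σ x) = x
  rcases eq_or_sib C.hl (I.ne hx) hx (by rw [← I.fm, f]) with o | o
  · rw [o, o]
  · rw [o, I.sib, o, sib_sib C.c0 hx]

theorem not_bm {N m : ℕ} (h : SA l c s σ (N + 2)) (hm : m ≤ N) : ¬ Bm l c s σ m y := fun b => by
  obtain ⟨a, e⟩ := C.kid_spec y
  exact absurd (b.2.2 _ a e) (not_le.mpr (h (m + 1) (by omega) _ (C.det_kid a (e.symm ▸ b.1)).1))

theorem und_of_not_gd {N L : ℕ} (h : SA l c s σ (N + 2)) (hL : N ≤ L) (g : ¬ Gd l c s σ L y) :
    Und l c s N y := fun m hm d => g ⟨m, hm.trans hL, d, C.not_bm I h hm⟩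

theorem und_of_bd {N L : ℕ} (h : SA l c s σ (N + 2)) (b : Bd l c s σ L y) : Und l c s N y :=
  fun m' hm' d => by
    obtain ⟨m, -, b⟩ := b
    rcases le_total m' m with o | o
    exacts [C.not_bm I h hm' (C.bm_down I o b d), C.not_bm I h (o.trans hm') b]

omit C I in
theorem not_gd {L : ℕ} (g : ¬ Gd l c s σ L y) : Bd l c s σ L y ∨ Und l c s L y := by
  by_contra k
  simp only [not_or, Und, not_forall, not_not] at k
  obtain ⟨b, m, hm, d⟩ := k
  exact g ⟨m, hm, d, fun a => b ⟨m, hm, a⟩⟩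

theorem exists_bm {N : ℕ} (h : SA l c s σ (N + 1)) (h' : ¬ SA l c s σ (N + 2)) :
    ∃ y, Bm l c s σ N y := by
  simp only [SA, not_forall, not_lt] at h'
  obtain ⟨m, hm, x, hx, k⟩ := h'
  obtain rfl : m = N + 1 := by
    by_contra e
    exact absurd (h m (by omega) x hx) (not_lt.mpr k)
  obtain ⟨y0, x0, ha⟩ := C.rr_pos hx
  have st := h N (by omega) _ y0
  have n : ‖x‖ = ‖sib c x‖ := by by_contra n; exact absurd (C.sig_canon I hx n st) (not_lt.mpr k)
  have o := (C.sig_or I hx st).resolve_left (not_lt.mpr k)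
  refine ⟨_, ⟨y0, by rwa [← n, max_self, norm_eq_c x0 n] at ha, fun v hv => ?_⟩, st,
    fun x' x0' e => ?_⟩
  · by_contra u
    exact absurd (C.rr_trans (C.glue hx hv (not_le.mp u)) o) (not_lt.mpr k)
  · rcases eq_or_sib C.hl x0' x0 e with rfl | rfl
    · exact k
    · by_contra u
      have := C.rr_sib (not_le.mp u)
      rw [I.sib, sib_sib C.c0 (I.ne x0), sib_sib C.c0 x0] at this
      exact absurd this (not_lt.mpr k)

end Cy

end Pool.Agent.Lib.MP_a2c890_nt.Q2
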