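import Pool.Agent.Lib.MP_a2c890_nt.Q2.Mass

set_option autoImplicit false
set_option linter.unusedSectionVars false

namespace Pool.Agent.Lib.MP_a2c890_nt.Q2

open T Finset

variable {F : Type*} [NormedField F] [IsUltrametricDist F] [IsAlgClosed F]

/-- the decay rate -/
noncomputable def kap : ℝ := √2 / 2

theorem kap_sq : kap * kap = 1 / 2 := by
  unfold kap; nlinarith [Real.mul_self_sqrt (two_pos (α := ℝ)).le]

theorem kap_pos : 0 < kap := by unfold kap; positivity

theorem kap_gt : 0.7 < kap := by by_contra h; nlinarith [kap_sq, kap_pos, not_lt.mp h]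

theorem kap_lt : kap < 0.71 := by by_contra h; nlinarith [kap_sq, kap_pos, not_lt.mp h]

/-- no visit to the small disc during `k` steps -/
def Deep (l c : F) : ℕ → F → Prop
  | 0, _ => True
  | k + 1, x => ‖c‖ ≤ ‖x‖ ∧ Deep l c k (fm l c x)

/-- follows `v` up to the last visit -/
def Tr (l c : F) : ℕ → F → F → Prop
  | 0, _, _ => False
  | k + 1, v, x => ‖x‖ = ‖v‖ ∧ v ≠ 0 ∧
      ((‖v‖ < ‖c‖ ∧ Deep l c k (fm l c x)) ∨ Tr l c k (fm l c v) (fm l c x))

/-- the box of level `m` is small and has no critical value -/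
def Det (l c : F) (s : ℝ) (m : ℕ) (y : F) : Prop :=
  0 < rr l c s m y ∧ rr l c s m y ≤ ‖c‖ ∧
    ∀ v, (v = 1 + 2 * l * c ∨ v = 1 - 2 * l * c) → rr l c s m y ≤ ‖v - y‖

/-- undetermined up to level `k` -/
def Und (l c : F) (s : ℝ) (k : ℕ) (y : F) : Prop := ∀ m ≤ k, ¬ Det l c s m y

variable {l c x y z : F} {s : ℝ} {Q : ℕ} {h g : F → ℝ} {E E' : F → Prop}

theorem Und.mono {k k' : ℕ} (h : Und l c s k y) (hk : k' ≤ k) : Und l c s k' y :=
  fun m hm => h m (hm.trans hk)

namespace Cy

variable (C : Cy l c s Q)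
include C

theorem single_le {n : ℕ} (h0 : ∀ z, 0 ≤ h z) (hx : Pre l c n y x) :
    (1 / 2) ^ n * h x ≤ avg l c n h y := by
  induction n generalizing h x with
  | zero => rw [← hx.1, pow_zero, one_mul]; rfl
  | succ n ih =>
    obtain ⟨x0, hx⟩ := pre_succ.mp hx
    refine le_trans ?_ (ih (h := Lop l c h)
      (fun z => div_nonneg (add_nonneg (h0 _) (h0 _)) two_pos.le) hx)
    rw [C.Lop_fm _ x0, pow_succ, mul_assoc]
    exact mul_le_mul_of_nonneg_left (by linarith [h0 (sib c x)]) (by positivity)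

theorem pre_of_rr {m : ℕ} (h : 0 < rr l c s m x) : Pre l c m ((fm l c)^[m] x) x := by
  induction m generalizing x with
  | zero => exact ⟨rfl, fun _ h => absurd h (Nat.not_lt_zero _)⟩
  | succ m ih => exact pre_succ.mpr ⟨(C.rr_pos h).2.1, ih (C.rr_pos h).1⟩

/-- all averages of a saturated event are comparable -/
theorem comp (E : F → Prop) (L : ℕ) : ∃ p : ℝ, 0 ≤ p ∧
    (∀ k i y, k ≤ L → k ≤ i → avg l c i (fun x => ind (SatAt l c s E k x)) y ≤ p) ∧
    (∀ i w, p ≤ Q * 2 ^ (Q + 1) * avg l c (i + (Q + 1) + L) (fun x => ind (SatAt l c s E L x)) w) ∧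
    ∀ k x, k ≤ L → SatAt l c s E k x → (1 / 2) ^ k ≤ p := by
  classical
  let P : ℕ → F → Prop := fun m x =>
    0 < rr l c s m x ∧ rr l c s m x ≤ ‖c‖ ∧ ∀ z, ‖z - x‖ < rr l c s m x → E z
  let G : ℕ → F → Prop := fun m x => P m x ∧ ∀ m' < m, ¬ P m' x
  have P1 : ∀ m x z, ‖z - x‖ < rr l c s m x → P m x → P m z := fun m x z hz hp =>
    ⟨C.rr_congr hz ▸ hp.1, C.rr_congr hz ▸ hp.2.1, fun w hw => hp.2.2 w (C.rr_trans hz hw)⟩
  have G1 : ∀ m x z, ‖z - x‖ < rr l c s m x → G m x → G m z := fun m x z hz hp =>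
    ⟨P1 m x z hz hp.1, fun m' hm k =>
      hp.2 m' hm (P1 m' z x (C.rr_nest' hm.le k.1 (C.rr_symm hz)) k)⟩
  have T := fun m => C.top_bd (g := avg l c m fun x => ind (G m x))
    (fun _ => C.le_avg fun _ _ => ind_nonneg _)
    (C.transfer_iter m (fun x z hz => ind_congr ⟨G1 m z x (C.rr_symm hz), G1 m x z hz⟩)
      fun x hx => by by_contra k; exact hx (ind_neg fun a => k a.1.1)).1
    (C.transfer_iter m (fun x z hz => ind_congr ⟨G1 m z x (C.rr_symm hz), G1 m x z hz⟩)
      fun x hx => by by_contra k; exact hx (ind_neg fun a => k a.1.1)).2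
  set κ : ℕ → ℝ := fun m => ∑ j ∈ range Q, avg l c m (fun x => ind (G m x)) (cen l j)
  have κ0 : ∀ m, 0 ≤ κ m := fun m => sum_nonneg fun _ _ => C.le_avg fun _ _ => ind_nonneg _
  have ex : ∀ k x, SatAt l c s E k x → ∃ m ≤ k, G m x := fun k x ⟨m, hm, hp⟩ => by
    have e : ∃ m, P m x := ⟨m, hp⟩
    exact ⟨Nat.find e, (Nat.find_min' e hp).trans hm, Nat.find_spec e, fun _ => Nat.find_min e⟩
  refine ⟨∑ m ∈ range (L + 1), κ m, sum_nonneg fun m _ => κ0 m, fun k i y hk hi => ?_,
    fun i w => ?_, fun k x hk hx => ?_⟩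
  · calc _ ≤ avg l c i (fun x => ∑ m ∈ range (k + 1), ind (G m x)) y := C.avg_mono fun x _ => by
          by_cases e : SatAt l c s E k x
          · obtain ⟨m, hm, a⟩ := ex k x e
            rw [ind_pos e, ← ind_pos a]
            exact single_le_sum (f := fun m => ind (G m x)) (fun _ _ => ind_nonneg _)
              (mem_range.mpr (by omega))
          · rw [ind_neg e]; exact sum_nonneg fun _ _ => ind_nonneg _
      _ ≤ ∑ m ∈ range (k + 1), κ m := by
          rw [avg_sum]
          refine sum_le_sum fun m hm => ?_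
          obtain ⟨d, rfl⟩ := Nat.exists_eq_add_of_le' (show m ≤ i by have := mem_range.mp hm; omega)
          rw [avg_avg]
          exact C.avg_le fun y _ => (T m).1 y
      _ ≤ _ := sum_le_sum_of_subset_of_nonneg (range_mono (by omega)) fun m _ _ => κ0 m
  · calc _ ≤ ∑ m ∈ range (L + 1), Q * 2 ^ (Q + 1) *
            avg l c (i + (Q + 1) + L) (fun x => ind (G m x)) w := sum_le_sum fun m hm => by
          obtain ⟨d, rfl⟩ := Nat.exists_eq_add_of_le' (show m ≤ L by have := mem_range.mp hm; omega)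
          rw [show i + (Q + 1) + (d + m) = (i + d + (Q + 1)) + m by ring, avg_avg]
          exact (T m).2 _ w
      _ ≤ _ := by
          rw [← mul_sum, ← avg_sum]
          refine mul_le_mul_of_nonneg_left (C.avg_mono fun x _ => ?_) (by positivity)
          by_cases e : SatAt l c s E L x
          · obtain ⟨m, hm, a⟩ := ex L x e
            rw [ind_pos e, sum_eq_single m (fun m' _ ne => ind_neg fun b => ?_)
              fun k => absurd (mem_range.mpr (by omega)) k]
            · exact ind_le_one _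
            · rcases lt_or_gt_of_ne ne with o | o
              exacts [a.2 m' o b.1, b.2 m o a.1]
          · rw [ind_neg e]
            exact (sum_eq_zero fun m hm => ind_neg fun b =>
              e ⟨m, by have := mem_range.mp hm; omega, b.1⟩).le
  · obtain ⟨m, hm, a⟩ := ex k x hx
    have h1 := C.single_le (h := fun x => ind (G m x)) (fun _ => ind_nonneg _) (C.pre_of_rr a.1.1)
    rw [ind_pos a, mul_one] at h1
    refine (pow_le_pow_of_le_one (by norm_num) (by norm_num) hm).trans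
      ((h1.trans ((T m).1 _)).trans ?_)
    exact single_le_sum (f := κ) (fun m _ => κ0 m) (mem_range.mpr (by omega))

theorem kids_cases (y : F) : ∃ x, x ≠ 0 ∧ fm l c x = y ∧ fm l c (sib c x) = y ∧
    ((‖y - 1‖ ≤ ‖c‖ ∧ ‖x‖ = ‖c‖ ∧ ‖sib c x‖ = ‖c‖) ∨ (‖x‖ < ‖c‖ ∧ ‖c‖ < ‖sib c x‖)) := by
  obtain ⟨a, b⟩ := C.kid_spec y
  have b' : fm l c (sib c (kid l c y)) = y := by rw [fm_sib C.c0 a, b]
  rcases lt_trichotomy ‖kid l c y‖ ‖c‖ with u | u | u
  · exact ⟨_, a, b, b', Or.inr ⟨u, lt_norm_sib a u⟩⟩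
  · exact ⟨_, a, b, b', Or.inl ⟨b ▸ fm_one_le C.hl C.c0 u, u, norm_sib_c C.c0 u⟩⟩
  · exact ⟨_, sib_ne C.c0 a, b', by rwa [sib_sib C.c0 a],
      Or.inr ⟨norm_sib_lt C.c0 u, by rwa [sib_sib C.c0 a]⟩⟩

theorem far_of_le (h : ‖x‖ ≤ ‖c‖) : ¬ ‖x - 1‖ ≤ ‖c‖ := fun k => by
  have := usub_le h k
  rw [sub_sub_cancel, norm_one] at this
  exact absurd C.c1 (not_lt.mpr this)

theorem deep_mass (k : ℕ) (y : F) : avg l c k (fun x => ind (Deep l c k x)) y ≤ 2 * kap * kap ^ k := by
  classical
  let w : F → ℝ := fun y => if ‖y - 1‖ ≤ ‖c‖ then 2 * kap else 1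
  have w1 : ∀ y, 1 ≤ w y ∧ w y ≤ 2 * kap := fun y => by
    have := kap_gt
    simp only [w]; split_ifs <;> constructor <;> linarith
  have main : ∀ k y, avg l c k (fun x => ind (Deep l c k x) * w x) y ≤ kap ^ k * w y := by
    intro k y
    induction k with
    | zero => simp [avg_zero, Deep, ind_pos]
    | succ k ih =>
      rw [avg_succ, pow_succ', mul_assoc]
      refine le_trans ?_ (mul_le_mul_of_nonneg_left ih kap_pos.le)
      rw [← avg_mul]
      refine C.avg_mono fun u _ => ?_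
      obtain ⟨x, x0, e1, e2, hc⟩ := C.kids_cases u
      rw [← e1, C.Lop_fm _ x0, e1]
      simp only [Deep, e1, e2, ind_and]
      have d0 := ind_nonneg (Deep l c k u)
      rcases hc with ⟨a, b, d⟩ | ⟨a, b⟩
      · have wx : w x = 1 := if_neg (C.far_of_le b.le)
        have ws : w (sib c x) = 1 := if_neg (C.far_of_le d.le)
        have wu : w u = 2 * kap := if_pos a
        rw [wx, ws, wu, ind_pos b.ge, ind_pos d.ge]
        nlinarith [kap_sq]
      · rw [ind_neg (not_le.mpr a), ind_pos b.le]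
        nlinarith [mul_le_mul_of_nonneg_left (w1 (sib c x)).2 d0, kap_pos,
          mul_le_mul_of_nonneg_left (w1 u).1 (mul_nonneg kap_pos.le d0)]
  refine le_trans (C.avg_mono fun x _ => le_mul_of_one_le_right (ind_nonneg _) (w1 x).1)
    ((main k y).trans ?_)
  rw [mul_comm]
  exact mul_le_mul_of_nonneg_right (w1 y).2 (pow_pos kap_pos _).le

theorem tr_mass (k : ℕ) (v y : F) : avg l c k (fun x => ind (Tr l c k v x)) y ≤
    4 * (if ‖v - 1‖ ≤ ‖c‖ then kap else 1) * kap ^ k := by
  have k0 := kap_pos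
  induction k generalizing v with
  | zero => rw [avg_zero, ind_neg (P := Tr l c 0 v y) id]; split_ifs <;> positivity
  | succ k ih =>
    by_cases v0 : v = 0
    · refine C.avg_le fun x _ => ?_
      rw [ind_neg (P := Tr l c (k + 1) v x) fun a => a.2.1 v0]; split_ifs <;> positivity
    have step : avg l c (k + 1) (fun x => ind (Tr l c (k + 1) v x)) y ≤
        (if ‖v‖ < ‖c‖ then 1 / 2 else 0) * avg l c k (fun x => ind (Deep l c k x)) y +
        (if ‖v‖ = ‖c‖ then 1 else 1 / 2) * avg l c k (fun x => ind (Tr l c k (fm l c v) x)) y := by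
      rw [← avg_mul, ← avg_mul, ← avg_add, avg_succ]
      refine C.avg_mono fun u _ => ?_
      obtain ⟨x, x0, e1, e2, hc⟩ := C.kids_cases u
      rw [← e1, C.Lop_fm _ x0, e1]
      have d0 := ind_nonneg (Deep l c k u)
      have t0 := ind_nonneg (Tr l c k (fm l c v) u)
      have b : ∀ z, fm l c z = u → ind (Tr l c (k + 1) v z) ≤ ind (‖z‖ = ‖v‖) *
          ((if ‖v‖ < ‖c‖ then 1 else 0) * ind (Deep l c k u) + ind (Tr l c k (fm l c v) u)) := by
        intro z hz
        by_cases t : Tr l c (k + 1) v z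
        · rw [ind_pos t, ind_pos t.1, one_mul]
          rcases t.2.2 with t | t
          · rw [hz] at t; rw [if_pos t.1, ind_pos t.2]; linarith
          · rw [hz] at t; rw [ind_pos t]; split_ifs <;> linarith
        · rw [ind_neg t]; exact mul_nonneg (ind_nonneg _) (by split_ifs <;> linarith)
      have b1 := b x e1
      have b2 := b _ e2
      rcases hc with ⟨-, a, d⟩ | ⟨a, d⟩
      · rw [a] at b1; rw [d] at b2
        by_cases e : ‖v‖ = ‖c‖
        · rw [ind_pos e.symm, if_neg e.not_lt] at b1 b2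
          rw [if_neg e.not_lt, if_pos e]; linarith
        · rw [ind_neg (Ne.symm e)] at b1 b2
          rw [if_neg e]; split_ifs <;> linarith
      · have o : ind (‖x‖ = ‖v‖) + ind (‖sib c x‖ = ‖v‖) ≤ 1 := by
          by_cases e : ‖x‖ = ‖v‖
          · rw [ind_pos e, ind_neg (e ▸ (a.trans d).ne'), add_zero]
          · rw [ind_neg e, zero_add]; exact ind_le_one _
        split_ifs at b1 b2 ⊢ <;> nlinarith
    refine step.trans ?_
    have d := C.deep_mass k y
    have t := ih (fm l c v)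
    have p := pow_pos k0 k
    have g1 : (if ‖fm l c v - 1‖ ≤ ‖c‖ then kap else 1) ≤ 1 := by split_ifs <;> linarith [kap_lt]
    have t1 := t.trans (mul_le_mul_of_nonneg_right (mul_le_mul_of_nonneg_left g1 four_pos.le) p.le)
    rw [pow_succ]
    rcases lt_trichotomy ‖v‖ ‖c‖ with o | o | o
    · rw [if_pos o, if_neg o.ne, if_neg (C.far_of_le o.le)]
      nlinarith [kap_gt]
    · rw [if_pos (fm_one_le C.hl C.c0 o)] at t
      rw [if_neg o.not_lt, if_pos o, if_neg (C.far_of_le o.le)]
      linarith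
    · rw [if_neg o.not_gt, if_neg o.ne']
      split_ifs
      · have : 4 * kap * (kap ^ k * kap) = 4 * (kap * kap) * kap ^ k := by ring
        rw [this, kap_sq]; linarith
      · nlinarith [kap_gt]

theorem last_visit {k : ℕ} {w : F} (hw : Inn l c w) (hy : Pre l c k w y) : Deep l c k y ∨
    ∃ m < k, (0 < rr l c s (m + 1) y ∧ rr l c s (m + 1) y ≤ ‖c‖) ∧
      ∀ v, ‖v - y‖ < rr l c s (m + 1) y → Tr l c k v y := by
  induction k generalizing y with
  | zero => exact Or.inl trivial
  | succ k ih =>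
    obtain ⟨y0, hy⟩ := pre_succ.mp hy
    rcases ih hy with d | ⟨m, hm, a, b⟩
    · rcases le_or_gt ‖c‖ ‖y‖ with o | o
      · exact Or.inl ⟨o, d⟩
      · refine Or.inr ⟨0, by omega, C.rr_visit y0 o (C.pre_inn hw hy), fun v hv => ?_⟩
        obtain ⟨e, v0⟩ := C.rr_norm hv
        exact ⟨e.symm, v0, Or.inl ⟨e ▸ o, d⟩⟩
    · refine Or.inr ⟨m + 1, by omega, C.rr_small y0 a.1 a.2, fun v hv => ?_⟩
      obtain ⟨e, v0⟩ := C.rr_norm hv
      exact ⟨e.symm, v0, Or.inr (b _ (C.rr_map hv))⟩

theorem und_mass {k i : ℕ} {w : F} (hw : Inn l c w) (hk : k ≤ i) :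
    avg l c i (fun x => ind (Und l c s k x)) w ≤ 10 * kap ^ k := by
  obtain ⟨d, rfl⟩ := Nat.exists_eq_add_of_le' hk
  rw [avg_avg]
  refine C.avg_le fun y hy => ?_
  have t : ∀ v, avg l c k (fun x => ind (Tr l c k v x)) y ≤ 4 * kap ^ k := fun v => by
    refine (C.tr_mass k v y).trans (mul_le_mul_of_nonneg_right ?_ (pow_pos kap_pos k).le)
    split_ifs <;> linarith [kap_lt]
  calc _ ≤ avg l c k (fun x => ind (Deep l c k x) + (ind (Tr l c k (1 + 2 * l * c) x) +
          ind (Tr l c k (1 - 2 * l * c) x))) y := C.avg_mono fun x hx => by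
        have n1 := ind_nonneg (Deep l c k x)
        have n2 := ind_nonneg (Tr l c k (1 + 2 * l * c) x)
        have n3 := ind_nonneg (Tr l c k (1 - 2 * l * c) x)
        by_cases u : Und l c s k x
        · rw [ind_pos u]
          rcases C.last_visit (C.pre_inn hw hy) hx with d | ⟨m, hm, a, b⟩
          · rw [ind_pos d]; linarith
          · have := u (m + 1) hm
            simp only [Det, not_and, not_forall, not_le] at this
            obtain ⟨v, rfl | rfl, hv⟩ := this a.1 a.2
            · rw [ind_pos (b _ hv)]; linarith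
            · rw [ind_pos (b _ hv)]; linarith
        · rw [ind_neg u]; linarith
    _ ≤ _ := by
        rw [avg_add, avg_add]
        nlinarith [C.deep_mass k y, t (1 + 2 * l * c), t (1 - 2 * l * c), kap_lt, pow_pos kap_pos k]

end Cy

end Pool.Agent.Lib.MP_a2c890_nt.Q2
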